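import Pool.Agent.H48.LCA.Rep

/-!
# The commutative C*-algebra generated by translations and its characters
-/

set_option autoImplicit false
set_option linter.unusedSectionVars false
set_option linter.unusedVariables false
set_option linter.deprecated false

open MeasureTheory Filter Topology
open scoped ENNReal ComplexConjugate Pointwise

namespace Pool.Agent.H48.LCA

variable {G : Type} [CommGroup G] [TopologicalSpace G] [IsTopologicalGroup G]
  [LocallyCompactSpace G] [T2Space G] [MeasurableSpace G] [BorelSpace G]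
variable (μ : Measure G) [μ.IsHaarMeasure] [μ.Regular]

/-- the bicommutant of the translations -/
noncomputable def SA : StarSubalgebra ℂ (HH μ →L[ℂ] HH μ) where
  carrier := {T | ∀ S : HH μ →L[ℂ] HH μ, (∀ x, S * tau μ x = tau μ x * S) → S * T = T * S}
  mul_mem' := by
    intro a b ha hb S hS
    rw [← mul_assoc, ha S hS, mul_assoc, hb S hS, mul_assoc]
  one_mem' := by intro S hS; rw [mul_one, one_mul]
  add_mem' := by
    intro a b ha hb S hS
    rw [mul_add, add_mul, ha S hS, hb S hS]
  zero_mem' := by intro S hS; rw [mul_zero, zero_mul]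
  algebraMap_mem' := by
    intro c S hS
    exact (Algebra.commutes c S).symm
  star_mem' := by
    intro a ha S hS
    have h1 : ∀ x, star S * tau μ x = tau μ x * star S := by
      intro x
      have h2 := hS x⁻¹
      have h3 := congrArg star h2
      rw [star_mul, star_mul, tau_star, inv_inv] at h3
      exact h3.symm
    have h4 := congrArg star (ha (star S) h1)
    rw [star_mul, star_mul, star_star] at h4
    exact h4.symm

variable {μ}

lemma mem_SA {T : HH μ →L[ℂ] HH μ} : T ∈ SA μ ↔
    ∀ S : HH μ →L[ℂ] HH μ, (∀ x, S * tau μ x = tau μ x * S) → S * T = T * S := Iff.rfl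

lemma tau_mem (x : G) : tau μ x ∈ SA μ := fun S hS => hS x

lemma Lop_mem {f : G → ℂ} (hf : IsCC f) : Lop hf ∈ SA μ :=
  fun S hS => commute_Lop_of_commute_tau hf hS

instance SA_closed : IsClosed (SA μ : Set (HH μ →L[ℂ] HH μ)) := by
  have h : (SA μ : Set (HH μ →L[ℂ] HH μ))
      = ⋂ S : {S : HH μ →L[ℂ] HH μ // ∀ x, S * tau μ x = tau μ x * S},
        {T | S.1 * T = T * S.1} := by
    ext T
    simp only [SetLike.mem_coe, mem_SA, Set.mem_iInter, Subtype.forall]
    exact Iff.rfl
  rw [h]
  refine isClosed_iInter fun S => ?_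
  exact isClosed_eq (continuous_const.mul continuous_id) (continuous_id.mul continuous_const)

lemma SA_comm {a b : HH μ →L[ℂ] HH μ} (ha : a ∈ SA μ) (hb : b ∈ SA μ) : a * b = b * a := by
  refine hb a fun x => ?_
  exact (ha (tau μ x) fun y => tau_comm μ x y).symm

noncomputable instance : NormedCommRing (SA μ) :=
  { SubringClass.toNormedRing (SA μ) with
    mul_comm := fun a b => Subtype.ext (SA_comm a.2 b.2) }

noncomputable instance : CommCStarAlgebra (SA μ) where
  toCompleteSpace := (SA_closed (μ := μ)).completeSpace_coe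
  norm_mul_self_le x := CStarRing.norm_star_mul_self (x := (x : HH μ →L[ℂ] HH μ)) |>.symm.le

/-- conjugation by a modulation preserves the algebra -/
lemma mdl_conj_mem (t : PontryaginDual G) {a : HH μ →L[ℂ] HH μ} (ha : a ∈ SA μ) :
    mdl μ t * a * mdl μ t⁻¹ ∈ SA μ := by
  have hinv : ∀ s : PontryaginDual G, mdl μ s * mdl μ s⁻¹ = 1 := by
    intro s; rw [← mdl_mul, mul_inv_cancel, mdl_one]
  have hinv' : ∀ s : PontryaginDual G, mdl μ s⁻¹ * mdl μ s = 1 := by
    intro s; rw [← mdl_mul, inv_mul_cancel, mdl_one]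
  intro S hS
  have h1 : ∀ x, (mdl μ t⁻¹ * S * mdl μ t) * tau μ x = tau μ x * (mdl μ t⁻¹ * S * mdl μ t) := by
    intro x
    have e1 := mdl_tau (μ := μ) t x
    have e2 := mdl_tau (μ := μ) t⁻¹ x
    calc (mdl μ t⁻¹ * S * mdl μ t) * tau μ x = mdl μ t⁻¹ * S * (mdl μ t * tau μ x) := by
          rw [mul_assoc]
      _ = mdl μ t⁻¹ * S * (((t x : Circle) : ℂ) • (tau μ x * mdl μ t)) := by rw [e1]
      _ = ((t x : Circle) : ℂ) • (mdl μ t⁻¹ * (S * tau μ x) * mdl μ t) := by
          rw [mul_smul_comm]; simp only [mul_assoc]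
      _ = ((t x : Circle) : ℂ) • ((mdl μ t⁻¹ * tau μ x) * S * mdl μ t) := by
          rw [hS]; simp only [mul_assoc]
      _ = ((t x : Circle) : ℂ) • ((((t⁻¹ x : Circle) : ℂ) • (tau μ x * mdl μ t⁻¹)) * S * mdl μ t) := by
          rw [e2]
      _ = (((t x : Circle) : ℂ) * ((t⁻¹ x : Circle) : ℂ)) • (tau μ x * (mdl μ t⁻¹ * S * mdl μ t)) := by
          rw [smul_mul_assoc, smul_mul_assoc, smul_smul]; simp only [mul_assoc]
      _ = _ := by
          have h3 : ((t x : Circle) : ℂ) * ((t⁻¹ x : Circle) : ℂ) = 1 := by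
            rw [← Circle.coe_mul]
            have : t x * t⁻¹ x = 1 := by
              change t x * (t x)⁻¹ = 1
              exact mul_inv_cancel _
            rw [this]; rfl
          rw [h3, one_smul]
  have h2 := ha _ h1
  calc S * (mdl μ t * a * mdl μ t⁻¹)
      = (mdl μ t * mdl μ t⁻¹) * S * (mdl μ t * a * mdl μ t⁻¹) := by rw [hinv, one_mul]
    _ = mdl μ t * ((mdl μ t⁻¹ * S * mdl μ t) * a) * mdl μ t⁻¹ := by simp only [mul_assoc]
    _ = mdl μ t * (a * (mdl μ t⁻¹ * S * mdl μ t)) * mdl μ t⁻¹ := by rw [h2]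
    _ = mdl μ t * a * mdl μ t⁻¹ * S * (mdl μ t * mdl μ t⁻¹) := by simp only [mul_assoc]
    _ = _ := by rw [hinv, mul_one]

end Pool.Agent.H48.LCA
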