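import Pool.Agent.H48.LCA.Alg

/-!
# Characters of the algebra and characters of the group
-/

set_option autoImplicit false
set_option linter.unusedSectionVars false
set_option linter.unusedVariables false
set_option linter.deprecated false

open MeasureTheory Filter Topology WeakDual
open scoped ENNReal ComplexConjugate Pointwise

namespace Pool.Agent.H48.LCA

variable {G : Type} [CommGroup G] [TopologicalSpace G] [IsTopologicalGroup G]
  [LocallyCompactSpace G] [T2Space G] [MeasurableSpace G] [BorelSpace G]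
variable {μ : Measure G} [μ.IsHaarMeasure] [μ.Regular]

/-- the Gelfand spectrum -/
abbrev CH (μ : Measure G) [μ.IsHaarMeasure] [μ.Regular] : Type := characterSpace ℂ (SA μ)

/-- translations in the algebra -/
noncomputable def tA (μ : Measure G) [μ.IsHaarMeasure] [μ.Regular] (x : G) : SA μ :=
  ⟨tau μ x, tau_mem x⟩

/-- convolution operators in the algebra -/
noncomputable def lA {f : G → ℂ} (hf : IsCC f) : SA μ := ⟨Lop hf, Lop_mem hf⟩

lemma tA_mul (x y : G) : tA μ (x * y) = tA μ x * tA μ y := Subtype.ext (tau_mul μ x y)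

lemma tA_one : tA μ 1 = 1 := Subtype.ext (tau_one μ)

lemma tA_star (x : G) : star (tA μ x) = tA μ x⁻¹ := Subtype.ext (tau_star μ x)

lemma norm_gelfand (a : SA μ) : ‖gelfandTransform ℂ (SA μ) a‖ = ‖a‖ :=
  (gelfandTransform_isometry (SA μ)).norm_map_of_map_zero (map_zero _) a

lemma char_norm_le (κ : CH μ) (a : SA μ) : ‖κ a‖ ≤ ‖a‖ := by
  rw [← norm_gelfand a]
  exact ContinuousMap.norm_coe_le_norm (gelfandTransform ℂ (SA μ) a) κ

lemma norm_char_tA (κ : CH μ) (x : G) : ‖κ (tA μ x)‖ = 1 := by
  have h1 : κ (star (tA μ x)) * κ (tA μ x) = 1 := by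
    rw [← map_mul, tA_star, ← tA_mul, inv_mul_cancel, tA_one, map_one]
  rw [map_star] at h1
  have h2 : ‖κ (tA μ x)‖ * ‖κ (tA μ x)‖ = 1 := by
    have := congrArg norm h1
    rw [norm_mul, norm_star, norm_one] at this
    exact this
  nlinarith [norm_nonneg (κ (tA μ x))]

lemma continuous_tA_mul_lA {f : G → ℂ} (hf : IsCC f) :
    Continuous fun x : G => tA μ x * lA hf :=
  Continuous.subtype_mk (continuous_tau_mul_Lop hf) _

/-- nontrivial characters -/
def NT (κ : CH μ) : Prop := ∃ (f : G → ℂ) (hf : IsCC f), κ (lA hf) ≠ 0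

lemma continuous_char_tA {κ : CH μ} (h : NT κ) : Continuous fun x : G => κ (tA μ x) := by
  obtain ⟨f, hf, hne⟩ := h
  have h1 : (fun x : G => κ (tA μ x)) = fun x => κ (tA μ x * lA hf) / κ (lA hf) := by
    funext x
    rw [map_mul, mul_div_cancel_right₀ _ hne]
  rw [h1]
  exact ((map_continuous κ).comp (continuous_tA_mul_lA hf)).div_const _

/-- the character of the group attached to a nontrivial character of the algebra -/
noncomputable def jj (κ : CH μ) (h : NT κ) : PontryaginDual G :=
  ({ toFun := fun x => ⟨κ (tA μ x), mem_sphere_zero_iff_norm.2 (norm_char_tA κ x)⟩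
     map_one' := Subtype.ext (by
      change κ (tA μ 1) = 1
      rw [tA_one, map_one])
     map_mul' := fun x y => Subtype.ext (by
      change κ (tA μ (x * y)) = κ (tA μ x) * κ (tA μ y)
      rw [tA_mul, map_mul])
     continuous_toFun := Continuous.subtype_mk (continuous_char_tA h) _ } : G →ₜ* Circle)

lemma jj_apply (κ : CH μ) (h : NT κ) (x : G) : ((jj κ h x : Circle) : ℂ) = κ (tA μ x) := rfl

/-- Fourier transform -/
noncomputable def ft (μ : Measure G) (f : G → ℂ) (χ : PontryaginDual G) : ℂ :=
  ∫ x, f x * ((χ x : Circle) : ℂ) ∂μ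

lemma lA_mul_lA {f g : G → ℂ} (hf : IsCC f) (hg : IsCC g) :
    (lA hf * lA hg : SA μ) = ∫ y, f y • (tA μ y * lA hg) ∂μ := by
  have hint : Integrable (fun y => f y • (tA μ y * lA hg : SA μ)) μ :=
    (hf.1.smul (continuous_tA_mul_lA hg)).integrable_of_hasCompactSupport hf.2.smul_right
  apply Subtype.ext
  have h1 := ContinuousLinearMap.integral_comp_comm
    (Submodule.subtypeL (Subalgebra.toSubmodule (SA μ).toSubalgebra)) hint
  refine Eq.trans ?_ h1
  exact Lop_mul_Lop hf hg

lemma char_lA {κ : CH μ} (h : NT κ) {f : G → ℂ} (hf : IsCC f) : κ (lA hf) = ft μ f (jj κ h) := by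
  obtain ⟨g, hg, hne⟩ := id h
  have hint : Integrable (fun y => f y • (tA μ y * lA hg : SA μ)) μ :=
    (hf.1.smul (continuous_tA_mul_lA hg)).integrable_of_hasCompactSupport hf.2.smul_right
  have h1 : κ (lA hf) * κ (lA hg) = (ft μ f (jj κ h)) * κ (lA hg) := by
    rw [← map_mul, lA_mul_lA]
    have h2 := ContinuousLinearMap.integral_comp_comm (CharacterSpace.toCLM κ) hint
    simp only [CharacterSpace.coe_toCLM] at h2
    rw [← h2]
    unfold ft
    rw [← integral_mul_const]
    refine integral_congr_ae (Eventually.of_forall fun y => ?_)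
    simp only [map_smul, map_mul, smul_eq_mul]
    rw [jj_apply, mul_assoc]
  exact mul_right_cancel₀ hne h1

/-- joint continuity -/
lemma continuous_jj : Continuous fun κ : {κ : CH μ // NT κ} => jj κ.1 κ.2 := by
  rw [continuous_iff_continuousAt]
  intro κ0
  obtain ⟨f, hf, hne⟩ := id κ0.2
  -- local version
  let U : Set {κ : CH μ // NT κ} := {κ | κ.1 (lA hf) ≠ 0}
  have hev : ∀ a : SA μ, Continuous fun κ : {κ : CH μ // NT κ} => κ.1 a := by
    intro a
    exact (ContinuousMap.continuous (gelfandTransform ℂ (SA μ) a)).comp continuous_subtype_val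
  have hU : IsOpen U := isOpen_ne_fun (hev _) continuous_const
  have hU0 : κ0 ∈ U := hne
  have h1 : Continuous fun κ : U => jj κ.1.1 κ.1.2 := by
    have h2 : Continuous (fun p : U × G => (jj p.1.1.1 p.1.1.2 p.2 : Circle)) := by
      refine Continuous.subtype_mk (f := fun p : U × G => p.1.1.1 (tA μ p.2)) ?_ _
      have h3 : (fun p : U × G => p.1.1.1 (tA μ p.2))
          = fun p : U × G => p.1.1.1 (tA μ p.2 * lA hf) / p.1.1.1 (lA hf) := by
        funext p
        rw [map_mul, mul_div_cancel_right₀ _ p.1.2]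
      rw [h3]
      refine Continuous.div ?_ ((hev _).comp (continuous_subtype_val.comp continuous_fst))
        fun p => p.1.2
      rw [continuous_iff_continuousAt]
      intro p0
      have h4 : Continuous fun p : U × G => p.1.1.1 (tA μ p0.2 * lA hf) :=
        (hev _).comp (continuous_subtype_val.comp continuous_fst)
      have h5 : Tendsto (fun p : U × G => p.1.1.1 (tA μ p.2 * lA hf) - p.1.1.1 (tA μ p0.2 * lA hf))
          (𝓝 p0) (𝓝 0) := by
        have h6 : Tendsto (fun p : U × G => ‖(tA μ p.2 * lA hf : SA μ) - tA μ p0.2 * lA hf‖)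
            (𝓝 p0) (𝓝 0) := by
          have := ((continuous_tA_mul_lA (μ := μ) hf).comp continuous_snd).tendsto (p0 : U × G)
          exact tendsto_iff_norm_sub_tendsto_zero.1 this
        refine squeeze_zero_norm (fun p => ?_) h6
        rw [← map_sub]
        exact char_norm_le _ _
      have h7 := h5.add (h4.tendsto p0)
      rw [zero_add] at h7
      refine h7.congr fun p => ?_
      ring
    exact ContinuousMonoidHom.continuous_of_continuous_uncurry _ h2
  have h8 : ContinuousOn (fun κ : {κ : CH μ // NT κ} => jj κ.1 κ.2) U :=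
    continuousOn_iff_continuous_restrict.2 h1
  exact h8.continuousAt (hU.mem_nhds hU0)

end Pool.Agent.H48.LCA
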