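import Pool.Agent.H48.LCA.Plancherel

/-!
# Convolutions along the trajectory of an endomorphism
-/

set_option autoImplicit false
set_option linter.unusedSectionVars false
set_option linter.unusedVariables false
set_option linter.deprecated false

open MeasureTheory Filter Topology
open scoped ENNReal ComplexConjugate Pointwise

namespace Pool.Agent.H48.LCA

variable {G : Type} [CommGroup G] [TopologicalSpace G] [IsTopologicalGroup G]
  [LocallyCompactSpace G] [T2Space G] [MeasurableSpace G] [BorelSpace G]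

/-- real valued, continuous, compactly supported -/
def IsC (a : G → ℝ) : Prop := Continuous a ∧ HasCompactSupport a

lemma IsC.cc {a : G → ℝ} (ha : IsC a) : IsCC (fun x => (a x : ℂ)) := isCC_ofReal ha.1 ha.2

lemma IsC.integrable {μ : Measure G} [IsFiniteMeasureOnCompacts μ] {a : G → ℝ} (ha : IsC a) :
    Integrable a μ := ha.1.integrable_of_hasCompactSupport ha.2

/-- convolution along a homomorphism -/
noncomputable def cvh (μ : Measure G) (p : G → G) (a b : G → ℝ) : G → ℝ :=
  fun x => ∫ y, a (x * (p y)⁻¹) * b y ∂μ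

variable {μ : Measure G} [μ.IsHaarMeasure] [μ.Regular]

lemma cvh_support {p : G → G} {a b : G → ℝ} {x : G}
    (h : x ∉ tsupport a * p '' (tsupport b)) : cvh μ p a b x = 0 := by
  unfold cvh
  refine integral_eq_zero_of_ae (Eventually.of_forall fun y => ?_)
  simp only [Pi.zero_apply, mul_eq_zero]
  by_contra hcon
  push Not at hcon
  apply h
  exact ⟨x * (p y)⁻¹, subset_tsupport _ hcon.1, p y, ⟨y, subset_tsupport _ hcon.2, rfl⟩, by simp⟩

lemma IsC.cvh {p : G → G} (hp : Continuous p) {a b : G → ℝ} (ha : IsC a) (hb : IsC b) :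
    IsC (LCA.cvh μ p a b) := by
  constructor
  · rw [← continuousOn_univ]
    refine continuousOn_integral_of_compact_support (k := tsupport b) hb.2 ?_ ?_
    · refine Continuous.continuousOn ?_
      exact (ha.1.comp (continuous_fst.mul (hp.comp continuous_snd).inv)).mul
        (hb.1.comp continuous_snd)
    · intro y x _ hx
      rw [image_eq_zero_of_notMem_tsupport hx, mul_zero]
  · exact HasCompactSupport.intro (ha.2.isCompact.mul (hb.2.isCompact.image hp))
      fun y hy => cvh_support hy

lemma cvh_nonneg {p : G → G} {a b : G → ℝ} (ha : ∀ x, 0 ≤ a x) (hb : ∀ x, 0 ≤ b x) (x : G) :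
    0 ≤ cvh μ p a b x := integral_nonneg fun y => mul_nonneg (ha _) (hb _)

/-- Fourier transform of a real function -/
noncomputable def fr (μ : Measure G) (a : G → ℝ) (χ : PontryaginDual G) : ℂ :=
  ft μ (fun x => (a x : ℂ)) χ

lemma fr_cvh {p : G → G} (hp : Continuous p) {a b : G → ℝ} (ha : IsC a) (hb : IsC b)
    {χ χ' : PontryaginDual G} (hχ : ∀ y, χ' y = χ (p y)) :
    fr μ (cvh μ p a b) χ = fr μ a χ * fr μ b χ' := by
  unfold fr ft cvh
  have h1 : ∀ x, ((∫ y, a (x * (p y)⁻¹) * b y ∂μ : ℝ) : ℂ) * ((χ x : Circle) : ℂ)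
      = ∫ y, ((a (x * (p y)⁻¹) : ℂ) * (b y : ℂ)) * ((χ x : Circle) : ℂ) ∂μ := by
    intro x
    rw [integral_mul_const]
    congr 1
    have h := integral_ofReal (μ := μ) (f := fun y => a (x * (p y)⁻¹) * b y) (𝕜 := ℂ)
    refine h.symm.trans ?_
    refine integral_congr_ae (Eventually.of_forall fun y => ?_)
    push_cast
    rfl
  simp only [h1]
  rw [integral_integral_swap_of_hasCompactSupport]
  · rw [← integral_const_mul]
    refine integral_congr_ae (Eventually.of_forall fun y => ?_)
    simp only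
    rw [← integral_mul_right_eq_self (fun x => ((a (x * (p y)⁻¹) : ℂ) * (b y : ℂ)) * ((χ x : Circle) : ℂ))
      (p y), ← integral_mul_const]
    refine integral_congr_ae (Eventually.of_forall fun x => ?_)
    simp only [mul_inv_cancel_right, map_mul, hχ, Circle.coe_mul]
    ring
  · change Continuous fun q : G × G =>
      ((a (q.1 * (p q.2)⁻¹) : ℂ) * (b q.2 : ℂ)) * ((χ q.1 : Circle) : ℂ)
    refine Continuous.mul (Continuous.mul ?_ ?_) ?_
    · exact Complex.continuous_ofReal.comp
        (ha.1.comp (continuous_fst.mul (hp.comp continuous_snd).inv))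
    · exact Complex.continuous_ofReal.comp (hb.1.comp continuous_snd)
    · exact continuous_subtype_val.comp ((map_continuous χ).comp continuous_fst)
  · refine hasCompactSupport_prod (K := tsupport a * p '' (tsupport b)) (L := tsupport b)
      (ha.2.isCompact.mul (hb.2.isCompact.image hp)) hb.2 fun q hq => ?_
    change ((a (q.1 * (p q.2)⁻¹) : ℂ) * (b q.2 : ℂ)) * ((χ q.1 : Circle) : ℂ) = 0
    by_cases h2 : q.2 ∈ tsupport b
    · rcases hq with hq | hq
      · have h3 : q.1 * (p q.2)⁻¹ ∉ tsupport a := by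
          intro h3
          apply hq
          exact ⟨q.1 * (p q.2)⁻¹, h3, p q.2, ⟨q.2, h2, rfl⟩, by simp⟩
        rw [image_eq_zero_of_notMem_tsupport h3]; simp
      · exact absurd h2 hq
    · rw [image_eq_zero_of_notMem_tsupport h2]; simp

/-- the sequence of convolutions along the trajectory -/
noncomputable def sq (μ : Measure G) (φ : G → G) (F : G → ℝ) : ℕ → G → ℝ
  | 0 => F
  | n + 1 => cvh μ (φ^[n + 1]) (sq μ φ F n) F

/-- the trajectory -/
def TT (φ : G → G) (C : Set G) (n : ℕ) : Set G := ∏ i ∈ Finset.range n, φ^[i] '' C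

lemma TT_succ (φ : G → G) (C : Set G) (n : ℕ) : TT φ C (n + 1) = TT φ C n * φ^[n] '' C :=
  Finset.prod_range_succ _ _

lemma TT_one (φ : G → G) (C : Set G) : TT φ C 1 = C := by
  rw [TT_succ]
  unfold TT
  simp

lemma isCompact_TT {φ : G → G} (hφ : Continuous φ) {C : Set G} (hC : IsCompact C) (n : ℕ) :
    IsCompact (TT φ C n) := by
  induction n with
  | zero =>
    unfold TT
    simp
  | succ n ih =>
    rw [TT_succ]
    exact ih.mul (hC.image (hφ.iterate n))

lemma TT_mono (φ : G → G) {C C' : Set G} (h : C ⊆ C') (n : ℕ) : TT φ C n ⊆ TT φ C' n := by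
  induction n with
  | zero => exact subset_rfl
  | succ n ih =>
    rw [TT_succ, TT_succ]
    exact Set.mul_subset_mul ih (Set.image_mono h)

lemma sq_isC {φ : G → G} (hφ : Continuous φ) {F : G → ℝ} (hF : IsC F) (n : ℕ) :
    IsC (sq μ φ F n) := by
  induction n with
  | zero => exact hF
  | succ n ih => exact ih.cvh (hφ.iterate _) hF

lemma sq_nonneg' {φ : G → G} {F : G → ℝ} (hF : ∀ x, 0 ≤ F x) (n : ℕ) (x : G) :
    0 ≤ sq μ φ F n x := by
  induction n generalizing x with
  | zero => exact hF x
  | succ n ih => exact cvh_nonneg ih hF x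

lemma sq_support {φ : G → G} (hφ : Continuous φ) {F : G → ℝ} (hF : IsC F) {C : Set G}
    (hC : tsupport F ⊆ C) (hCc : IsCompact C) (n : ℕ) :
    tsupport (sq μ φ F n) ⊆ TT φ C (n + 1) := by
  induction n with
  | zero => rw [zero_add, TT_one]; exact hC
  | succ n ih =>
    rw [TT_succ]
    refine closure_minimal ?_ ?_
    · intro x hx
      by_contra hcon
      apply hx
      change cvh μ (φ^[n + 1]) (sq μ φ F n) F x = 0
      refine cvh_support fun hmem => hcon ?_
      exact Set.mul_subset_mul ih (Set.image_mono hC) hmem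
    · exact ((isCompact_TT hφ hCc (n + 1)).mul (hCc.image (hφ.iterate _))).isClosed

lemma map_iterate_apply (φ : G →ₜ* G) (n : ℕ) (χ : PontryaginDual G) (y : G) :
    ((⇑(PontryaginDual.map φ))^[n] χ) y = χ ((⇑φ)^[n] y) := by
  induction n generalizing χ with
  | zero => rfl
  | succ n ih =>
    rw [Function.iterate_succ_apply, ih, PontryaginDual.map_apply, Function.iterate_succ_apply']

lemma fr_sq (φ : G →ₜ* G) {F : G → ℝ} (hF : IsC F) (n : ℕ) (χ : PontryaginDual G) :
    fr μ (sq μ φ F n) χ
      = ∏ i ∈ Finset.range (n + 1), fr μ F ((⇑(PontryaginDual.map φ))^[i] χ) := by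
  induction n with
  | zero => simp [sq]
  | succ n ih =>
    rw [Finset.prod_range_succ, ← ih]
    exact fr_cvh ((map_continuous φ).iterate _) (sq_isC (map_continuous φ) hF n) hF
      fun y => map_iterate_apply φ (n + 1) χ y

lemma fr_one (a : G → ℝ) : fr μ a 1 = ((∫ x, a x ∂μ : ℝ) : ℂ) := by
  unfold fr ft
  refine Eq.trans ?_ integral_ofReal
  refine integral_congr_ae (Eventually.of_forall fun x => ?_)
  change (a x : ℂ) * ((1 : Circle) : ℂ) = _
  rw [Circle.coe_one, mul_one]
  rfl

lemma integral_sq (φ : G →ₜ* G) {F : G → ℝ} (hF : IsC F) (n : ℕ) :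
    ∫ x, sq μ φ F n x ∂μ = (∫ x, F x ∂μ) ^ (n + 1) := by
  have h1 := fr_sq (μ := μ) φ hF n 1
  rw [fr_one] at h1
  have h2 : ∀ i, (⇑(PontryaginDual.map φ))^[i] (1 : PontryaginDual G) = 1 := by
    intro i
    induction i with
    | zero => rfl
    | succ i ih => rw [Function.iterate_succ_apply', ih, _root_.map_one]
  simp only [h2, fr_one] at h1
  rw [Finset.prod_const, Finset.card_range] at h1
  exact_mod_cast h1

/-- the shift inequality -/
lemma sq_shift (φ : G →ₜ* G) {F F' : G → ℝ} (hF : IsC F) (hF' : IsC F')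
    (h0 : ∀ x, 0 ≤ F x) {C : Set G} (h : ∀ x, ∀ c ∈ C, F x ≤ F' (x * c)) (n : ℕ) (x : G) :
    ∀ t ∈ TT φ C (n + 1), sq μ φ F n x ≤ sq μ φ F' n (x * t) := by
  induction n generalizing x with
  | zero =>
    intro t ht
    rw [zero_add, TT_one] at ht
    exact h x t ht
  | succ n ih =>
    intro t ht
    rw [TT_succ] at ht
    obtain ⟨s, hs, _, ⟨c, hc, rfl⟩, rfl⟩ := ht
    have h0' : ∀ x, 0 ≤ F' x := by
      intro z
      have := h (z * c⁻¹) c hc
      rw [inv_mul_cancel_right] at this
      exact (h0 _).trans this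
    change ∫ y, sq μ φ F n (x * ((φ^[n + 1]) y)⁻¹) * F y ∂μ
      ≤ ∫ y, sq μ φ F' n (x * (s * (φ^[n + 1]) c) * ((φ^[n + 1]) y)⁻¹) * F' y ∂μ
    rw [← integral_mul_right_eq_self (fun y => sq μ φ F' n
      (x * (s * (φ^[n + 1]) c) * ((φ^[n + 1]) y)⁻¹) * F' y) c]
    have hcont : Continuous (φ^[n + 1]) := (map_continuous φ).iterate _
    have hmul : ∀ y z, (φ^[n + 1]) (y * z) = (φ^[n + 1]) y * (φ^[n + 1]) z := by
      intro y z
      exact iterate_map_mul φ (n + 1) y z
    refine integral_mono ?_ ?_ fun y => ?_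
    · refine Continuous.integrable_of_hasCompactSupport ?_ hF.2.mul_left
      exact ((sq_isC (map_continuous φ) hF n).1.comp (continuous_const.mul hcont.inv)).mul hF.1
    · refine Continuous.integrable_of_hasCompactSupport ?_ ?_
      · exact ((sq_isC (map_continuous φ) hF' n).1.comp
          (continuous_const.mul (hcont.comp (continuous_id.mul continuous_const)).inv)).mul
          (hF'.1.comp (continuous_id.mul continuous_const))
      · exact (hF'.2.comp_homeomorph (Homeomorph.mulRight c)).mul_left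
    · simp only
      have e1 : x * (s * (φ^[n + 1]) c) * ((φ^[n + 1]) (y * c))⁻¹ = x * ((φ^[n + 1]) y)⁻¹ * s := by
        rw [hmul, mul_inv_rev]
        have : ∀ u v w : G, x * (u * v) * (v⁻¹ * w⁻¹) = x * w⁻¹ * u := by
          intro u v w
          have h3 : x * (u * v) * (v⁻¹ * w⁻¹) = x * u * w⁻¹ := by group
          rw [h3, mul_right_comm]
        exact this _ _ _
      rw [e1]
      exact mul_le_mul (ih _ s hs) (h y c hc) (h0 y) (sq_nonneg' h0' n _)

end Pool.Agent.H48.LCA
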