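import Mathlib

/-!
# Covers of a locally compact group by translates with bounded overlap
-/

set_option autoImplicit false
set_option linter.unusedSectionVars false
set_option linter.unusedVariables false
set_option linter.deprecated false

open MeasureTheory Filter Topology
open scoped ENNReal Pointwise

namespace Pool.Agent.H48.LCA

variable {H : Type} [CommGroup H] [TopologicalSpace H] [IsTopologicalGroup H]
  [LocallyCompactSpace H] [T2Space H] [MeasurableSpace H] [BorelSpace H]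

lemma exists_cover (ν : Measure H) [ν.IsHaarMeasure] {V : Set H} (hV : IsCompact V)
    (hV1 : V ∈ 𝓝 (1 : H)) {B : Set H} (hB : IsCompact B) :
    ∃ T : Set H, (∀ x : H, ∃ t : T, (t : H)⁻¹ * x ∈ V * V⁻¹) ∧
      ∃ M : ℝ≥0∞, M ≠ ⊤ ∧ ∀ (J : Finset T), ∀ x,
        ∑ t ∈ J, Set.indicator B (fun _ => (1 : ℝ≥0∞)) ((t : H)⁻¹ * x) ≤ M := by
  classical
  have h1V : (1 : H) ∈ V := mem_of_mem_nhds hV1
  obtain ⟨T, -, hT1, hT2⟩ := Vitali.exists_disjoint_subfamily_covering_enlargement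
    (fun t : H => (fun z => t⁻¹ * z) ⁻¹' V) Set.univ (fun _ => (1 : ℝ)) 2 (by norm_num)
    (fun _ _ => zero_le_one) 1 (fun _ _ => le_rfl)
    (fun t _ => ⟨t, by simpa using h1V⟩)
  refine ⟨T, fun x => ?_, ν (B⁻¹ * V) / ν V, ?_, fun J x => ?_⟩
  · obtain ⟨t, ht, ⟨z, hz1, hz2⟩, -⟩ := hT2 x (Set.mem_univ _)
    refine ⟨⟨t, ht⟩, ?_⟩
    refine ⟨t⁻¹ * z, hz2, (x⁻¹ * z)⁻¹, Set.inv_mem_inv.2 hz1, ?_⟩
    simp only [mul_inv_rev, inv_inv]
    group
  · refine ENNReal.div_ne_top (hB.inv.mul hV).measure_lt_top.ne ?_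
    exact (MeasureTheory.Measure.measure_pos_of_mem_nhds ν hV1).ne'
  · have hVpos : ν V ≠ 0 := (MeasureTheory.Measure.measure_pos_of_mem_nhds ν hV1).ne'
    have hVfin : ν V ≠ ⊤ := hV.measure_lt_top.ne
    rw [ENNReal.le_div_iff_mul_le (Or.inl hVpos) (Or.inl hVfin)]
    set J' := J.filter fun t : T => (t : H)⁻¹ * x ∈ B with hJ'
    have h1 : ∑ t ∈ J, Set.indicator B (fun _ => (1 : ℝ≥0∞)) ((t : H)⁻¹ * x) = (J'.card : ℝ≥0∞) := by
      rw [hJ', Finset.card_filter]
      push_cast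
      refine Finset.sum_congr rfl fun t _ => ?_
      rw [Set.indicator_apply]
    rw [h1]
    have h2 : ν (⋃ t ∈ J', (fun z => (t : H)⁻¹ * z) ⁻¹' V) = J'.card * ν V := by
      rw [measure_biUnion_finset]
      · have h3 : ∀ t ∈ J', ν ((fun z => (t : H)⁻¹ * z) ⁻¹' V) = ν V :=
          fun t _ => measure_preimage_mul ν ((t : H)⁻¹) V
        rw [Finset.sum_congr rfl h3, Finset.sum_const, nsmul_eq_mul]
      · intro s hs t ht hst
        exact hT1 s.2 t.2 fun h => hst (Subtype.ext h)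
      · intro t ht
        exact (measurable_const_mul _) hV.isClosed.measurableSet
    rw [← h2]
    calc ν (⋃ t ∈ J', (fun z => (t : H)⁻¹ * z) ⁻¹' V) ≤ ν ((fun z => x⁻¹ * z) ⁻¹' (B⁻¹ * V)) := by
          refine measure_mono ?_
          intro z hz
          obtain ⟨t, ht, hz⟩ := Set.mem_iUnion₂.1 hz
          have ht' : (t : H)⁻¹ * x ∈ B := (Finset.mem_filter.1 ht).2
          refine ⟨((t : H)⁻¹ * x)⁻¹, Set.inv_mem_inv.2 ht', (t : H)⁻¹ * z, hz, ?_⟩
          simp only [mul_inv_rev, inv_inv]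
          group
      _ = ν (B⁻¹ * V) := measure_preimage_mul ν _ _

end Pool.Agent.H48.LCA
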