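import Mathlib

/-!
# Folner functions on locally compact abelian groups
-/

set_option autoImplicit false
set_option linter.unusedSectionVars false
set_option linter.unusedVariables false
set_option linter.deprecated false

open MeasureTheory Filter Topology
open scoped ENNReal Pointwise

namespace Pool.Agent.H48.LCA

lemma finset_pow_subset {G : Type} [CommGroup G] [DecidableEq G] (S : Finset G) (k : ℕ) :
    (↑S : Set G) ^ k ⊆ Set.range fun f : S → Fin (k + 1) => ∏ s : S, (s : G) ^ (f s : ℕ) := by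
  induction k with
  | zero =>
    intro x hx
    rw [pow_zero, Set.mem_one] at hx
    exact ⟨fun _ => 0, by simp [hx]⟩
  | succ k ih =>
    intro x hx
    rw [pow_succ] at hx
    obtain ⟨y, hy, s, hs, rfl⟩ := hx
    obtain ⟨f, rfl⟩ := ih hy
    refine ⟨fun t => if t = ⟨s, hs⟩ then (f t).succ else (f t).castSucc, ?_⟩
    have h1 : ∀ t : S, ((t : G) ^ ((if t = (⟨s, hs⟩ : S) then (f t).succ else (f t).castSucc : Fin (k + 2)) : ℕ))
        = (t : G) ^ (f t : ℕ) * (if t = (⟨s, hs⟩ : S) then (s : G) else 1) := by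
      intro t
      by_cases h : t = (⟨s, hs⟩ : S)
      · rw [if_pos h, if_pos h, Fin.val_succ, pow_succ, h]
      · rw [if_neg h, if_neg h, Fin.val_castSucc, mul_one]
    simp only [h1]
    rw [Finset.prod_mul_distrib, Finset.prod_ite_eq' Finset.univ (⟨s, hs⟩ : S)]
    simp

variable {G : Type} [CommGroup G] [TopologicalSpace G] [IsTopologicalGroup G]
  [LocallyCompactSpace G] [T2Space G] [MeasurableSpace G] [BorelSpace G]
variable {μ : Measure G} [μ.IsHaarMeasure]

lemma exists_growth {B : Set G} (hB : IsCompact B) (hB1 : B ∈ 𝓝 (1 : G)) :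
    ∃ d : ℕ, ∀ k : ℕ, μ (B ^ (k + 1)) ≤ ((k + 1 : ℕ) : ℝ≥0∞) ^ d * μ B := by
  classical
  obtain ⟨t, ht⟩ := compact_covered_by_mul_left_translates (hB.mul hB)
    (V := B) ⟨1, mem_interior_iff_mem_nhds.2 hB1⟩
  -- B * B ⊆ ⋃ g ∈ t, (g * ·) ⁻¹' B
  let S : Finset G := t.image fun g => g⁻¹
  have hBB : B * B ⊆ (↑S : Set G) * B := by
    intro x hx
    obtain ⟨g, hg, hgx⟩ := Set.mem_iUnion₂.1 (ht hx)
    exact ⟨g⁻¹, by simpa [S] using hg, g * x, hgx, by simp⟩
  have hpow : ∀ k : ℕ, B ^ (k + 1) ⊆ (↑S : Set G) ^ k * B := by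
    intro k
    induction k with
    | zero => simp
    | succ k ih =>
      calc B ^ (k + 1 + 1) = B ^ (k + 1) * B := pow_succ _ _
        _ ⊆ ((↑S : Set G) ^ k * B) * B := Set.mul_subset_mul_right ih
        _ = (↑S : Set G) ^ k * (B * B) := mul_assoc _ _ _
        _ ⊆ (↑S : Set G) ^ k * ((↑S : Set G) * B) := Set.mul_subset_mul_left hBB
        _ = (↑S : Set G) ^ (k + 1) * B := by rw [← mul_assoc, ← pow_succ]
  refine ⟨S.card, fun k => ?_⟩
  have h1 : B ^ (k + 1) ⊆ ⋃ f : S → Fin (k + 1), (fun x => (∏ s : S, (s : G) ^ (f s : ℕ))⁻¹ * x) ⁻¹' B := by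
    intro x hx
    obtain ⟨y, hy, b, hb, rfl⟩ := hpow k hx
    obtain ⟨f, hf⟩ := finset_pow_subset S k hy
    refine Set.mem_iUnion.2 ⟨f, ?_⟩
    change (∏ s : S, (s : G) ^ (f s : ℕ))⁻¹ * (y * b) ∈ B
    rw [← hf]
    simpa using hb
  calc μ (B ^ (k + 1)) ≤ μ (⋃ f : S → Fin (k + 1), (fun x => (∏ s : S, (s : G) ^ (f s : ℕ))⁻¹ * x) ⁻¹' B) :=
        measure_mono h1
    _ ≤ ∑ f : S → Fin (k + 1), μ ((fun x => (∏ s : S, (s : G) ^ (f s : ℕ))⁻¹ * x) ⁻¹' B) :=
        measure_iUnion_fintype_le _ _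
    _ = ∑ f : S → Fin (k + 1), μ B := by
        refine Finset.sum_congr rfl fun f _ => measure_preimage_mul μ _ B
    _ = ((k + 1 : ℕ) : ℝ≥0∞) ^ S.card * μ B := by
        rw [Finset.sum_const, Finset.card_univ, Fintype.card_fun, Fintype.card_fin,
          Fintype.card_coe, nsmul_eq_mul]
        push_cast
        rfl

omit [IsTopologicalGroup G] [LocallyCompactSpace G] [T2Space G] [MeasurableSpace G] [BorelSpace G] in
lemma isCompact_pow [IsTopologicalGroup G] {B : Set G} (hB : IsCompact B) (k : ℕ) : IsCompact (B ^ k) := by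
  induction k with
  | zero => rw [pow_zero, ← Set.singleton_one]; exact isCompact_singleton
  | succ k ih => rw [pow_succ]; exact ih.mul hB

lemma exists_slow {B : Set G} (hB : IsCompact B) (hB1 : B ∈ 𝓝 (1 : G)) {ε : ℝ} (hε : 0 < ε) :
    ∃ k : ℕ, 1 ≤ k ∧ (μ (B ^ (k + 3))).toReal ≤ (1 + ε) * (μ (B ^ k)).toReal := by
  obtain ⟨d, hd⟩ := exists_growth (μ := μ) hB hB1
  have hBc : ∀ k, IsCompact (B ^ k) := fun k => isCompact_pow hB k
  have hfin : ∀ k, μ (B ^ k) ≠ ⊤ := fun k => (hBc k).measure_lt_top.ne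
  have hone : (1 : G) ∈ B := mem_of_mem_nhds hB1
  have hBpos : 0 < (μ B).toReal := by
    refine ENNReal.toReal_pos ?_ ?_
    · exact (MeasureTheory.Measure.measure_pos_of_mem_nhds μ hB1).ne'
    · exact hB.measure_lt_top.ne
  set v : ℕ → ℝ := fun k => (μ (B ^ (3 * k + 1))).toReal with hv
  have hv0 : v 0 = (μ B).toReal := by simp [hv]
  have hvb : ∀ k, v k ≤ (3 * k + 1 : ℝ) ^ d * v 0 := by
    intro k
    have h1 := hd (3 * k)
    have h2 := ENNReal.toReal_mono (by
      refine ENNReal.mul_ne_top ?_ hB.measure_lt_top.ne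
      exact ENNReal.pow_ne_top (ENNReal.natCast_ne_top _)) h1
    rw [ENNReal.toReal_mul, ENNReal.toReal_pow, ENNReal.toReal_natCast] at h2
    rw [hv0]
    push_cast at h2
    exact h2
  by_contra hcon
  push Not at hcon
  have hgrow : ∀ k, (1 + ε) ^ k * v 0 ≤ v k := by
    intro k
    induction k with
    | zero => simp
    | succ k ih =>
      have h1 := hcon (3 * k + 1) (by omega)
      have h2 : v (k + 1) = (μ (B ^ (3 * k + 1 + 3))).toReal := by
        simp only [hv]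
        congr 3
      rw [h2, pow_succ]
      calc (1 + ε) ^ k * (1 + ε) * v 0 = (1 + ε) * ((1 + ε) ^ k * v 0) := by ring
        _ ≤ (1 + ε) * v k := mul_le_mul_of_nonneg_left ih (by linarith)
        _ ≤ _ := h1.le
  have hcontra : ∀ k : ℕ, (1 + ε) ^ k ≤ (3 * k + 1 : ℝ) ^ d := by
    intro k
    have h1 := (hgrow k).trans (hvb k)
    rw [hv0] at h1
    exact le_of_mul_le_mul_right h1 hBpos
  have h1 := tendsto_pow_const_div_const_pow_of_one_lt d (r := 1 + ε) (by linarith)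
  have h2 : Tendsto (fun n : ℕ => (4 : ℝ) ^ d * ((n : ℝ) ^ d / (1 + ε) ^ n)) atTop (𝓝 (4 ^ d * 0)) :=
    h1.const_mul _
  rw [mul_zero] at h2
  obtain ⟨n, hn1, hn2⟩ := ((h2.eventually (gt_mem_nhds one_pos)).and (eventually_ge_atTop 1)).exists
  have h3 : (3 * n + 1 : ℝ) ^ d ≤ (4 * n : ℝ) ^ d := by
    have : (1 : ℝ) ≤ n := by exact_mod_cast hn2
    exact pow_le_pow_left₀ (by positivity) (by linarith) d
  have h4 := (hcontra n).trans h3
  rw [mul_pow] at h4
  have hp : (0 : ℝ) < (1 + ε) ^ n := by positivity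
  rw [← mul_div_assoc, div_lt_one hp] at hn1
  linarith

/-- Folner functions -/
theorem exists_folner (μ : Measure G) [μ.IsHaarMeasure] {C : Set G} (hC : IsCompact C)
    {ε : ℝ} (hε : 0 < ε) :
    ∃ F F' : G → ℝ, (Continuous F ∧ HasCompactSupport F) ∧ (Continuous F' ∧ HasCompactSupport F') ∧
      (∀ x, 0 ≤ F x) ∧ (∀ x, 0 ≤ F' x) ∧ (∀ x, ∀ c ∈ C, F x ≤ F' (x * c)) ∧
      0 < ∫ x, F x ∂μ ∧ ∫ x, F' x ∂μ ≤ (1 + ε) * ∫ x, F x ∂μ := by
  obtain ⟨K, hK, hK1⟩ := exists_compact_mem_nhds (1 : G)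
  set B : Set G := C ∪ K with hBdef
  have hB : IsCompact B := hC.union hK
  have hB1 : B ∈ 𝓝 (1 : G) := mem_of_superset hK1 Set.subset_union_right
  obtain ⟨k, hk1, hk⟩ := exists_slow (μ := μ) hB hB1 hε
  have hBc : ∀ k, IsCompact (B ^ k) := fun k => isCompact_pow hB k
  have hone : (1 : G) ∈ B := mem_of_mem_nhds hB1
  have hu : ∀ j, ∃ f : C(G, ℝ), Set.EqOn f 1 (B ^ j) ∧ IsCompact (tsupport f) ∧
      tsupport f ⊆ B ^ (j + 1) ∧ ∀ x, f x ∈ Set.Icc (0 : ℝ) 1 := by
    intro j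
    have hV : IsOpen (B ^ j * interior B) := isOpen_interior.mul_left
    have hsub : B ^ j ⊆ B ^ j * interior B := by
      intro x hx
      exact ⟨x, hx, 1, mem_interior_iff_mem_nhds.2 hB1, mul_one x⟩
    obtain ⟨f, hf1, hf2, hf3, hf4⟩ := exists_continuousMap_one_of_isCompact_subset_isOpen (hBc j) hV hsub
    refine ⟨f, hf1, hf2, hf3.trans ?_, hf4⟩
    rw [pow_succ]
    exact Set.mul_subset_mul_left interior_subset
  choose u hu1 hu2 hu3 hu4 using hu
  have hind : ∀ j, ∫ x, u j x ∂μ ≤ (μ (B ^ (j + 1))).toReal := by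
    intro j
    have h1 : ∫ x, u j x ∂μ ≤ ∫ x, (B ^ (j + 1)).indicator (fun _ => (1 : ℝ)) x ∂μ := by
      refine integral_mono ((u j).continuous.integrable_of_hasCompactSupport (hu2 j)) ?_ fun x => ?_
      · exact (integrable_indicator_iff (hBc _).isClosed.measurableSet).2
          (integrableOn_const (hBc _).measure_lt_top.ne (by simp))
      · by_cases hx : x ∈ B ^ (j + 1)
        · rw [Set.indicator_of_mem hx]; exact (hu4 j x).2
        · rw [Set.indicator_of_notMem hx,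
            image_eq_zero_of_notMem_tsupport fun h => hx (hu3 j h)]
    rw [integral_indicator_const _ (hBc _).isClosed.measurableSet, smul_eq_mul, mul_one,
      measureReal_def] at h1
    exact h1
  have hind' : ∀ j, (μ (B ^ j)).toReal ≤ ∫ x, u j x ∂μ := by
    intro j
    have h1 : ∫ x, (B ^ j).indicator (fun _ => (1 : ℝ)) x ∂μ ≤ ∫ x, u j x ∂μ := by
      refine integral_mono ?_ ((u j).continuous.integrable_of_hasCompactSupport (hu2 j)) fun x => ?_
      · exact (integrable_indicator_iff (hBc _).isClosed.measurableSet).2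
          (integrableOn_const (hBc _).measure_lt_top.ne (by simp))
      · by_cases hx : x ∈ B ^ j
        · rw [Set.indicator_of_mem hx, hu1 j hx]; simp
        · rw [Set.indicator_of_notMem hx]; exact (hu4 j x).1
    rw [integral_indicator_const _ (hBc _).isClosed.measurableSet, smul_eq_mul, mul_one,
      measureReal_def] at h1
    exact h1
  have hpos : 0 < (μ (B ^ k)).toReal := by
    refine ENNReal.toReal_pos ?_ (hBc k).measure_lt_top.ne
    have h1 : B ⊆ B ^ k := by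
      intro x hx
      obtain ⟨j, rfl⟩ : ∃ j, k = j + 1 := ⟨k - 1, by omega⟩
      rw [pow_succ]
      exact ⟨1, Set.one_mem_pow hone, x, hx, one_mul x⟩
    exact ((MeasureTheory.Measure.measure_pos_of_mem_nhds μ (mem_of_superset hB1 h1))).ne'
  refine ⟨u k, u (k + 2), ⟨(u k).continuous, hu2 k⟩, ⟨(u (k + 2)).continuous, hu2 _⟩,
    fun x => (hu4 k x).1, fun x => (hu4 _ x).1, fun x c hc => ?_, ?_, ?_⟩
  · by_cases hx : x ∈ B ^ (k + 1)
    · have h1 : x * c ∈ B ^ (k + 2) := by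
        rw [pow_succ]
        exact ⟨x, hx, c, Set.mem_union_left _ hc, rfl⟩
      rw [hu1 (k + 2) h1]
      exact (hu4 k x).2
    · rw [image_eq_zero_of_notMem_tsupport fun h => hx (hu3 k h)]
      exact (hu4 _ _).1
  · exact hpos.trans_le (hind' k)
  · calc ∫ x, u (k + 2) x ∂μ ≤ (μ (B ^ (k + 2 + 1))).toReal := hind _
      _ ≤ (1 + ε) * (μ (B ^ k)).toReal := hk
      _ ≤ _ := mul_le_mul_of_nonneg_left (hind' k) (by linarith)

end Pool.Agent.H48.LCA
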