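import Pool.Agent.H48.LCA.Ineq
import Pool.Agent.H48.LCA.Folner

/-!
# First direction: the algebraic entropy is at most the topological entropy of the dual
-/

set_option autoImplicit false
set_option linter.unusedSectionVars false
set_option linter.unusedVariables false
set_option linter.deprecated false

open MeasureTheory Filter Topology
open scoped ENNReal ComplexConjugate Pointwise

namespace Pool.Agent.H48.LCA

variable {G : Type} [CommGroup G] [TopologicalSpace G] [IsTopologicalGroup G]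
  [LocallyCompactSpace G] [T2Space G] [MeasurableSpace G] [BorelSpace G]
variable [MeasurableSpace (PontryaginDual G)] [BorelSpace (PontryaginDual G)]

theorem dir_one (μ : Measure G) [μ.IsHaarMeasure] [μ.Regular]
    (ν : Measure (PontryaginDual G)) [ν.IsHaarMeasure] [ν.Regular]
    (φ : G →ₜ* G) {K : Set G} (hK : IsCompact K) {r : ℝ} (hr : 1 < r) :
    ∃ U : Set (PontryaginDual G), IsCompact U ∧ U ∈ 𝓝 (1 : PontryaginDual G) ∧
      ∃ D : ℝ, 0 < D ∧ ∀ n, ν (UU φ U (n + 1)) * μ (TT φ K (n + 1))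
        ≤ ENNReal.ofReal (D * r ^ (n + 1)) := by
  obtain ⟨c, hc, hpl⟩ := plancherel μ ν
  set ε : ℝ := (r - 1) / (1 + 2 * r) with hε
  have hden : 0 < 1 + 2 * r := by linarith
  have hε0 : 0 < ε := div_pos (by linarith) hden
  have hε1 : ε < 1 := by
    rw [hε, div_lt_one hden]; linarith
  have hεr : 1 + ε ≤ r * (1 - ε) ^ 2 := by
    have h1 : ε * (1 + 2 * r) = r - 1 := div_mul_cancel₀ _ hden.ne'
    nlinarith [sq_nonneg ε]
  obtain ⟨F, F', hF, hF', h0, h0', hsh, hI, hI'⟩ := exists_folner μ hK hε0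
  set I := ∫ x, F x ∂μ with hIdef
  set m : ℝ := (1 - ε) * I with hm
  have hm0 : 0 < m := mul_pos (by linarith) hI
  set U : Set (PontryaginDual G) := {χ | m ≤ ‖fr μ F χ‖} with hU
  have hFc : IsC F := hF
  have hUc : IsCompact U := isCompact_ft_ge hFc.cc hm0
  have hcont : Continuous fun χ => ‖fr μ F χ‖ := (continuous_ft hFc.cc).norm
  have hU1 : U ∈ 𝓝 (1 : PontryaginDual G) := by
    have h1 : m < ‖fr μ F 1‖ := by
      rw [fr_one, Complex.norm_real, Real.norm_eq_abs, abs_of_pos hI]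
      nlinarith
    filter_upwards [(hcont.tendsto 1).eventually (lt_mem_nhds h1)] with χ hχ
    exact hχ.le
  refine ⟨U, hUc, hU1, c, hc, fun n => ?_⟩
  have h1 := ineq_one (μ := μ) hc hpl φ hF hF' h0 h0' hK hsh hUc.isClosed.measurableSet hm0.le
    (fun χ hχ => hχ) n
  have hp : 0 < (m ^ 2) ^ (n + 1) := by positivity
  have h2 : c * ((∫ x, F' x ∂μ) * ∫ x, F x ∂μ) ^ (n + 1) ≤ c * r ^ (n + 1) * (m ^ 2) ^ (n + 1) := by
    rw [mul_assoc, ← mul_pow]
    refine mul_le_mul_of_nonneg_left (pow_le_pow_left₀ ?_ ?_ _) hc.le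
    · exact mul_nonneg (integral_nonneg h0') hI.le
    · calc (∫ x, F' x ∂μ) * I ≤ ((1 + ε) * I) * I := mul_le_mul_of_nonneg_right hI' hI.le
        _ = (1 + ε) * I ^ 2 := by ring
        _ ≤ (r * (1 - ε) ^ 2) * I ^ 2 := mul_le_mul_of_nonneg_right hεr (sq_nonneg _)
        _ = r * m ^ 2 := by rw [hm]; ring
  have h3 := h1.trans (ENNReal.ofReal_le_ofReal h2)
  rw [ENNReal.ofReal_mul (by positivity), mul_right_comm] at h3
  exact (ENNReal.mul_le_mul_iff_left (by simpa using hp) ENNReal.ofReal_ne_top).1 h3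

end Pool.Agent.H48.LCA
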