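import Pool.Agent.H48.LCA.Sieve

/-!
# Second direction: the topological entropy of the dual is at most the algebraic entropy
-/

set_option autoImplicit false
set_option linter.unusedSectionVars false
set_option linter.unusedVariables false
set_option linter.deprecated false

open MeasureTheory Filter Topology
open scoped ENNReal ComplexConjugate Pointwise

namespace Pool.Agent.H48.LCA

variable {G : Type} [CommGroup G] [TopologicalSpace G] [IsTopologicalGroup G]
  [LocallyCompactSpace G] [T2Space G] [MeasurableSpace G] [BorelSpace G]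
variable {μ : Measure G} [μ.IsHaarMeasure] [μ.Regular]
variable [MeasurableSpace (PontryaginDual G)] [BorelSpace (PontryaginDual G)]

lemma exists_sep' (μ : Measure G) [μ.IsHaarMeasure] [μ.Regular] {W : Set (PontryaginDual G)}
    (hW : W ∈ 𝓝 (1 : PontryaginDual G)) :
    ∃ g : G → ℝ, IsC g ∧ (∀ x, 0 ≤ g x) ∧ ∫ x, g x ∂μ = 1 ∧ (∀ χ, ‖fr μ g χ‖ ≤ 1) ∧
      ∃ q : ℝ, 0 ≤ q ∧ q < 1 ∧ ∀ χ, χ ∉ W → ‖fr μ g χ‖ ≤ q := by
  have hW' : interior W ∈ 𝓝 (1 : PontryaginDual G) := interior_mem_nhds.2 hW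
  obtain ⟨g, hg, hg0, hg1, hg2⟩ := exists_sep μ hW'
  have hle : ∀ χ, ‖fr μ g χ‖ ≤ 1 := by
    intro χ
    rw [← hg1]
    refine norm_integral_le_of_norm_le hg.integrable (Eventually.of_forall fun x => ?_)
    rw [norm_mul, Circle.norm_coe, mul_one, Complex.norm_real, Real.norm_eq_abs,
      abs_of_nonneg (hg0 x)]
  refine ⟨g, hg, hg0, hg1, hle, ?_⟩
  set X : Set (PontryaginDual G) := {χ | (1 / 2 : ℝ) ≤ ‖fr μ g χ‖} \ interior W with hX
  have hXc : IsCompact X := (isCompact_ft_ge hg.cc (by norm_num)).diff isOpen_interior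
  have hcont : Continuous fun χ => ‖fr μ g χ‖ := (continuous_ft hg.cc).norm
  rcases X.eq_empty_or_nonempty with h | h
  · refine ⟨1 / 2, by norm_num, by norm_num, fun χ hχ => ?_⟩
    by_contra hcon
    push Not at hcon
    have : χ ∈ X := ⟨hcon.le, fun h' => hχ (interior_subset h')⟩
    rw [h] at this
    exact this
  · obtain ⟨χ₀, hχ₀, hmax⟩ := hXc.exists_isMaxOn h hcont.continuousOn
    have h1 : ‖fr μ g χ₀‖ < 1 :=
      lt_of_le_of_ne (hle χ₀) fun h' => hχ₀.2 (hg2 χ₀ h')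
    refine ⟨‖fr μ g χ₀‖, norm_nonneg _, h1, fun χ hχ => ?_⟩
    by_cases h2 : (1 / 2 : ℝ) ≤ ‖fr μ g χ‖
    · exact hmax (⟨h2, fun h' => hχ (interior_subset h')⟩ : χ ∈ X)
    · push Not at h2
      exact h2.le.trans hχ₀.1

/-- domination of `|F^|^2` by an indicator and a small amalgam sum -/
lemma exists_domination (μ : Measure G) [μ.IsHaarMeasure] [μ.Regular]
    (ν : Measure (PontryaginDual G)) [ν.IsHaarMeasure] [ν.Regular]
    {W : Set (PontryaginDual G)} (hW : W ∈ 𝓝 (1 : PontryaginDual G))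
    {V : Set (PontryaginDual G)} (hV : IsCompact V) (hV1 : V ∈ 𝓝 (1 : PontryaginDual G))
    {s : ℝ≥0∞} (hs : 0 < s) :
    ∃ F : G → ℝ, IsC F ∧ ∫ x, F x ∂μ = 1 ∧
      ∃ (T : Set (PontryaginDual G)) (a : T → ℝ≥0∞), ∑' t, a t ≤ s ∧
        ∀ χ, ENNReal.ofReal (‖fr μ F χ‖ ^ 2) ≤ W.indicator (fun _ => (1 : ℝ≥0∞)) χ
          + ∑' t : T, a t * (V * V⁻¹).indicator (fun _ => (1 : ℝ≥0∞)) ((t : PontryaginDual G)⁻¹ * χ) := by
  classical
  obtain ⟨c, hc, hpl⟩ := plancherel μ ν
  obtain ⟨g, hg, hg0, hg1, hg2, q, hq0, hq1, hq⟩ := exists_sep' μ hW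
  obtain ⟨W', A, g₁, hg₁, hW'c, hA, hsieve⟩ := large_sieve (μ := μ) ν hg.cc
  have hBc : IsCompact (V * V⁻¹ * W') := (hV.mul hV.inv).mul hW'c
  obtain ⟨T, hT, M, hM, hTM⟩ := exists_cover ν hV hV1 hBc
  set B := V * V⁻¹ * W' with hB
  set h : PontryaginDual G → ℝ≥0∞ := fun η => ENNReal.ofReal (‖ft μ g₁ η‖ ^ 2) with hh
  have hhm : Measurable h :=
    (ENNReal.continuous_ofReal.comp ((continuous_ft hg₁).norm.pow 2)).measurable
  have hindm : ∀ t : PontryaginDual G, Measurable fun η : PontryaginDual G =>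
      Set.indicator B (fun _ => (1 : ℝ≥0∞)) (t⁻¹ * η) := by
    intro t
    exact (measurable_const.indicator hBc.isClosed.measurableSet).comp (measurable_const_mul t⁻¹)
  set α : T → ℝ≥0∞ := fun t =>
    ⨆ χ : {χ : PontryaginDual G // (t : PontryaginDual G)⁻¹ * χ ∈ V * V⁻¹ ∧ χ ∉ W},
      ENNReal.ofReal (‖fr μ g χ‖ ^ 2) with hα
  have hα1 : ∀ t, α t ≤ ENNReal.ofReal (q ^ 2) := by
    intro t
    refine iSup_le fun χ => ENNReal.ofReal_le_ofReal ?_
    exact pow_le_pow_left₀ (norm_nonneg _) (hq χ χ.2.2) 2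
  have hα2 : ∀ t : T, α t ≤ A * ∫⁻ η, Set.indicator B (fun _ => (1 : ℝ≥0∞))
      ((t : PontryaginDual G)⁻¹ * η) * h η ∂ν := by
    intro t
    refine iSup_le fun χ => (hsieve χ).trans ?_
    gcongr with η
    by_cases h1 : (χ : PontryaginDual G)⁻¹ * η ∈ W'
    · have h2 : (t : PontryaginDual G)⁻¹ * η ∈ B := by
        refine ⟨(t : PontryaginDual G)⁻¹ * χ, χ.2.1, (χ : PontryaginDual G)⁻¹ * η, h1, ?_⟩
        simp only
        group
      rw [Set.indicator_of_mem h1, Set.indicator_of_mem h2]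
    · rw [Set.indicator_of_notMem h1]
      exact bot_le
  set Z : ℝ≥0∞ := A * (M * ∫⁻ η, h η ∂ν) with hZ
  have hZfin : Z ≠ ⊤ := by
    refine ENNReal.mul_ne_top hA (ENNReal.mul_ne_top hM ?_)
    rw [hh, hpl g₁ hg₁]
    exact ENNReal.ofReal_ne_top
  have hαsum : ∑' t, α t ≤ Z := by
    rw [ENNReal.tsum_eq_iSup_sum]
    refine iSup_le fun J => ?_
    calc ∑ t ∈ J, α t ≤ ∑ t ∈ J, A * ∫⁻ η, Set.indicator B (fun _ => (1 : ℝ≥0∞))
            ((t : PontryaginDual G)⁻¹ * η) * h η ∂ν := Finset.sum_le_sum fun t _ => hα2 t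
      _ = A * ∫⁻ η, ∑ t ∈ J, Set.indicator B (fun _ => (1 : ℝ≥0∞))
            ((t : PontryaginDual G)⁻¹ * η) * h η ∂ν := by
          rw [← Finset.mul_sum, lintegral_finset_sum]
          intro t _
          exact (hindm t).mul hhm
      _ ≤ A * ∫⁻ η, M * h η ∂ν := by
          gcongr with η
          rw [← Finset.sum_mul]
          exact mul_le_mul_left (hTM J η) (h η)
      _ = Z := by rw [lintegral_const_mul _ hhm]
  -- choice of the exponent
  obtain ⟨m, hm⟩ : ∃ m : ℕ, Z * (ENNReal.ofReal (q ^ 2)) ^ m < s := by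
    have h1 : ENNReal.ofReal (q ^ 2) < 1 := by
      rw [← ENNReal.ofReal_one]
      refine (ENNReal.ofReal_lt_ofReal_iff one_pos).2 ?_
      nlinarith
    have h2 := ENNReal.tendsto_pow_atTop_nhds_zero_of_lt_one h1
    have h3 := ENNReal.Tendsto.const_mul (a := Z) h2 (Or.inr hZfin)
    rw [mul_zero] at h3
    exact (h3.eventually (gt_mem_nhds hs)).exists
  set F : G → ℝ := sq μ (⇑(ContinuousMonoidHom.id G)) g m with hF
  have hFC : IsC F := sq_isC (map_continuous _) hg m
  have hid : ∀ (i : ℕ) (χ : PontryaginDual G),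
      (⇑(PontryaginDual.map (ContinuousMonoidHom.id G)))^[i] χ = χ := by
    intro i χ
    have h1 : ∀ χ : PontryaginDual G, PontryaginDual.map (ContinuousMonoidHom.id G) χ = χ := by
      intro χ
      refine DFunLike.ext _ _ fun x => ?_
      rfl
    induction i with
    | zero => rfl
    | succ i ih => rw [Function.iterate_succ_apply', ih, h1]
  have hFfr : ∀ χ, fr μ F χ = (fr μ g χ) ^ (m + 1) := by
    intro χ
    rw [hF, fr_sq (ContinuousMonoidHom.id G) hg m χ]
    simp only [hid, Finset.prod_const, Finset.card_range]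
  have hF1 : ∫ x, F x ∂μ = 1 := by
    rw [hF, integral_sq (ContinuousMonoidHom.id G) hg m, hg1, one_pow]
  refine ⟨F, hFC, hF1, T, fun t => α t ^ (m + 1), ?_, fun χ => ?_⟩
  · calc ∑' t, α t ^ (m + 1) ≤ ∑' t, α t * (ENNReal.ofReal (q ^ 2)) ^ m := by
          refine ENNReal.tsum_le_tsum fun t => ?_
          rw [pow_succ, mul_comm]
          gcongr
          exact hα1 t
      _ = (∑' t, α t) * (ENNReal.ofReal (q ^ 2)) ^ m := ENNReal.tsum_mul_right
      _ ≤ Z * (ENNReal.ofReal (q ^ 2)) ^ m := by gcongr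
      _ ≤ s := hm.le
  · have e1 : ENNReal.ofReal (‖fr μ F χ‖ ^ 2) = (ENNReal.ofReal (‖fr μ g χ‖ ^ 2)) ^ (m + 1) := by
      rw [hFfr χ, norm_pow, ← pow_mul, mul_comm, pow_mul, ENNReal.ofReal_pow (by positivity)]
    rw [e1]
    by_cases hχ : χ ∈ W
    · rw [Set.indicator_of_mem hχ]
      refine le_trans ?_ (le_add_of_nonneg_right bot_le)
      refine pow_le_one₀ bot_le ?_
      rw [← ENNReal.ofReal_one]
      refine ENNReal.ofReal_le_ofReal ?_
      exact pow_le_one₀ (norm_nonneg _) (hg2 χ)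
    · rw [Set.indicator_of_notMem hχ, zero_add]
      obtain ⟨t, ht⟩ := hT χ
      refine le_trans ?_ (ENNReal.le_tsum t)
      rw [Set.indicator_of_mem ht, mul_one]
      exact pow_le_pow_left' (le_iSup (fun χ : {χ : PontryaginDual G //
        (t : PontryaginDual G)⁻¹ * χ ∈ V * V⁻¹ ∧ χ ∉ W} =>
        ENNReal.ofReal (‖fr μ g χ‖ ^ 2)) ⟨χ, ht, hχ⟩) (m + 1)

/-- a measurable set which is small of order `U` -/
def Small (U E : Set (PontryaginDual G)) : Prop :=
  MeasurableSet E ∧ ∀ x ∈ E, ∀ y ∈ E, y⁻¹ * x ∈ U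

omit [MeasurableSpace G] [BorelSpace G] in
lemma map_iterate_mul (φ : G →ₜ* G) (i : ℕ) (χ χ' : PontryaginDual G) :
    (⇑(PontryaginDual.map φ))^[i] (χ * χ')
      = (⇑(PontryaginDual.map φ))^[i] χ * (⇑(PontryaginDual.map φ))^[i] χ' :=
  iterate_map_mul (PontryaginDual.map φ) i χ χ'

omit [MeasurableSpace G] [BorelSpace G] in
lemma map_iterate_inv (φ : G →ₜ* G) (i : ℕ) (χ : PontryaginDual G) :
    (⇑(PontryaginDual.map φ))^[i] χ⁻¹ = ((⇑(PontryaginDual.map φ))^[i] χ)⁻¹ :=
  iterate_map_inv (PontryaginDual.map φ) i χ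

omit [MeasurableSpace G] [BorelSpace G] in
lemma measure_cells_le (ν : Measure (PontryaginDual G)) [ν.IsHaarMeasure] (φ : G →ₜ* G)
    {U : Set (PontryaginDual G)} (n : ℕ) (E : ℕ → Set (PontryaginDual G))
    (hE : ∀ i, Small U (E i)) :
    ν (⋂ i ∈ Finset.range n, (⇑(PontryaginDual.map φ))^[i] ⁻¹' E i) ≤ ν (UU φ U n) := by
  set X := ⋂ i ∈ Finset.range n, (⇑(PontryaginDual.map φ))^[i] ⁻¹' E i with hX
  rcases X.eq_empty_or_nonempty with h | ⟨χ₀, h₀⟩
  · rw [h, measure_empty]; exact bot_le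
  · calc ν X ≤ ν ((fun χ => χ₀⁻¹ * χ) ⁻¹' UU φ U n) := by
          refine measure_mono fun χ hχ => ?_
          change χ₀⁻¹ * χ ∈ UU φ U n
          refine Set.mem_iInter₂.2 fun i hi => ?_
          change (⇑(PontryaginDual.map φ))^[i] (χ₀⁻¹ * χ) ∈ U
          rw [map_iterate_mul, map_iterate_inv]
          exact (hE i).2 _ (Set.mem_iInter₂.1 hχ i hi) _ (Set.mem_iInter₂.1 h₀ i hi)
      _ = ν (UU φ U n) := measure_preimage_mul ν _ _

omit [MeasurableSpace G] [BorelSpace G] in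
lemma lintegral_cells_le {ι : Type} [Countable ι] (ν : Measure (PontryaginDual G))
    (φ : G →ₜ* G) {U : Set (PontryaginDual G)} {b : PontryaginDual G → ℝ≥0∞} (hb : Measurable b)
    {E₀ : Set (PontryaginDual G)} (hE₀ : Small U E₀) {E : ι → Set (PontryaginDual G)}
    (hE : ∀ k, Small U (E k)) (a : ι → ℝ≥0∞)
    (hdom : ∀ χ, b χ ≤ E₀.indicator (fun _ => (1 : ℝ≥0∞)) χ
      + ∑' k, a k * (E k).indicator (fun _ => (1 : ℝ≥0∞)) χ) :
    ∀ (j : ℕ) (S : Set (PontryaginDual G)) (hS : MeasurableSet S) (M : ℝ≥0∞),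
      (∀ D : ℕ → Set (PontryaginDual G), (∀ i, Small U (D i)) →
        ν (S ∩ ⋂ i ∈ Finset.range j, (⇑(PontryaginDual.map φ))^[i] ⁻¹' D i) ≤ M) →
      ∫⁻ χ in S, ∏ i ∈ Finset.range j, b ((⇑(PontryaginDual.map φ))^[i] χ) ∂ν
        ≤ (1 + ∑' k, a k) ^ j * M := by
  intro j
  induction j with
  | zero =>
    intro S hS M hM
    have h1 := hM (fun _ => ∅) (fun _ => ⟨MeasurableSet.empty, fun x hx => absurd hx (by simp)⟩)
    simpa using h1
  | succ j ih =>
    intro S hS M hM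
    set ψ : PontryaginDual G → PontryaginDual G := (⇑(PontryaginDual.map φ))^[j] with hψ
    have hψm : Measurable ψ := (continuous_map_iterate φ j).measurable
    set P : PontryaginDual G → ℝ≥0∞ := fun χ =>
      ∏ i ∈ Finset.range j, b ((⇑(PontryaginDual.map φ))^[i] χ) with hP
    have hPm : Measurable P :=
      Finset.measurable_fun_prod _ fun i _ => hb.comp (continuous_map_iterate φ i).measurable
    have hcell : ∀ D' : Set (PontryaginDual G), Small U D' →
        ∫⁻ χ in S, P χ * D'.indicator (fun _ => (1 : ℝ≥0∞)) (ψ χ) ∂ν ≤ (1 + ∑' k, a k) ^ j * M := by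
      intro D' hD'
      have hm' : MeasurableSet (ψ ⁻¹' D') := hψm hD'.1
      have e1 : ∫⁻ χ in S, P χ * D'.indicator (fun _ => (1 : ℝ≥0∞)) (ψ χ) ∂ν
          = ∫⁻ χ in S ∩ ψ ⁻¹' D', P χ ∂ν := by
        have e2 : ∀ χ, P χ * D'.indicator (fun _ => (1 : ℝ≥0∞)) (ψ χ) = (ψ ⁻¹' D').indicator P χ := by
          intro χ
          by_cases h : ψ χ ∈ D'
          · rw [Set.indicator_of_mem h, mul_one, Set.indicator_of_mem (show χ ∈ ψ ⁻¹' D' from h)]
          · rw [Set.indicator_of_notMem h, mul_zero,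
              Set.indicator_of_notMem (show χ ∉ ψ ⁻¹' D' from h)]
        simp only [e2]
        rw [lintegral_indicator hm', Measure.restrict_restrict hm', Set.inter_comm]
      rw [e1]
      refine ih _ (hS.inter hm') M fun D hD => ?_
      refine le_trans (measure_mono ?_) (hM (Function.update D j D') fun i => ?_)
      · rintro χ ⟨⟨h1, h2⟩, h3⟩
        refine ⟨h1, Set.mem_iInter₂.2 fun i hi => ?_⟩
        by_cases hij : i = j
        · subst hij
          simp only [Set.mem_preimage, Function.update_self]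
          exact h2
        · have hi' : i ∈ Finset.range j := by
            rw [Finset.mem_range] at hi ⊢
            omega
          simp only [Set.mem_preimage, Function.update_of_ne hij]
          exact Set.mem_iInter₂.1 h3 i hi'
      · by_cases hij : i = j
        · subst hij
          rw [Function.update_self]; exact hD'
        · rw [Function.update_of_ne hij]; exact hD i
    calc ∫⁻ χ in S, ∏ i ∈ Finset.range (j + 1), b ((⇑(PontryaginDual.map φ))^[i] χ) ∂ν
        ≤ ∫⁻ χ in S, (P χ * E₀.indicator (fun _ => (1 : ℝ≥0∞)) (ψ χ)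
            + ∑' k, a k * (P χ * (E k).indicator (fun _ => (1 : ℝ≥0∞)) (ψ χ))) ∂ν := by
          refine lintegral_mono fun χ => ?_
          rw [Finset.prod_range_succ]
          refine (mul_le_mul_right (hdom (ψ χ)) (P χ)).trans (le_of_eq ?_)
          rw [mul_add, ← ENNReal.tsum_mul_left]
          congr 1
          refine tsum_congr fun k => ?_
          ring
      _ = ∫⁻ χ in S, P χ * E₀.indicator (fun _ => (1 : ℝ≥0∞)) (ψ χ) ∂ν
            + ∑' k, a k * ∫⁻ χ in S, P χ * (E k).indicator (fun _ => (1 : ℝ≥0∞)) (ψ χ) ∂ν := by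
          rw [lintegral_add_left]
          · congr 1
            rw [lintegral_tsum]
            · refine tsum_congr fun k => ?_
              rw [lintegral_const_mul]
              exact hPm.mul ((measurable_const.indicator (hE k).1).comp hψm)
            · intro k
              exact ((hPm.mul ((measurable_const.indicator (hE k).1).comp hψm)).const_mul
                _).aemeasurable
          · exact hPm.mul ((measurable_const.indicator hE₀.1).comp hψm)
      _ ≤ (1 + ∑' k, a k) ^ j * M + ∑' k, a k * ((1 + ∑' k, a k) ^ j * M) := by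
          gcongr with k
          · exact hcell E₀ hE₀
          · exact hcell (E k) (hE k)
      _ = (1 + ∑' k, a k) ^ (j + 1) * M := by
          rw [ENNReal.tsum_mul_right]
          ring

theorem dir_two (μ : Measure G) [μ.IsHaarMeasure] [μ.Regular]
    (ν : Measure (PontryaginDual G)) [ν.IsHaarMeasure] [ν.Regular]
    (φ : G →ₜ* G) {U : Set (PontryaginDual G)} (hU : U ∈ 𝓝 (1 : PontryaginDual G)) {r : ℝ}
    (hr : 1 < r) :
    ∃ K : Set G, IsCompact K ∧ K ∈ 𝓝 (1 : G) ∧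
      ∃ D : ℝ, 0 < D ∧ ∀ n, ENNReal.ofReal D
        ≤ μ (TT φ K (n + 1)) * (ENNReal.ofReal (r ^ (n + 1)) * ν (UU φ U (n + 1))) := by
  obtain ⟨c, hc, hpl⟩ := plancherel μ ν
  obtain ⟨V', hV', hV'U⟩ := exists_nhds_one_split4 hU
  have hsym : V' ∩ V'⁻¹ ∈ 𝓝 (1 : PontryaginDual G) :=
    inter_mem hV' (inv_mem_nhds_one _ hV')
  obtain ⟨V, hV1, hVsub, hVc⟩ := local_compact_nhds hsym
  have hone : (1 : PontryaginDual G) ∈ V := mem_of_mem_nhds hV1
  have hVV : V * V⁻¹ ∈ 𝓝 (1 : PontryaginDual G) :=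
    mem_of_superset hV1 fun x hx => ⟨x, hx, 1, by simpa using hone, mul_one x⟩
  have hVVc : IsCompact (V * V⁻¹) := hVc.mul hVc.inv
  have hVVm : MeasurableSet (V * V⁻¹) := hVVc.isClosed.measurableSet
  have hsmall : ∀ x ∈ V * V⁻¹, ∀ y ∈ V * V⁻¹, y⁻¹ * x ∈ U := by
    rintro _ ⟨a, ha, b, hb, rfl⟩ _ ⟨a', ha', b', hb', rfl⟩
    have h1 : (a' * b')⁻¹ * (a * b) = b'⁻¹ * a'⁻¹ * a * b := by group
    simp only
    rw [h1]
    have hb1 : b ∈ V' := by
      have := (hVsub (Set.mem_inv.1 hb)).2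
      simpa using this
    have hb2 : b'⁻¹ ∈ V' := (hVsub (Set.mem_inv.1 hb')).1
    have ha2 : a'⁻¹ ∈ V' := (hVsub ha').2
    exact hV'U hb2 ha2 (hVsub ha).1 hb1
  have hs : (0 : ℝ≥0∞) < ENNReal.ofReal (r - 1) := by simpa using hr
  obtain ⟨F, hF, hF1, T, a, ha, hdom⟩ := exists_domination μ ν hVV hVc hV1 hs
  have hafin : ∑' t, a t ≠ ⊤ := (ha.trans_lt ENNReal.ofReal_lt_top).ne
  have hcount : (Function.support a).Countable := Summable.countable_support_ennreal hafin
  have : Countable (Function.support a) := hcount.to_subtype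
  obtain ⟨K₀, hK₀, hK₀1⟩ := exists_compact_mem_nhds (1 : G)
  refine ⟨tsupport F ∪ K₀, hF.2.isCompact.union hK₀, mem_of_superset hK₀1 Set.subset_union_right,
    c, hc, fun n => ?_⟩
  have h1 := ineq_two (μ := μ) hc hpl φ hF hF1 (hF.2.isCompact.union hK₀)
    Set.subset_union_left n
  refine h1.trans ?_
  gcongr
  set E : Function.support a → Set (PontryaginDual G) := fun t =>
    (fun χ => ((t : T) : PontryaginDual G)⁻¹ * χ) ⁻¹' (V * V⁻¹) with hEdef
  have hEs : ∀ k, Small U (E k) := by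
    intro k
    refine ⟨(measurable_const_mul _) hVVm, fun x hx y hy => ?_⟩
    have := hsmall _ hx _ hy
    have e : (((k : T) : PontryaginDual G)⁻¹ * y)⁻¹ * (((k : T) : PontryaginDual G)⁻¹ * x) = y⁻¹ * x := by
      group
    rwa [e] at this
  have hsum : ∑' k : Function.support a, a k = ∑' t, a t := tsum_subtype_support a
  have hdom' : ∀ χ, ENNReal.ofReal (‖fr μ F χ‖ ^ 2) ≤ (V * V⁻¹).indicator (fun _ => (1 : ℝ≥0∞)) χ
      + ∑' k : Function.support a, a k * (E k).indicator (fun _ => (1 : ℝ≥0∞)) χ := by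
    intro χ
    refine (hdom χ).trans (le_of_eq ?_)
    congr 1
    have h2 : Function.support (fun t : T => a t * (V * V⁻¹).indicator (fun _ => (1 : ℝ≥0∞))
        ((t : PontryaginDual G)⁻¹ * χ)) ⊆ Function.support a :=
      Function.support_mul_subset_left _ _
    rw [← tsum_subtype_eq_of_support_subset h2]
    rfl
  have hbm : Measurable fun χ => ENNReal.ofReal (‖fr μ F χ‖ ^ 2) :=
    (ENNReal.continuous_ofReal.comp ((continuous_ft hF.cc).norm.pow 2)).measurable
  have h3 := lintegral_cells_le ν φ (U := U) hbm ⟨hVVm, hsmall⟩ hEs (fun k => a k) hdom' (n + 1)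
    Set.univ MeasurableSet.univ (ν (UU φ U (n + 1))) (fun D hD => by
      rw [Set.univ_inter]
      exact measure_cells_le ν φ (n + 1) D hD)
  rw [Measure.restrict_univ] at h3
  refine h3.trans ?_
  rw [hsum]
  gcongr
  rw [ENNReal.ofReal_pow (by linarith)]
  gcongr
  calc 1 + ∑' t, a t ≤ ENNReal.ofReal 1 + ENNReal.ofReal (r - 1) := by
        rw [ENNReal.ofReal_one]; gcongr
    _ = ENNReal.ofReal r := by
        rw [← ENNReal.ofReal_add zero_le_one (by linarith)]
        congr 1; ring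

end Pool.Agent.H48.LCA
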