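import Pool.Agent.H48.LCA.Chars

/-!
# Functional calculus
-/

set_option autoImplicit false
set_option linter.unusedSectionVars false
set_option linter.unusedVariables false
set_option linter.deprecated false

open MeasureTheory Filter Topology WeakDual
open scoped ENNReal ComplexConjugate Pointwise

namespace Pool.Agent.H48.LCA

variable {G : Type} [CommGroup G] [TopologicalSpace G] [IsTopologicalGroup G]
  [LocallyCompactSpace G] [T2Space G] [MeasurableSpace G] [BorelSpace G]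
variable {μ : Measure G} [μ.IsHaarMeasure] [μ.Regular]

lemma continuous_pd_eval : Continuous fun p : PontryaginDual G × G => ((p.1 p.2 : Circle) : ℂ) := by
  have h1 : Continuous fun p : (G →ₜ* Circle) × G => p.1 p.2 := continuous_eval
  exact continuous_subtype_val.comp h1

lemma continuous_ft {f : G → ℂ} (hf : IsCC f) : Continuous (ft μ f) := by
  rw [← continuousOn_univ]
  refine continuousOn_integral_of_compact_support (k := tsupport f) hf.2 ?_ ?_
  · refine Continuous.continuousOn ?_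
    exact (hf.1.comp continuous_snd).mul continuous_pd_eval
  · intro y x _ hx
    rw [image_eq_zero_of_notMem_tsupport hx, zero_mul]

/-- bump functions -/
lemma exists_bump (μ : Measure G) [μ.IsHaarMeasure] {O : Set G} (hO : O ∈ 𝓝 (1 : G)) :
    ∃ u : G → ℝ, Continuous u ∧ HasCompactSupport u ∧ (∀ x, 0 ≤ u x) ∧ tsupport u ⊆ O ∧
      ∫ x, u x ∂μ = 1 := by
  obtain ⟨U, hU1, hU2, hU3⟩ := mem_nhds_iff.1 hO
  obtain ⟨f, hf1, hf2, hf3, hf4⟩ := exists_continuousMap_one_of_isCompact_subset_isOpen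
    (isCompact_singleton (x := (1 : G))) hU2 (by simpa using hU3)
  have hpos : 0 < ∫ x, f x ∂μ := by
    refine f.continuous.integral_pos_of_hasCompactSupport_nonneg_nonzero hf2
      (fun x => (hf4 x).1) (x := 1) ?_
    rw [hf1 (Set.mem_singleton _)]; simp
  refine ⟨fun x => (∫ y, f y ∂μ)⁻¹ * f x, continuous_const.mul f.continuous,
    HasCompactSupport.mul_left hf2, fun x => mul_nonneg (inv_nonneg.2 hpos.le) (hf4 x).1, ?_, ?_⟩
  · refine (tsupport_mul_subset_right).trans (hf3.trans hU1)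
  · rw [integral_const_mul, inv_mul_cancel₀ hpos.ne']

lemma exists_ft_ne_zero (μ : Measure G) [μ.IsHaarMeasure] (χ : PontryaginDual G) :
    ∃ f : G → ℂ, IsCC f ∧ ft μ f χ ≠ 0 := by
  obtain ⟨u, hu1, hu2, hu3, hu4, hu5⟩ := exists_bump μ (O := Set.univ) univ_mem
  refine ⟨fun x => conj ((χ x : Circle) : ℂ) * (u x : ℂ), ⟨?_, ?_⟩, ?_⟩
  · have h1 : Continuous fun x => ((χ x : Circle) : ℂ) :=
      continuous_subtype_val.comp (map_continuous χ)
    exact (Complex.continuous_conj.comp h1).mul (Complex.continuous_ofReal.comp hu1)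
  · exact HasCompactSupport.mul_left (hu2.comp_left Complex.ofReal_zero)
  · have h2 : ft μ (fun x => conj ((χ x : Circle) : ℂ) * (u x : ℂ)) χ = ((∫ x, u x ∂μ : ℝ) : ℂ) := by
      refine Eq.trans ?_ integral_ofReal
      refine integral_congr_ae (Eventually.of_forall fun x => ?_)
      have h3 : conj ((χ x : Circle) : ℂ) * ((χ x : Circle) : ℂ) = 1 := by
        rw [mul_comm, Complex.mul_conj, Complex.normSq_eq_norm_sq, Circle.norm_coe]; simp
      simp only
      linear_combination (u x : ℂ) * h3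
    rw [h2, hu5]; simp

lemma isOpen_NT : IsOpen {κ : CH μ | NT κ} := by
  have h1 : {κ : CH μ | NT κ} = ⋃ (f : {f : G → ℂ // IsCC f}), {κ : CH μ | κ (lA f.2) ≠ 0} := by
    ext κ
    simp only [Set.mem_iUnion]
    constructor
    · rintro ⟨f, hf, h⟩; exact ⟨⟨f, hf⟩, h⟩
    · rintro ⟨⟨f, hf⟩, h⟩; exact ⟨f, hf, h⟩
  rw [h1]
  refine isOpen_iUnion fun f => isOpen_ne_fun ?_ continuous_const
  exact ContinuousMap.continuous (gelfandTransform ℂ (SA μ) (lA f.2))

open Classical in
/-- lifting functions on the dual group to the Gelfand spectrum -/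
noncomputable def til (ψ : PontryaginDual G → ℝ) (κ : CH μ) : ℝ :=
  if h : NT κ then ψ (jj κ h) else 0

lemma til_NT {ψ : PontryaginDual G → ℝ} {κ : CH μ} (h : NT κ) : til ψ κ = ψ (jj κ h) := dif_pos h

lemma til_not_NT {ψ : PontryaginDual G → ℝ} {κ : CH μ} (h : ¬ NT κ) : til ψ κ = 0 := dif_neg h

/-- near a trivial character, the associated group characters leave every compact set -/
lemma eventually_not_mem_compact {K : Set (PontryaginDual G)} (hK : IsCompact K) {κ0 : CH μ}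
    (h0 : ¬ NT κ0) : ∀ᶠ κ in 𝓝 κ0, ∀ h : NT κ, jj κ h ∉ K := by
  have h1 : ∀ χ : PontryaginDual G, ∃ f : G → ℂ, IsCC f ∧ ft μ f χ ≠ 0 := exists_ft_ne_zero μ
  choose f hf hne using h1
  let U : PontryaginDual G → Set (PontryaginDual G) :=
    fun χ => {χ' | ‖ft μ (f χ) χ‖ / 2 < ‖ft μ (f χ) χ'‖}
  have hU : ∀ χ ∈ K, U χ ∈ 𝓝 χ := by
    intro χ _
    refine IsOpen.mem_nhds (isOpen_lt continuous_const (continuous_ft (hf χ)).norm) ?_
    change ‖ft μ (f χ) χ‖ / 2 < ‖ft μ (f χ) χ‖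
    have : 0 < ‖ft μ (f χ) χ‖ := norm_pos_iff.2 (hne χ)
    linarith
  obtain ⟨t, ht1, ht2⟩ := hK.elim_nhds_subcover U hU
  have h2 : ∀ χ ∈ t, ∀ᶠ κ in 𝓝 κ0, ‖κ (lA (hf χ))‖ < ‖ft μ (f χ) χ‖ / 2 := by
    intro χ _
    have h3 : Continuous fun κ : CH μ => ‖κ (lA (hf χ))‖ :=
      (ContinuousMap.continuous (gelfandTransform ℂ (SA μ) (lA (hf χ)))).norm
    have h4 : κ0 (lA (hf χ)) = 0 := by
      by_contra hcon
      exact h0 ⟨_, hf χ, hcon⟩
    have h5 : ‖κ0 (lA (hf χ))‖ < ‖ft μ (f χ) χ‖ / 2 := by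
      rw [h4, norm_zero]
      exact half_pos (norm_pos_iff.2 (hne χ))
    exact h3.continuousAt.eventually (gt_mem_nhds h5)
  have h6 : ∀ᶠ κ in 𝓝 κ0, ∀ χ ∈ t, ‖κ (lA (hf χ))‖ < ‖ft μ (f χ) χ‖ / 2 := by
    rw [Filter.eventually_all_finset]
    exact h2
  filter_upwards [h6] with κ hκ hNT hmem
  obtain ⟨χ, hχ, hχ2⟩ := Set.mem_iUnion₂.1 (ht2 hmem)
  have h7 := hκ χ hχ
  rw [char_lA hNT] at h7
  exact absurd h7 (not_lt.2 (le_of_lt hχ2))

lemma continuous_til {ψ : PontryaginDual G → ℝ} (hψ : Continuous ψ) (hψc : HasCompactSupport ψ) :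
    Continuous (til ψ : CH μ → ℝ) := by
  rw [continuous_iff_continuousAt]
  intro κ0
  by_cases h0 : NT κ0
  · have h1 : ContinuousOn (til ψ : CH μ → ℝ) {κ : CH μ | NT κ} := by
      rw [continuousOn_iff_continuous_restrict]
      have h2 : Set.domRestrict {κ : CH μ | NT κ} (til ψ : CH μ → ℝ)
          = fun κ : {κ : CH μ // NT κ} => ψ (jj κ.1 κ.2) := by
        funext κ
        exact til_NT κ.2
      rw [h2]
      exact hψ.comp continuous_jj
    exact h1.continuousAt (isOpen_NT.mem_nhds h0)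
  · have h1 : til ψ =ᶠ[𝓝 κ0] fun _ => 0 := by
      filter_upwards [eventually_not_mem_compact hψc h0] with κ hκ
      by_cases h : NT κ
      · rw [til_NT h]
        exact image_eq_zero_of_notMem_tsupport (hκ h)
      · exact til_not_NT h
    have h2 : til ψ κ0 = 0 := til_not_NT h0
    unfold ContinuousAt
    rw [h2]
    exact tendsto_const_nhds.congr' h1.symm

/-- continuous with compact support, real valued on the dual -/
def IsCR (ψ : PontryaginDual G → ℝ) : Prop := Continuous ψ ∧ HasCompactSupport ψ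

/-- the functional calculus -/
noncomputable def PP (μ : Measure G) [μ.IsHaarMeasure] [μ.Regular]
    {ψ : PontryaginDual G → ℝ} (hψ : IsCR ψ) : SA μ :=
  (gelfandStarTransform (SA μ)).symm
    ⟨fun κ => ((til ψ κ : ℝ) : ℂ), Complex.continuous_ofReal.comp (continuous_til hψ.1 hψ.2)⟩

lemma char_PP {ψ : PontryaginDual G → ℝ} (hψ : IsCR ψ) (κ : CH μ) :
    κ (PP μ hψ) = ((til ψ κ : ℝ) : ℂ) := by
  have h1 := (gelfandStarTransform (SA μ)).apply_symm_apply
    ⟨fun κ => ((til ψ κ : ℝ) : ℂ), Complex.continuous_ofReal.comp (continuous_til hψ.1 hψ.2)⟩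
  exact congrArg (fun F : C(CH μ, ℂ) => F κ) h1

lemma SA_ext {a b : SA μ} (h : ∀ κ : CH μ, κ a = κ b) : a = b := by
  apply (gelfandTransform_bijective (SA μ)).1
  ext κ
  exact h κ

end Pool.Agent.H48.LCA
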