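import Pool.Agent.H48.LCA.Conv

/-!
# The two inequalities between volumes of trajectories and cotrajectories
-/

set_option autoImplicit false
set_option linter.unusedSectionVars false
set_option linter.unusedVariables false
set_option linter.deprecated false

open MeasureTheory Filter Topology
open scoped ENNReal ComplexConjugate Pointwise

namespace Pool.Agent.H48.LCA

variable {G : Type} [CommGroup G] [TopologicalSpace G] [IsTopologicalGroup G]
  [LocallyCompactSpace G] [T2Space G] [MeasurableSpace G] [BorelSpace G]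
variable {μ : Measure G} [μ.IsHaarMeasure] [μ.Regular]
variable [MeasurableSpace (PontryaginDual G)] [BorelSpace (PontryaginDual G)]

/-- the cotrajectory on the dual -/
def UU (φ : G →ₜ* G) (U : Set (PontryaginDual G)) (n : ℕ) : Set (PontryaginDual G) :=
  ⋂ i ∈ Finset.range n, (⇑(PontryaginDual.map φ))^[i] ⁻¹' U

omit [MeasurableSpace G] [BorelSpace G] [MeasurableSpace (PontryaginDual G)]
  [BorelSpace (PontryaginDual G)] in
lemma continuous_map_iterate (φ : G →ₜ* G) (i : ℕ) :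
    Continuous ((⇑(PontryaginDual.map φ))^[i]) := (map_continuous _).iterate i

lemma measurableSet_UU (φ : G →ₜ* G) {U : Set (PontryaginDual G)} (hU : MeasurableSet U) (n : ℕ) :
    MeasurableSet (UU φ U n) :=
  Finset.measurableSet_biInter _ fun i _ => (continuous_map_iterate φ i).measurable hU

lemma sq_mul_measure_le (φ : G →ₜ* G) {F F' : G → ℝ} (hF : IsC F) (hF' : IsC F')
    (h0 : ∀ x, 0 ≤ F x) (h0' : ∀ x, 0 ≤ F' x) {C : Set G} (hC : IsCompact C)
    (h : ∀ x, ∀ c ∈ C, F x ≤ F' (x * c)) (n : ℕ) (x : G) :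
    sq μ φ F n x * (μ (TT φ C (n + 1))).toReal ≤ (∫ x, F' x ∂μ) ^ (n + 1) := by
  set T := TT φ C (n + 1) with hT
  have hTc : IsCompact T := isCompact_TT (map_continuous φ) hC _
  set S : Set G := (fun z => x⁻¹ * z) ⁻¹' T with hS
  have hSm : μ S = μ T := measure_preimage_mul μ x⁻¹ T
  have hSmeas : MeasurableSet S := (measurable_const_mul x⁻¹) hTc.isClosed.measurableSet
  have hi : Integrable (sq μ φ F' n) μ := (sq_isC (map_continuous φ) hF' n).integrable
  have h1 : ∫ z in S, sq μ φ F n x ∂μ ≤ ∫ z in S, sq μ φ F' n z ∂μ := by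
    refine setIntegral_mono_on ?_ hi.integrableOn hSmeas fun z hz => ?_
    · refine integrableOn_const ?_ ?_
      · rw [hSm]; exact hTc.measure_lt_top.ne
      · simp
    · have h2 := sq_shift (μ := μ) φ hF hF' h0 h n x (x⁻¹ * z) hz
      rwa [mul_inv_cancel_left] at h2
  have h2 : ∫ z in S, sq μ φ F' n z ∂μ ≤ ∫ z, sq μ φ F' n z ∂μ :=
    setIntegral_le_integral hi (Eventually.of_forall fun z => sq_nonneg' h0' n z)
  rw [setIntegral_const, measureReal_def, hSm, smul_eq_mul] at h1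
  rw [integral_sq φ hF' n] at h2
  linarith

/-- first inequality -/
theorem ineq_one {c : ℝ} (hc : 0 < c) {ν : Measure (PontryaginDual G)}
    (hpl : ∀ (f : G → ℂ) (_hf : IsCC f),
      ∫⁻ χ, ENNReal.ofReal (‖ft μ f χ‖ ^ 2) ∂ν = ENNReal.ofReal (c * ∫ x, ‖f x‖ ^ 2 ∂μ))
    (φ : G →ₜ* G) {F F' : G → ℝ} (hF : IsC F) (hF' : IsC F')
    (h0 : ∀ x, 0 ≤ F x) (h0' : ∀ x, 0 ≤ F' x) {C : Set G} (hC : IsCompact C)
    (h : ∀ x, ∀ c ∈ C, F x ≤ F' (x * c)) {U : Set (PontryaginDual G)} (hU : MeasurableSet U)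
    {m : ℝ} (hm : 0 ≤ m) (hm' : ∀ χ ∈ U, m ≤ ‖fr μ F χ‖) (n : ℕ) :
    ν (UU φ U (n + 1)) * ENNReal.ofReal ((m ^ 2) ^ (n + 1)) * μ (TT φ C (n + 1))
      ≤ ENNReal.ofReal (c * ((∫ x, F' x ∂μ) * ∫ x, F x ∂μ) ^ (n + 1)) := by
  set T := TT φ C (n + 1) with hT
  have hTc : IsCompact T := isCompact_TT (map_continuous φ) hC _
  have hTf : μ T ≠ ⊤ := hTc.measure_lt_top.ne
  have hsqC := sq_isC (μ := μ) (map_continuous φ) hF n
  have h1 : ν (UU φ U (n + 1)) * ENNReal.ofReal ((m ^ 2) ^ (n + 1))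
      ≤ ENNReal.ofReal (c * ∫ x, ‖(sq μ φ F n x : ℂ)‖ ^ 2 ∂μ) := by
    rw [← hpl _ hsqC.cc]
    calc ν (UU φ U (n + 1)) * ENNReal.ofReal ((m ^ 2) ^ (n + 1))
        = ∫⁻ χ in UU φ U (n + 1), ENNReal.ofReal ((m ^ 2) ^ (n + 1)) ∂ν := by
          rw [setLIntegral_const, mul_comm]
      _ ≤ ∫⁻ χ in UU φ U (n + 1), ENNReal.ofReal (‖ft μ (fun x => (sq μ φ F n x : ℂ)) χ‖ ^ 2) ∂ν := by
          refine setLIntegral_mono' (measurableSet_UU φ hU _) fun χ hχ => ?_
          refine ENNReal.ofReal_le_ofReal ?_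
          have h2 : ‖ft μ (fun x => (sq μ φ F n x : ℂ)) χ‖
              = ∏ i ∈ Finset.range (n + 1), ‖fr μ F ((⇑(PontryaginDual.map φ))^[i] χ)‖ := by
            rw [← norm_prod, ← fr_sq φ hF n χ]; rfl
          rw [h2, ← pow_mul, mul_comm, pow_mul]
          refine pow_le_pow_left₀ (pow_nonneg hm _) ?_ 2
          calc m ^ (n + 1) = ∏ i ∈ Finset.range (n + 1), m := by
                rw [Finset.prod_const, Finset.card_range]
            _ ≤ _ := Finset.prod_le_prod (fun i _ => hm) fun i hi => hm' _ (by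
                have := Set.mem_iInter₂.1 hχ i hi
                exact this)
      _ ≤ _ := setLIntegral_le_lintegral _ _
  have h3 : (∫ x, ‖(sq μ φ F n x : ℂ)‖ ^ 2 ∂μ) * (μ T).toReal
      ≤ ((∫ x, F' x ∂μ) * ∫ x, F x ∂μ) ^ (n + 1) := by
    rw [← integral_mul_const, mul_pow, ← integral_sq φ hF n, ← integral_const_mul]
    refine integral_mono_of_nonneg (Eventually.of_forall fun x => by positivity)
      (hsqC.integrable.const_mul _) (Eventually.of_forall fun x => ?_)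
    simp only
    have h4 := sq_mul_measure_le (μ := μ) φ hF hF' h0 h0' hC h n x
    have h5 := sq_nonneg' (μ := μ) (φ := φ) h0 n x
    rw [Complex.norm_real, Real.norm_eq_abs, abs_of_nonneg h5]
    calc sq μ φ F n x ^ 2 * (μ T).toReal = (sq μ φ F n x * (μ T).toReal) * sq μ φ F n x := by ring
      _ ≤ _ := mul_le_mul_of_nonneg_right h4 h5
  calc ν (UU φ U (n + 1)) * ENNReal.ofReal ((m ^ 2) ^ (n + 1)) * μ T
      ≤ ENNReal.ofReal (c * ∫ x, ‖(sq μ φ F n x : ℂ)‖ ^ 2 ∂μ) * μ T := by gcongr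
    _ = ENNReal.ofReal (c * ∫ x, ‖(sq μ φ F n x : ℂ)‖ ^ 2 ∂μ) * ENNReal.ofReal (μ T).toReal := by
        rw [ENNReal.ofReal_toReal hTf]
    _ = ENNReal.ofReal (c * (∫ x, ‖(sq μ φ F n x : ℂ)‖ ^ 2 ∂μ) * (μ T).toReal) := by
        rw [← ENNReal.ofReal_mul (mul_nonneg hc.le (integral_nonneg fun _ => by positivity))]
    _ ≤ _ := by
        refine ENNReal.ofReal_le_ofReal ?_
        rw [mul_assoc]
        exact mul_le_mul_of_nonneg_left h3 hc.le

/-- second inequality -/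
theorem ineq_two {c : ℝ} (hc : 0 < c) {ν : Measure (PontryaginDual G)}
    (hpl : ∀ (f : G → ℂ) (_hf : IsCC f),
      ∫⁻ χ, ENNReal.ofReal (‖ft μ f χ‖ ^ 2) ∂ν = ENNReal.ofReal (c * ∫ x, ‖f x‖ ^ 2 ∂μ))
    (φ : G →ₜ* G) {F : G → ℝ} (hF : IsC F) (hF1 : ∫ x, F x ∂μ = 1)
    {C : Set G} (hC : IsCompact C) (hFC : tsupport F ⊆ C) (n : ℕ) :
    ENNReal.ofReal c ≤ μ (TT φ C (n + 1)) *
      ∫⁻ χ, ∏ i ∈ Finset.range (n + 1),
        ENNReal.ofReal (‖fr μ F ((⇑(PontryaginDual.map φ))^[i] χ)‖ ^ 2) ∂ν := by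
  set T := TT φ C (n + 1) with hT
  have hTc : IsCompact T := isCompact_TT (map_continuous φ) hC _
  have hTf : μ T ≠ ⊤ := hTc.measure_lt_top.ne
  have hsqC := sq_isC (μ := μ) (map_continuous φ) hF n
  have hsupp := sq_support (μ := μ) (map_continuous φ) hF hFC hC n
  set a : G → ℝ := sq μ φ F n with ha
  have h1 : ∫⁻ χ, ∏ i ∈ Finset.range (n + 1),
        ENNReal.ofReal (‖fr μ F ((⇑(PontryaginDual.map φ))^[i] χ)‖ ^ 2) ∂ν
      = ENNReal.ofReal (c * ∫ x, a x ^ 2 ∂μ) := by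
    have h2 : ∫ x, a x ^ 2 ∂μ = ∫ x, ‖(a x : ℂ)‖ ^ 2 ∂μ := by
      refine integral_congr_ae (Eventually.of_forall fun x => ?_)
      simp only
      rw [Complex.norm_real, Real.norm_eq_abs, sq_abs]
    rw [h2, ← hpl _ hsqC.cc]
    refine lintegral_congr fun χ => ?_
    rw [← ENNReal.ofReal_prod_of_nonneg (fun i _ => by positivity), Finset.prod_pow, ← norm_prod,
      ← fr_sq φ hF n χ]
    rfl
  have hi : Integrable a μ := hsqC.integrable
  have hi2 : Integrable (fun x => a x ^ 2) μ :=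
    (hsqC.1.pow 2).integrable_of_hasCompactSupport (by
      simpa [pow_two] using! (hsqC.2.mul_left (f := a)))
  have hint : ∫ x in T, a x ∂μ = 1 := by
    rw [setIntegral_eq_integral_of_forall_compl_eq_zero, ha, integral_sq φ hF n, hF1, one_pow]
    intro x hx
    exact image_eq_zero_of_notMem_tsupport fun h => hx (hsupp h)
  have hcs : 1 ≤ (μ T).toReal * ∫ x, a x ^ 2 ∂μ := by
    have hpos : 0 < (μ T).toReal := by
      rcases lt_or_eq_of_le (ENNReal.toReal_nonneg (a := μ T)) with h | h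
      · exact h
      · exfalso
        have h3 : μ T = 0 := by
          rcases (ENNReal.toReal_eq_zero_iff _).1 h.symm with h4 | h4
          · exact h4
          · exact absurd h4 hTf
        rw [Measure.restrict_eq_zero.2 h3, integral_zero_measure] at hint
        exact zero_ne_one hint
    set M := (μ T).toReal with hM
    have h4 : 0 ≤ ∫ x in T, (a x - M⁻¹) ^ 2 ∂μ := integral_nonneg fun x => _root_.sq_nonneg _
    have hiM : IntegrableOn (fun _ : G => (M⁻¹ : ℝ) ^ 2) T μ := integrableOn_const hTf (by simp)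
    have h5 : ∫ x in T, (a x - M⁻¹) ^ 2 ∂μ
        = (∫ x in T, a x ^ 2 ∂μ) - 2 * M⁻¹ + M⁻¹ ^ 2 * M := by
      have e1 : ∀ x, (a x - M⁻¹) ^ 2 = a x ^ 2 - 2 * M⁻¹ * a x + M⁻¹ ^ 2 := fun x => by ring
      simp only [e1]
      have i1 : Integrable (fun x => 2 * M⁻¹ * a x) (μ.restrict T) := hi.restrict.const_mul _
      have i2 : Integrable (fun x => a x ^ 2 - 2 * M⁻¹ * a x) (μ.restrict T) := hi2.restrict.sub i1
      rw [integral_add i2 hiM, integral_sub hi2.restrict i1, integral_const_mul, hint,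
        setIntegral_const, measureReal_def, smul_eq_mul, ← hM]
      ring
    have h6 : ∫ x in T, a x ^ 2 ∂μ ≤ ∫ x, a x ^ 2 ∂μ :=
      setIntegral_le_integral hi2 (Eventually.of_forall fun x => _root_.sq_nonneg _)
    have h7 : M⁻¹ ^ 2 * M = M⁻¹ := by field_simp
    have h8 : M⁻¹ ≤ ∫ x, a x ^ 2 ∂μ := by linarith
    calc (1 : ℝ) = M * M⁻¹ := (mul_inv_cancel₀ hpos.ne').symm
      _ ≤ _ := mul_le_mul_of_nonneg_left h8 hpos.le
  rw [h1, ← ENNReal.ofReal_toReal hTf, ← ENNReal.ofReal_mul ENNReal.toReal_nonneg]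
  refine ENNReal.ofReal_le_ofReal ?_
  calc c = c * 1 := (mul_one c).symm
    _ ≤ c * ((μ T).toReal * ∫ x, a x ^ 2 ∂μ) := mul_le_mul_of_nonneg_left hcs hc.le
    _ = _ := by ring

end Pool.Agent.H48.LCA
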