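import Pool.Agent.H48.LCA.Dir1
import Pool.Agent.H48.LCA.Dir2

/-!
# Passing to the limit, arbitrary Haar measures
-/

set_option autoImplicit false
set_option linter.unusedSectionVars false
set_option linter.unusedVariables false
set_option linter.deprecated false

open MeasureTheory Filter Topology
open scoped ENNReal ComplexConjugate Pointwise

namespace Pool.Agent.H48.LCA

lemma limsup_real_le {a b : ℕ → ℝ} {C ρ : ℝ} (h : ∀ n, 1 ≤ n → a n ≤ C + n * ρ + b n) :
    limsup (fun n : ℕ => (((n : ℝ)⁻¹ : ℝ) : EReal) * ((a n : ℝ) : EReal)) atTop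
      ≤ limsup (fun n : ℕ => (((n : ℝ)⁻¹ : ℝ) : EReal) * ((b n : ℝ) : EReal)) atTop + (ρ : EReal) := by
  set v : ℕ → EReal := fun n : ℕ => (((n : ℝ)⁻¹ : ℝ) : EReal) * ((b n : ℝ) : EReal) with hv
  set w : ℕ → EReal := fun n : ℕ => (((n : ℝ)⁻¹ * C + ρ : ℝ) : EReal) with hw
  have hwlim : Tendsto w atTop (𝓝 (ρ : EReal)) := by
    have h1 : Tendsto (fun n : ℕ => (n : ℝ)⁻¹ * C + ρ) atTop (𝓝 (0 * C + ρ)) :=
      ((tendsto_inv_atTop_nhds_zero_nat (𝕜 := ℝ)).mul_const C).add_const ρ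
    rw [zero_mul, zero_add] at h1
    exact (continuous_coe_real_ereal.tendsto ρ).comp h1
  have hwl : limsup w atTop = (ρ : EReal) := hwlim.limsup_eq
  calc limsup (fun n : ℕ => (((n : ℝ)⁻¹ : ℝ) : EReal) * ((a n : ℝ) : EReal)) atTop
      ≤ limsup (v + w) atTop := by
        refine limsup_le_limsup ?_
        filter_upwards [eventually_ge_atTop 1] with n hn
        simp only [hv, hw, Pi.add_apply]
        rw [← EReal.coe_mul, ← EReal.coe_mul, ← EReal.coe_add]
        refine EReal.coe_le_coe_iff.2 ?_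
        have hn' : (0 : ℝ) < n := by exact_mod_cast hn
        have h1 := mul_le_mul_of_nonneg_left (h n hn) (inv_pos.2 hn').le
        have h2 : (n : ℝ)⁻¹ * (C + n * ρ + b n) = (n : ℝ)⁻¹ * b n + ((n : ℝ)⁻¹ * C + ρ) := by
          field_simp
          ring
        rw [h2] at h1
        exact h1
    _ ≤ limsup v atTop + limsup w atTop := by
        refine EReal.limsup_add_le ?_ ?_
        · right; rw [hwl]; exact EReal.coe_ne_top ρ
        · right; rw [hwl]; exact EReal.coe_ne_bot ρ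
    _ = _ := by rw [hwl]

lemma ereal_le_of_forall {A B : EReal} (h : ∀ r : ℝ, 1 < r → A ≤ B + (Real.log r : EReal)) : A ≤ B := by
  refine EReal.le_of_forall_lt_iff_le.1 fun z hz => ?_
  induction B with
  | bot => exact (h 2 (by norm_num)).trans (by simp)
  | top => exact absurd hz (by simp)
  | coe b =>
    have hz' : b < z := EReal.coe_lt_coe_iff.1 hz
    have h1 := h (Real.exp (z - b)) (Real.one_lt_exp_iff.2 (by linarith))
    rw [Real.log_exp, ← EReal.coe_add] at h1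
    have : b + (z - b) = z := by ring
    rwa [this] at h1

/-- the entropy-type limsup in terms of real numbers -/
lemma limsup_log_eq {x : ℕ → ℝ≥0∞} (hx : ∀ n, 1 ≤ n → x n ≠ 0 ∧ x n ≠ ⊤) :
    limsup (fun n : ℕ => (((n : ℝ)⁻¹ : ℝ) : EReal) * ENNReal.log (x n)) atTop
      = limsup (fun n : ℕ => (((n : ℝ)⁻¹ : ℝ) : EReal) * ((Real.log (x n).toReal : ℝ) : EReal)) atTop := by
  refine limsup_congr ?_
  filter_upwards [eventually_ge_atTop 1] with n hn
  rw [ENNReal.log_pos_real (hx n hn).1 (hx n hn).2]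

lemma limsup_neg_log_eq {x : ℕ → ℝ≥0∞} (hx : ∀ n, 1 ≤ n → x n ≠ 0 ∧ x n ≠ ⊤) :
    limsup (fun n : ℕ => (((n : ℝ)⁻¹ : ℝ) : EReal) * -ENNReal.log (x n)) atTop
      = limsup (fun n : ℕ => (((n : ℝ)⁻¹ : ℝ) : EReal) * ((-Real.log (x n).toReal : ℝ) : EReal)) atTop := by
  refine limsup_congr ?_
  filter_upwards [eventually_ge_atTop 1] with n hn
  rw [ENNReal.log_pos_real (hx n hn).1 (hx n hn).2, EReal.coe_neg]

variable {G : Type} [CommGroup G] [TopologicalSpace G] [IsTopologicalGroup G]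
  [LocallyCompactSpace G] [T2Space G] [MeasurableSpace G] [BorelSpace G]
variable [MeasurableSpace (PontryaginDual G)] [BorelSpace (PontryaginDual G)]

lemma subset_TT (φ : G →ₜ* G) {K : Set G} (h1 : (1 : G) ∈ K) (n : ℕ) : K ⊆ TT φ K (n + 1) := by
  induction n with
  | zero => rw [zero_add, TT_one]
  | succ n ih =>
    rw [TT_succ]
    refine ih.trans fun x hx => ⟨x, hx, 1, ⟨1, h1, ?_⟩, mul_one x⟩
    exact iterate_map_one φ (n + 1)

lemma TT_measure (μ : Measure G) [μ.IsHaarMeasure] (φ : G →ₜ* G) {K : Set G} (hK : IsCompact K)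
    (hK1 : K ∈ 𝓝 (1 : G)) (n : ℕ) (hn : 1 ≤ n) : μ (TT φ K n) ≠ 0 ∧ μ (TT φ K n) ≠ ⊤ := by
  obtain ⟨n, rfl⟩ : ∃ m, n = m + 1 := ⟨n - 1, by omega⟩
  refine ⟨?_, (isCompact_TT (map_continuous φ) hK _).measure_lt_top.ne⟩
  exact (MeasureTheory.Measure.measure_pos_of_mem_nhds μ
    (mem_of_superset hK1 (subset_TT φ (mem_of_mem_nhds hK1) n))).ne'

lemma isCompact_UU (φ : G →ₜ* G) {U : Set (PontryaginDual G)} (hU : IsCompact U) (n : ℕ) :
    IsCompact (UU φ U (n + 1)) := by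
  refine hU.of_isClosed_subset ?_ ?_
  · unfold UU
    exact isClosed_biInter fun i _ => hU.isClosed.preimage (continuous_map_iterate φ i)
  · intro χ hχ
    exact Set.mem_iInter₂.1 hχ 0 (Finset.mem_range.2 (Nat.succ_pos n))

lemma UU_mem_nhds (φ : G →ₜ* G) {U : Set (PontryaginDual G)} (hU : U ∈ 𝓝 (1 : PontryaginDual G))
    (n : ℕ) : UU φ U n ∈ 𝓝 (1 : PontryaginDual G) := by
  unfold UU
  refine (Filter.biInter_finset_mem _).2 fun i _ => ?_
  refine (continuous_map_iterate φ i).continuousAt.preimage_mem_nhds ?_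
  rw [iterate_map_one (PontryaginDual.map φ) i]
  exact hU

lemma UU_measure (ν : Measure (PontryaginDual G)) [ν.IsHaarMeasure] (φ : G →ₜ* G)
    {U : Set (PontryaginDual G)} (hU : IsCompact U)
    (hU1 : U ∈ 𝓝 (1 : PontryaginDual G)) (n : ℕ) (hn : 1 ≤ n) :
    ν (UU φ U n) ≠ 0 ∧ ν (UU φ U n) ≠ ⊤ := by
  obtain ⟨n, rfl⟩ : ∃ m, n = m + 1 := ⟨n - 1, by omega⟩
  refine ⟨?_, (isCompact_UU φ hU n).measure_lt_top.ne⟩
  exact (MeasureTheory.Measure.measure_pos_of_mem_nhds ν (UU_mem_nhds φ hU1 _)).ne'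

/-- comparison of an arbitrary Haar measure with a regular one on compact sets -/
lemma exists_regular {H : Type} [CommGroup H] [TopologicalSpace H] [IsTopologicalGroup H]
    [LocallyCompactSpace H] [T2Space H] [MeasurableSpace H] [BorelSpace H] (μ : Measure H)
    [μ.IsHaarMeasure] : ∃ (μ' : Measure H) (_ : μ'.IsHaarMeasure) (_ : μ'.Regular) (k : ℝ),
      0 < k ∧ ∀ S : Set H, IsCompact S → (μ S).toReal = k * (μ' S).toReal := by
  refine ⟨Measure.haar, inferInstance, inferInstance, (Measure.haarScalarFactor μ Measure.haar : ℝ),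
    ?_, fun S hS => ?_⟩
  · exact_mod_cast Measure.haarScalarFactor_pos_of_isHaarMeasure μ Measure.haar
  · rw [Measure.measure_isMulInvariant_eq_smul_of_isCompact_closure μ Measure.haar
      (by rwa [hS.isClosed.closure_eq])]
    rw [ENNReal.smul_def, smul_eq_mul, ENNReal.toReal_mul, ENNReal.coe_toReal]

theorem dir_one' (μ : Measure G) [μ.IsHaarMeasure]
    (ν : Measure (PontryaginDual G)) [ν.IsHaarMeasure]
    (φ : G →ₜ* G) {K : Set G} (hK : IsCompact K) {r : ℝ} (hr : 1 < r) :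
    ∃ U : Set (PontryaginDual G), IsCompact U ∧ U ∈ 𝓝 (1 : PontryaginDual G) ∧
      ∃ D : ℝ, 0 < D ∧ ∀ n, (ν (UU φ U (n + 1))).toReal * (μ (TT φ K (n + 1))).toReal
        ≤ D * r ^ (n + 1) := by
  obtain ⟨μ', h1, h2, k, hk, hμ⟩ := exists_regular μ
  obtain ⟨ν', h3, h4, l, hl, hν⟩ := exists_regular ν
  obtain ⟨U, hU, hU1, D, hD, h⟩ := dir_one μ' ν' φ hK hr
  refine ⟨U, hU, hU1, l * k * D, by positivity, fun n => ?_⟩
  rw [hμ _ (isCompact_TT (map_continuous φ) hK _), hν _ (isCompact_UU φ hU n)]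
  have h5 := ENNReal.toReal_mono ENNReal.ofReal_ne_top (h n)
  rw [ENNReal.toReal_mul, ENNReal.toReal_ofReal (by positivity)] at h5
  calc l * (ν' (UU φ U (n + 1))).toReal * (k * (μ' (TT φ K (n + 1))).toReal)
      = l * k * ((ν' (UU φ U (n + 1))).toReal * (μ' (TT φ K (n + 1))).toReal) := by ring
    _ ≤ l * k * (D * r ^ (n + 1)) := mul_le_mul_of_nonneg_left h5 (by positivity)
    _ = _ := by ring

theorem dir_two' (μ : Measure G) [μ.IsHaarMeasure]
    (ν : Measure (PontryaginDual G)) [ν.IsHaarMeasure]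
    (φ : G →ₜ* G) {U : Set (PontryaginDual G)} (hUc : IsCompact U)
    (hU : U ∈ 𝓝 (1 : PontryaginDual G)) {r : ℝ} (hr : 1 < r) :
    ∃ K : Set G, IsCompact K ∧ K ∈ 𝓝 (1 : G) ∧
      ∃ D : ℝ, 0 < D ∧ ∀ n, D
        ≤ (μ (TT φ K (n + 1))).toReal * (r ^ (n + 1) * (ν (UU φ U (n + 1))).toReal) := by
  obtain ⟨μ', h1, h2, k, hk, hμ⟩ := exists_regular μ
  obtain ⟨ν', h3, h4, l, hl, hν⟩ := exists_regular ν
  obtain ⟨K, hK, hK1, D, hD, h⟩ := dir_two μ' ν' φ hU hr
  refine ⟨K, hK, hK1, k * l * D, by positivity, fun n => ?_⟩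
  rw [hμ _ (isCompact_TT (map_continuous φ) hK _), hν _ (isCompact_UU φ hUc n)]
  have h5 : D ≤ (μ' (TT φ K (n + 1))).toReal * (r ^ (n + 1) * (ν' (UU φ U (n + 1))).toReal) := by
    have h6 := ENNReal.toReal_mono ?_ (h n)
    · rw [ENNReal.toReal_mul, ENNReal.toReal_mul, ENNReal.toReal_ofReal hD.le,
        ENNReal.toReal_ofReal (by positivity)] at h6
      exact h6
    · refine ENNReal.mul_ne_top (isCompact_TT (map_continuous φ) hK _).measure_lt_top.ne ?_
      exact ENNReal.mul_ne_top ENNReal.ofReal_ne_top (isCompact_UU φ hUc n).measure_lt_top.ne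
  calc k * l * D ≤ k * l * ((μ' (TT φ K (n + 1))).toReal
        * (r ^ (n + 1) * (ν' (UU φ U (n + 1))).toReal)) := mul_le_mul_of_nonneg_left h5 (by positivity)
    _ = _ := by ring

/-- **Bridge theorem**: the algebraic entropy of a continuous endomorphism of a locally compact
abelian group equals the topological entropy of its dual. -/
theorem bridge (μ : Measure G) [μ.IsHaarMeasure]
    (ν : Measure (PontryaginDual G)) [ν.IsHaarMeasure] (φ : G →ₜ* G) :
    (⨆ (K : Set G) (_ : IsCompact K ∧ K ∈ nhds (1 : G)),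
        Filter.limsup
          (fun n : ℕ => (((n : ℝ)⁻¹ : ℝ) : EReal) * ENNReal.log (μ (TT φ K n))) Filter.atTop)
    = ⨆ (U : Set (PontryaginDual G)) (_ : IsCompact U ∧ U ∈ nhds (1 : PontryaginDual G)),
        Filter.limsup
          (fun n : ℕ => (((n : ℝ)⁻¹ : ℝ) : EReal) * -ENNReal.log (ν (UU φ U n))) Filter.atTop := by
  refine le_antisymm ?_ ?_
  · refine iSup₂_le fun K hK => ereal_le_of_forall fun r hr => ?_
    obtain ⟨U, hU, hU1, D, hD, h⟩ := dir_one' μ ν φ hK.1 hr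
    refine le_trans ?_ (add_le_add_left (le_iSup₂ (f := fun (U : Set (PontryaginDual G))
      (_ : IsCompact U ∧ U ∈ nhds (1 : PontryaginDual G)) => Filter.limsup
          (fun n : ℕ => (((n : ℝ)⁻¹ : ℝ) : EReal) * -ENNReal.log (ν (UU φ U n))) Filter.atTop)
          U ⟨hU, hU1⟩) _)
    rw [limsup_log_eq (TT_measure μ φ hK.1 hK.2), limsup_neg_log_eq (UU_measure ν φ hU hU1)]
    refine limsup_real_le (C := Real.log D) fun n hn => ?_
    obtain ⟨n, rfl⟩ : ∃ m, n = m + 1 := ⟨n - 1, by omega⟩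
    have hx := TT_measure μ φ hK.1 hK.2 (n + 1) hn
    have hy := UU_measure ν φ hU hU1 (n + 1) hn
    have hx' := ENNReal.toReal_pos hx.1 hx.2
    have hy' := ENNReal.toReal_pos hy.1 hy.2
    have h1 := Real.log_le_log (mul_pos hy' hx') (h n)
    rw [Real.log_mul hy'.ne' hx'.ne', Real.log_mul hD.ne' (by positivity), Real.log_pow] at h1
    linarith
  · refine iSup₂_le fun U hU => ereal_le_of_forall fun r hr => ?_
    obtain ⟨K, hK, hK1, D, hD, h⟩ := dir_two' μ ν φ hU.1 hU.2 hr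
    refine le_trans ?_ (add_le_add_left (le_iSup₂ (f := fun (K : Set G)
      (_ : IsCompact K ∧ K ∈ nhds (1 : G)) => Filter.limsup
          (fun n : ℕ => (((n : ℝ)⁻¹ : ℝ) : EReal) * ENNReal.log (μ (TT φ K n))) Filter.atTop)
          K ⟨hK, hK1⟩) _)
    rw [limsup_log_eq (TT_measure μ φ hK hK1), limsup_neg_log_eq (UU_measure ν φ hU.1 hU.2)]
    refine limsup_real_le (C := -Real.log D) fun n hn => ?_
    obtain ⟨n, rfl⟩ : ∃ m, n = m + 1 := ⟨n - 1, by omega⟩
    have hx := TT_measure μ φ hK hK1 (n + 1) hn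
    have hy := UU_measure ν φ hU.1 hU.2 (n + 1) hn
    have hx' := ENNReal.toReal_pos hx.1 hx.2
    have hy' := ENNReal.toReal_pos hy.1 hy.2
    have h1 := Real.log_le_log hD (h n)
    rw [Real.log_mul hx'.ne' (by positivity), Real.log_mul (by positivity) hy'.ne',
      Real.log_pow] at h1
    linarith

end Pool.Agent.H48.LCA
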