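import Pool.Agent.H48.LCA.Spec

/-!
# Nondegeneracy, Riemann-Lebesgue
-/

set_option autoImplicit false
set_option linter.unusedSectionVars false
set_option linter.unusedVariables false
set_option linter.deprecated false

open MeasureTheory Filter Topology WeakDual
open scoped ENNReal ComplexConjugate Pointwise

namespace Pool.Agent.H48.LCA

variable {G : Type} [CommGroup G] [TopologicalSpace G] [IsTopologicalGroup G]
  [LocallyCompactSpace G] [T2Space G] [MeasurableSpace G] [BorelSpace G]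
variable {μ : Measure G} [μ.IsHaarMeasure] [μ.Regular]

lemma isCC_ofReal {u : G → ℝ} (h1 : Continuous u) (h2 : HasCompactSupport u) :
    IsCC (fun x => (u x : ℂ)) :=
  ⟨Complex.continuous_ofReal.comp h1, h2.comp_left Complex.ofReal_zero⟩

/-- approximate identity -/
lemma exists_approx (ξ : HH μ) {ε : ℝ} (hε : 0 < ε) :
    ∃ (k : G → ℂ) (hk : IsCC k), ‖Lop hk ξ - ξ‖ ≤ ε := by
  have h1 : {x : G | ‖tau μ x ξ - ξ‖ < ε} ∈ 𝓝 (1 : G) := by
    refine IsOpen.mem_nhds (isOpen_lt ((continuous_tau μ ξ).sub continuous_const).norm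
      continuous_const) ?_
    change ‖tau μ 1 ξ - ξ‖ < ε
    rw [tau_one, ContinuousLinearMap.one_apply, sub_self, norm_zero]
    exact hε
  obtain ⟨u, hu1, hu2, hu3, hu4, hu5⟩ := exists_bump μ h1
  have hk : IsCC (fun x => (u x : ℂ)) := isCC_ofReal hu1 hu2
  refine ⟨_, hk, ?_⟩
  have hi : Integrable (fun x => (u x : ℂ) • ξ) μ := hk.integrable.smul_const ξ
  have h2 : ξ = ∫ x, (u x : ℂ) • ξ ∂μ := by
    rw [integral_smul_const]
    have h2' : ∫ x, (u x : ℂ) ∂μ = 1 := by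
      have h := integral_ofReal (μ := μ) (f := u) (𝕜 := ℂ)
      rw [hu5] at h
      simpa using h
    rw [h2', one_smul]
  have h3 : Lop hk ξ - ξ = ∫ x, (u x : ℂ) • (tau μ x ξ - ξ) ∂μ := by
    simp only [smul_sub]
    rw [integral_sub (hk.integrand ξ) hi, ← h2]
    rfl
  rw [h3]
  refine (norm_integral_le_integral_norm _).trans ?_
  calc ∫ x, ‖(u x : ℂ) • (tau μ x ξ - ξ)‖ ∂μ ≤ ∫ x, u x * ε ∂μ := by
        refine integral_mono_of_nonneg (Eventually.of_forall fun _ => norm_nonneg _)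
          ((hu1.integrable_of_hasCompactSupport hu2).mul_const ε)
          (Eventually.of_forall fun x => ?_)
        simp only [norm_smul, Complex.norm_real, Real.norm_eq_abs, abs_of_nonneg (hu3 x)]
        by_cases hx : x ∈ tsupport u
        · exact mul_le_mul_of_nonneg_left (le_of_lt (hu4 hx)) (hu3 x)
        · rw [image_eq_zero_of_notMem_tsupport hx]; simp
    _ = ε := by rw [integral_mul_const, hu5, one_mul]

lemma exists_ne_zero_vec (μ : Measure G) [μ.IsHaarMeasure] [μ.Regular] :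
    ∃ (f : G → ℂ) (hf : IsCC f), (vec hf : HH μ) ≠ 0 := by
  obtain ⟨u, hu1, hu2, hu3, hu4, hu5⟩ := exists_bump μ (O := Set.univ) univ_mem
  have hk : IsCC (fun x => (u x : ℂ)) := isCC_ofReal hu1 hu2
  refine ⟨_, hk, fun h0 => ?_⟩
  have h1 := inner_vec (μ := μ) hk hk
  rw [h0, inner_zero_left] at h1
  have h2 : ∫ x, conj ((u x : ℂ)) * (u x : ℂ) ∂μ = ((∫ x, u x * u x ∂μ : ℝ) : ℂ) := by
    refine Eq.trans ?_ integral_ofReal
    refine integral_congr_ae (Eventually.of_forall fun x => ?_)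
    simp only [Complex.conj_ofReal]
    push_cast; rfl
  rw [h2] at h1
  have h3 : ∫ x, u x * u x ∂μ = 0 := by exact_mod_cast h1.symm
  obtain ⟨x, hx⟩ : ∃ x, u x ≠ 0 := by
    by_contra hcon
    push Not at hcon
    simp [hcon] at hu5
  have h4 : 0 < ∫ x, u x * u x ∂μ :=
    (hu1.mul hu1).integral_pos_of_hasCompactSupport_nonneg_nonzero hu2.mul_left
      (fun y => mul_self_nonneg _) (x := x) (mul_self_ne_zero.2 hx)
  exact h4.ne' h3

lemma exists_NT (μ : Measure G) [μ.IsHaarMeasure] [μ.Regular] : ∃ κ : CH μ, NT κ := by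
  by_contra hcon
  push Not at hcon
  obtain ⟨f, hf, hne⟩ := exists_ne_zero_vec μ
  have hpos : 0 < ‖(vec hf : HH μ)‖ := norm_pos_iff.2 hne
  obtain ⟨k, hk, hk2⟩ := exists_approx (vec hf : HH μ) (half_pos hpos)
  have h1 : (lA hk : SA μ) = 0 := by
    refine SA_ext fun κ => ?_
    rw [map_zero]
    by_contra h
    exact hcon κ ⟨k, hk, h⟩
  have h2 : (Lop hk : HH μ →L[ℂ] HH μ) = 0 := congrArg Subtype.val h1
  rw [h2] at hk2
  simp only [ContinuousLinearMap.zero_apply, zero_sub, norm_neg] at hk2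
  linarith

/-- every character of the group comes from the spectrum -/
lemma exists_jj (μ : Measure G) [μ.IsHaarMeasure] [μ.Regular] (χ : PontryaginDual G) :
    ∃ (κ : CH μ) (h : NT κ), jj κ h = χ := by
  obtain ⟨κ, hκ⟩ := exists_NT μ
  refine ⟨act (χ * (jj κ hκ)⁻¹) κ, (NT_act _).2 hκ, ?_⟩
  rw [jj_act _ hκ]
  exact inv_mul_cancel_right _ _

lemma isCompact_jj_image {f : G → ℂ} (hf : IsCC f) {ε : ℝ} (hε : 0 < ε) :
    IsCompact ((fun κ : {κ : CH μ // NT κ} => jj κ.1 κ.2) '' {κ | ε ≤ ‖κ.1 (lA hf)‖}) := by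
  refine IsCompact.image ?_ continuous_jj
  have h1 : {κ : {κ : CH μ // NT κ} | ε ≤ ‖κ.1 (lA hf)‖}
      = Subtype.val ⁻¹' {κ : CH μ | ε ≤ ‖κ (lA hf)‖} := rfl
  rw [h1]
  refine (IsInducing.subtypeVal.isCompact_preimage_iff ?_).2 ?_
  · intro κ hκ
    have hκ' : ε ≤ ‖κ (lA hf)‖ := hκ
    have h2 : NT κ := ⟨f, hf, fun h0 => by
      rw [h0, norm_zero] at hκ'
      linarith⟩
    exact ⟨⟨κ, h2⟩, rfl⟩
  · refine IsClosed.isCompact ?_
    exact isClosed_le continuous_const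
      (ContinuousMap.continuous (gelfandTransform ℂ (SA μ) (lA hf))).norm

/-- Riemann-Lebesgue lemma -/
lemma isCompact_ft_ge {f : G → ℂ} (hf : IsCC f) {ε : ℝ} (hε : 0 < ε) :
    IsCompact {χ : PontryaginDual G | ε ≤ ‖ft μ f χ‖} := by
  have h1 : {χ : PontryaginDual G | ε ≤ ‖ft μ f χ‖}
      = (fun κ : {κ : CH μ // NT κ} => jj κ.1 κ.2) '' {κ | ε ≤ ‖κ.1 (lA hf)‖} := by
    ext χ
    constructor
    · intro hχ
      obtain ⟨κ, h, rfl⟩ := exists_jj μ χ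
      refine ⟨⟨κ, h⟩, ?_, rfl⟩
      change ε ≤ ‖κ (lA hf)‖
      rw [char_lA h]
      exact hχ
    · rintro ⟨κ, hκ, rfl⟩
      change ε ≤ ‖ft μ f (jj κ.1 κ.2)‖
      rw [← char_lA κ.2 hf]
      exact hκ
  rw [h1]
  exact isCompact_jj_image hf hε

lemma norm_SA_le {a : SA μ} {C : ℝ} (hC : 0 ≤ C) (h : ∀ κ : CH μ, ‖κ a‖ ≤ C) : ‖a‖ ≤ C := by
  rw [← norm_gelfand a]
  exact (ContinuousMap.norm_le _ hC).2 h

/-- nondegeneracy -/
lemma exists_qf_ge (ξ : HH μ) {ε : ℝ} (hε : 0 < ε) :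
    ∃ (ψ : PontryaginDual G → ℝ) (hψ : IsCR ψ), (∀ χ, 0 ≤ ψ χ) ∧ (∀ χ, ψ χ ≤ 1) ∧
      ‖ξ‖ ^ 2 - ε ≤ qf ξ (PP μ hψ) := by
  set δ : ℝ := ε / (3 * (‖ξ‖ + 1) ^ 2) with hδ
  have hξ : 0 ≤ ‖ξ‖ := norm_nonneg _
  have hδ0 : 0 < δ := by positivity
  obtain ⟨k, hk, hk2⟩ := exists_approx ξ hδ0
  have hK := isCompact_ft_ge (μ := μ) hk hδ0
  obtain ⟨F, hF1, hF2, hF3, hF4⟩ := exists_continuousMap_one_of_isCompact_subset_isOpen hK
    isOpen_univ (Set.subset_univ _)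
  have hψ : IsCR (F : PontryaginDual G → ℝ) := ⟨F.continuous, hF2⟩
  refine ⟨F, hψ, fun χ => (hF4 χ).1, fun χ => (hF4 χ).2, ?_⟩
  have h1 : ‖(PP μ hψ * lA hk - lA hk : SA μ)‖ ≤ δ := by
    refine norm_SA_le hδ0.le fun κ => ?_
    rw [map_sub, map_mul, char_PP]
    by_cases h : NT κ
    · rw [til_NT h, char_lA h]
      by_cases h2 : δ ≤ ‖ft μ k (jj κ h)‖
      · have h3 : F (jj κ h) = 1 := hF1 h2
        rw [h3]; simp; exact hδ0.le
      · push Not at h2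
        have h3 : (((F (jj κ h) : ℝ) : ℂ) * ft μ k (jj κ h) - ft μ k (jj κ h))
            = ((F (jj κ h) - 1 : ℝ) : ℂ) * ft μ k (jj κ h) := by push_cast; ring
        rw [h3, norm_mul, Complex.norm_real, Real.norm_eq_abs]
        have h4 : |F (jj κ h) - 1| ≤ 1 := by
          rw [abs_le]
          have := hF4 (jj κ h)
          constructor <;> linarith [this.1, this.2]
        calc |F (jj κ h) - 1| * ‖ft μ k (jj κ h)‖ ≤ 1 * δ :=
              mul_le_mul h4 h2.le (norm_nonneg _) zero_le_one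
          _ = δ := one_mul _
    · have h2 : κ (lA hk) = 0 := by
        by_contra h0
        exact h ⟨k, hk, h0⟩
      rw [h2]; simp; exact hδ0.le
  have h2 : ‖(PP μ hψ : SA μ)‖ ≤ 1 := by
    refine norm_SA_le zero_le_one fun κ => ?_
    rw [char_PP, Complex.norm_real, Real.norm_eq_abs]
    by_cases h : NT κ
    · rw [til_NT h, abs_of_nonneg (hF4 _).1]; exact (hF4 _).2
    · rw [til_not_NT h]; simp
  set P : HH μ →L[ℂ] HH μ := (PP μ hψ : HH μ →L[ℂ] HH μ) with hP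
  have h3 : ‖P ξ - ξ‖ ≤ δ + δ * ‖ξ‖ + δ := by
    have e1 : P ξ - ξ = P (ξ - Lop hk ξ) + (P (Lop hk ξ) - Lop hk ξ) + (Lop hk ξ - ξ) := by
      rw [map_sub]; abel
    rw [e1]
    refine (norm_add₃_le).trans ?_
    have e2 : ‖P (ξ - Lop hk ξ)‖ ≤ δ := by
      refine (P.le_opNorm _).trans ?_
      have e3 : ‖P‖ ≤ 1 := h2
      calc ‖P‖ * ‖ξ - Lop hk ξ‖ ≤ 1 * δ :=
            mul_le_mul e3 (by rw [norm_sub_rev]; exact hk2) (norm_nonneg _) zero_le_one
        _ = δ := one_mul _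
    have e4 : ‖P (Lop hk ξ) - Lop hk ξ‖ ≤ δ * ‖ξ‖ := by
      have e5 : P (Lop hk ξ) - Lop hk ξ
          = ((PP μ hψ * lA hk - lA hk : SA μ) : HH μ →L[ℂ] HH μ) ξ := rfl
      rw [e5]
      refine (ContinuousLinearMap.le_opNorm _ _).trans ?_
      exact mul_le_mul_of_nonneg_right h1 (norm_nonneg _)
    linarith
  have h4 : ‖ξ‖ ^ 2 - ‖ξ‖ * ‖P ξ - ξ‖ ≤ qf ξ (PP μ hψ) := by
    unfold qf
    have e1 : (inner ℂ ξ (P ξ) : ℂ) = inner ℂ ξ ξ + inner ℂ ξ (P ξ - ξ) := by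
      rw [inner_sub_right]; ring
    have e2 : (inner ℂ ξ ξ : ℂ).re = ‖ξ‖ ^ 2 := by
      rw [inner_self_eq_norm_sq_to_K]
      norm_cast
    rw [← hP, e1, Complex.add_re, e2]
    have e3 : |(inner ℂ ξ (P ξ - ξ) : ℂ).re| ≤ ‖ξ‖ * ‖P ξ - ξ‖ :=
      (Complex.abs_re_le_norm _).trans (norm_inner_le_norm _ _)
    have := neg_le_of_abs_le e3
    linarith
  refine le_trans ?_ h4
  have h5 : ‖ξ‖ * ‖P ξ - ξ‖ ≤ ε := by
    calc ‖ξ‖ * ‖P ξ - ξ‖ ≤ ‖ξ‖ * (δ + δ * ‖ξ‖ + δ) := mul_le_mul_of_nonneg_left h3 hξ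
      _ ≤ δ * (3 * (‖ξ‖ + 1) ^ 2) := by nlinarith
      _ = ε := by rw [hδ]; field_simp
  linarith

end Pool.Agent.H48.LCA
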