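import Pool.Agent.H48.LCA.Nondeg

/-!
# The Plancherel theorem for locally compact abelian groups
-/

set_option autoImplicit false
set_option linter.unusedSectionVars false
set_option linter.unusedVariables false
set_option linter.deprecated false

open MeasureTheory Filter Topology WeakDual
open scoped ENNReal ComplexConjugate Pointwise

namespace Pool.Agent.H48.LCA

variable {G : Type} [CommGroup G] [TopologicalSpace G] [IsTopologicalGroup G]
  [LocallyCompactSpace G] [T2Space G] [MeasurableSpace G] [BorelSpace G]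
variable {μ : Measure G} [μ.IsHaarMeasure] [μ.Regular]
variable [MeasurableSpace (PontryaginDual G)] [BorelSpace (PontryaginDual G)]

lemma hasCompactSupport_prodR {X Y : Type} [TopologicalSpace X] [TopologicalSpace Y] [T2Space X]
    [T2Space Y] {F : X × Y → ℝ} {K : Set X} {L : Set Y} (hK : IsCompact K) (hL : IsCompact L)
    (h : ∀ p, p.1 ∉ K ∨ p.2 ∉ L → F p = 0) : HasCompactSupport F := by
  refine HasCompactSupport.intro (hK.prod hL) fun p hp => h p ?_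
  by_contra hcon
  push Not at hcon
  exact hp ⟨hcon.1, hcon.2⟩

lemma ft_mod (t : PontryaginDual G) (g : G → ℂ) (χ : PontryaginDual G) :
    ft μ (fun x => (Subtype.val ∘ t) x * g x) χ = ft μ g (t * χ) := by
  unfold ft
  refine integral_congr_ae (Eventually.of_forall fun x => ?_)
  change ((t x : Circle) : ℂ) * g x * ((χ x : Circle) : ℂ) = g x * ((t x * χ x : Circle) : ℂ)
  rw [Circle.coe_mul]; ring

lemma spm_two (t : PontryaginDual G) {f g : G → ℂ} (hf : IsCC f) (hg : IsCC g)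
    {ψ η : PontryaginDual G → ℝ} (hψ : IsCR ψ) (hη : IsCR η) :
    ∫ χ, ψ χ * (η (t⁻¹ * χ) * ‖ft μ f (t⁻¹ * χ)‖ ^ 2) ∂(spm (vec hg : HH μ))
      = ∫ χ, η χ * (ψ (t * χ) * ‖ft μ g (t * χ)‖ ^ 2) ∂(spm (vec hf : HH μ)) := by
  have hρ : IsCR (fun χ => η χ * ψ (t * χ)) := hη.mul_right (hψ.translate t).1
  have hg' : IsCC (fun x => (Subtype.val ∘ t) x * g x) :=
    hg.mul_left (continuous_subtype_val.comp (map_continuous t))
  have h1 := spm_symm (μ := μ) hf hg' hρ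
  have h2 : (vec hg' : HH μ) = mdl μ t (vec hg) := (mdl_vec hg t).symm
  have h3 : IsCR (fun χ => η χ * ψ (t * χ) * ‖ft μ f χ‖ ^ 2) :=
    hρ.mul_right (φ := fun χ => ‖ft μ f χ‖ ^ 2) ((continuous_ft hf).norm.pow 2)
  rw [h2, integral_spm_mdl t _ h3] at h1
  calc ∫ χ, ψ χ * (η (t⁻¹ * χ) * ‖ft μ f (t⁻¹ * χ)‖ ^ 2) ∂(spm (vec hg : HH μ))
      = ∫ χ, η (t⁻¹ * χ) * ψ (t * (t⁻¹ * χ)) * ‖ft μ f (t⁻¹ * χ)‖ ^ 2 ∂(spm (vec hg : HH μ)) := by
        refine integral_congr_ae (Eventually.of_forall fun χ => ?_)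
        simp only [mul_inv_cancel_left]
        ring
    _ = _ := h1
    _ = _ := by
        refine integral_congr_ae (Eventually.of_forall fun χ => ?_)
        simp only [ft_mod]
        ring

variable {ν : Measure (PontryaginDual G)} [ν.IsHaarMeasure] [ν.Regular]

lemma swap_one {m : Measure (PontryaginDual G)} [IsFiniteMeasureOnCompacts m]
    {ψ H : PontryaginDual G → ℝ} (hψ : IsCR ψ) (hH : IsCR H) :
    ∫ t, (∫ χ, ψ χ * H (t⁻¹ * χ) ∂m) ∂ν = (∫ χ, ψ χ ∂m) * ∫ t, H t ∂ν := by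
  rw [integral_integral_swap_of_hasCompactSupport]
  · rw [← integral_mul_const]
    refine integral_congr_ae (Eventually.of_forall fun χ => ?_)
    simp only
    rw [integral_const_mul]
    congr 1
    rw [← integral_inv_eq_self (fun t => H (t⁻¹ * χ))]
    simp only [inv_inv]
    exact integral_mul_right_eq_self H χ
  · change Continuous fun p : PontryaginDual G × PontryaginDual G => ψ p.2 * H (p.1⁻¹ * p.2)
    exact (hψ.1.comp continuous_snd).mul (hH.1.comp (continuous_fst.inv.mul continuous_snd))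
  · refine hasCompactSupport_prodR (K := tsupport ψ * (tsupport H)⁻¹) (L := tsupport ψ)
      (hψ.2.isCompact.mul hH.2.isCompact.inv) hψ.2 fun p hp => ?_
    change ψ p.2 * H (p.1⁻¹ * p.2) = 0
    by_cases h2 : p.2 ∈ tsupport ψ
    · rcases hp with hp | hp
      · have h3 : p.1⁻¹ * p.2 ∉ tsupport H := by
          intro h3
          apply hp
          exact ⟨p.2, h2, (p.1⁻¹ * p.2)⁻¹, Set.inv_mem_inv.2 h3, by simp⟩
        rw [image_eq_zero_of_notMem_tsupport h3, mul_zero]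
      · exact absurd h2 hp
    · rw [image_eq_zero_of_notMem_tsupport h2, zero_mul]

lemma swap_two {m : Measure (PontryaginDual G)} [IsFiniteMeasureOnCompacts m]
    {ψ H : PontryaginDual G → ℝ} (hψ : IsCR ψ) (hH : IsCR H) :
    ∫ t, (∫ χ, ψ χ * H (t * χ) ∂m) ∂ν = (∫ χ, ψ χ ∂m) * ∫ t, H t ∂ν := by
  rw [← swap_one (ν := ν) hψ hH, ← integral_inv_eq_self (fun t => ∫ χ, ψ χ * H (t * χ) ∂m)]

/-- the key identity -/
lemma key_identity (ν : Measure (PontryaginDual G)) [ν.IsHaarMeasure] [ν.Regular]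
    {f g : G → ℂ} (hf : IsCC f) (hg : IsCC g)
    {ψ η : PontryaginDual G → ℝ} (hψ : IsCR ψ) (hη : IsCR η) :
    (∫ χ, ψ χ ∂(spm (vec hg : HH μ))) * ∫ χ, η χ * ‖ft μ f χ‖ ^ 2 ∂ν
      = (∫ χ, η χ ∂(spm (vec hf : HH μ))) * ∫ χ, ψ χ * ‖ft μ g χ‖ ^ 2 ∂ν := by
  rw [← swap_one (ν := ν) hψ (hη.mul_right (φ := fun χ => ‖ft μ f χ‖ ^ 2)
      ((continuous_ft hf).norm.pow 2)),
    ← swap_two (ν := ν) hη (hψ.mul_right (φ := fun χ => ‖ft μ g χ‖ ^ 2)
      ((continuous_ft hg).norm.pow 2))]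
  refine integral_congr_ae (Eventually.of_forall fun t => ?_)
  exact spm_two t hf hg hψ hη

lemma qf_le (ξ : HH μ) {ψ : PontryaginDual G → ℝ} (hψ : IsCR ψ) (h0 : ∀ χ, 0 ≤ ψ χ)
    (h1 : ∀ χ, ψ χ ≤ 1) : qf ξ (PP μ hψ) ≤ ‖ξ‖ ^ 2 := by
  have h2 : ‖(PP μ hψ : SA μ)‖ ≤ 1 := by
    refine norm_SA_le zero_le_one fun κ => ?_
    rw [char_PP, Complex.norm_real, Real.norm_eq_abs]
    by_cases h : NT κ
    · rw [til_NT h, abs_of_nonneg (h0 _)]; exact h1 _
    · rw [til_not_NT h]; simp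
  unfold qf
  refine (Complex.re_le_norm _).trans ((norm_inner_le_norm _ _).trans ?_)
  have h3 : ‖(PP μ hψ : HH μ →L[ℂ] HH μ) ξ‖ ≤ 1 * ‖ξ‖ :=
    (ContinuousLinearMap.le_opNorm _ _).trans (mul_le_mul_of_nonneg_right h2 (norm_nonneg _))
  rw [one_mul] at h3
  nlinarith [norm_nonneg ξ]

/-- the constant relating the two measures -/
lemma exists_const (μ : Measure G) [μ.IsHaarMeasure] [μ.Regular]
    (ν : Measure (PontryaginDual G)) [ν.IsHaarMeasure] [ν.Regular] :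
    ∃ c : ℝ, 0 < c ∧ ∀ (f : G → ℂ) (hf : IsCC f) (η : PontryaginDual G → ℝ) (hη : IsCR η),
      ∫ χ, η χ * ‖ft μ f χ‖ ^ 2 ∂ν = c * ∫ χ, η χ ∂(spm (vec hf : HH μ)) := by
  obtain ⟨g, hg, hne⟩ := exists_ne_zero_vec μ
  have hpos : 0 < ‖(vec hg : HH μ)‖ ^ 2 := by
    have := norm_pos_iff.2 hne
    positivity
  obtain ⟨ψ, hψ, hψ0, hψ1, hψ2⟩ := exists_qf_ge (vec hg : HH μ) (half_pos hpos)
  set A : ℝ := ∫ χ, ψ χ ∂(spm (vec hg : HH μ)) with hA
  set B : ℝ := ∫ χ, ψ χ * ‖ft μ g χ‖ ^ 2 ∂ν with hB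
  have hA0 : 0 < A := by
    rw [hA, integral_spm _ hψ]
    linarith
  have hB0 : 0 ≤ B := integral_nonneg fun χ => mul_nonneg (hψ0 χ) (sq_nonneg _)
  have hkey : ∀ (f : G → ℂ) (hf : IsCC f) (η : PontryaginDual G → ℝ) (hη : IsCR η),
      ∫ χ, η χ * ‖ft μ f χ‖ ^ 2 ∂ν = (B / A) * ∫ χ, η χ ∂(spm (vec hf : HH μ)) := by
    intro f hf η hη
    have h1 := key_identity (μ := μ) ν hf hg hψ hη
    have h2 : A * ∫ χ, η χ * ‖ft μ f χ‖ ^ 2 ∂ν = (∫ χ, η χ ∂(spm (vec hf : HH μ))) * B := h1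
    field_simp
    linarith
  refine ⟨B / A, ?_, hkey⟩
  refine lt_of_le_of_ne (div_nonneg hB0 hA0.le) ?_
  intro h0
  obtain ⟨f, hf, hf1⟩ := exists_ft_ne_zero μ (1 : PontryaginDual G)
  obtain ⟨F, hF1, hF2, hF3, hF4⟩ := exists_continuousMap_one_of_isCompact_subset_isOpen
    (isCompact_singleton (x := (1 : PontryaginDual G))) isOpen_univ (Set.subset_univ _)
  have hη : IsCR (F : PontryaginDual G → ℝ) := ⟨F.continuous, hF2⟩
  have h1 := hkey f hf F hη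
  rw [← h0, zero_mul] at h1
  have h2 : 0 < ∫ χ, F χ * ‖ft μ f χ‖ ^ 2 ∂ν := by
    refine (hη.1.mul ((continuous_ft hf).norm.pow 2)).integral_pos_of_hasCompactSupport_nonneg_nonzero
      hη.2.mul_right (fun χ => mul_nonneg (hF4 χ).1 (sq_nonneg _)) (x := 1) ?_
    have h3 : F 1 = 1 := hF1 (Set.mem_singleton _)
    change F 1 * ‖ft μ f 1‖ ^ 2 ≠ 0
    rw [h3, one_mul]
    exact pow_ne_zero _ (norm_ne_zero_iff.2 hf1)
  exact h2.ne' h1

/-- **Plancherel theorem** for compactly supported continuous functions. -/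
theorem plancherel (μ : Measure G) [μ.IsHaarMeasure] [μ.Regular]
    (ν : Measure (PontryaginDual G)) [ν.IsHaarMeasure] [ν.Regular] :
    ∃ c : ℝ, 0 < c ∧ ∀ (f : G → ℂ) (_hf : IsCC f),
      ∫⁻ χ, ENNReal.ofReal (‖ft μ f χ‖ ^ 2) ∂ν = ENNReal.ofReal (c * ∫ x, ‖f x‖ ^ 2 ∂μ) := by
  obtain ⟨c, hc, hkey⟩ := exists_const μ ν
  refine ⟨c, hc, fun f hf => ?_⟩
  have hnorm : ‖(vec hf : HH μ)‖ ^ 2 = ∫ x, ‖f x‖ ^ 2 ∂μ := by
    have e2 : (inner ℂ (vec hf : HH μ) (vec hf) : ℂ).re = ‖(vec hf : HH μ)‖ ^ 2 := by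
      rw [inner_self_eq_norm_sq_to_K]
      norm_cast
    have h2 : ∫ x, conj (f x) * f x ∂μ = ((∫ x, ‖f x‖ ^ 2 ∂μ : ℝ) : ℂ) := by
      refine Eq.trans ?_ integral_ofReal
      refine integral_congr_ae (Eventually.of_forall fun x => ?_)
      simp only
      rw [mul_comm, Complex.mul_conj, Complex.normSq_eq_norm_sq]
      push_cast; rfl
    rw [← e2, inner_vec, h2, Complex.ofReal_re]
  rw [← hnorm]
  have hcont : Continuous fun χ => ‖ft μ f χ‖ ^ 2 := (continuous_ft hf).norm.pow 2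
  apply le_antisymm
  · -- upper bound
    set K : ℕ → Set (PontryaginDual G) := fun n => {χ | 1 / ((n : ℝ) + 1) ≤ ‖ft μ f χ‖} with hK
    have hKc : ∀ n, IsCompact (K n) := fun n => isCompact_ft_ge hf (by positivity)
    have hKmono : Monotone K := by
      intro m n hmn χ hχ
      change 1 / ((n : ℝ) + 1) ≤ ‖ft μ f χ‖
      have hχ' : 1 / ((m : ℝ) + 1) ≤ ‖ft μ f χ‖ := hχ
      refine le_trans ?_ hχ'
      exact one_div_le_one_div_of_le (by positivity) (by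
        have : (m : ℝ) ≤ n := by exact_mod_cast hmn
        linarith)
    have hbound : ∀ n, ∫⁻ χ in K n, ENNReal.ofReal (‖ft μ f χ‖ ^ 2) ∂ν
        ≤ ENNReal.ofReal (c * ‖(vec hf : HH μ)‖ ^ 2) := by
      intro n
      obtain ⟨F, hF1, hF2, hF3, hF4⟩ := exists_continuousMap_one_of_isCompact_subset_isOpen (hKc n)
        isOpen_univ (Set.subset_univ _)
      have hη : IsCR (F : PontryaginDual G → ℝ) := ⟨F.continuous, hF2⟩
      have h1 := hkey f hf F hη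
      have h2 : ∫ χ, F χ ∂(spm (vec hf : HH μ)) ≤ ‖(vec hf : HH μ)‖ ^ 2 := by
        rw [integral_spm _ hη]
        exact qf_le _ hη (fun χ => (hF4 χ).1) fun χ => (hF4 χ).2
      have hint : Integrable (fun χ => F χ * ‖ft μ f χ‖ ^ 2) ν :=
        (hη.1.mul hcont).integrable_of_hasCompactSupport hη.2.mul_right
      calc ∫⁻ χ in K n, ENNReal.ofReal (‖ft μ f χ‖ ^ 2) ∂ν
          ≤ ∫⁻ χ in K n, ENNReal.ofReal (F χ * ‖ft μ f χ‖ ^ 2) ∂ν := by
            refine setLIntegral_mono' (hKc n).isClosed.measurableSet fun χ hχ => ?_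
            have h3 : F χ = 1 := hF1 hχ
            rw [h3, one_mul]
        _ ≤ ∫⁻ χ, ENNReal.ofReal (F χ * ‖ft μ f χ‖ ^ 2) ∂ν := setLIntegral_le_lintegral _ _
        _ = ENNReal.ofReal (∫ χ, F χ * ‖ft μ f χ‖ ^ 2 ∂ν) :=
            (ofReal_integral_eq_lintegral_ofReal hint
              (Eventually.of_forall fun χ => mul_nonneg (hF4 χ).1 (sq_nonneg _))).symm
        _ ≤ _ := by
            rw [h1]
            exact ENNReal.ofReal_le_ofReal (mul_le_mul_of_nonneg_left h2 hc.le)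
    have hsupp : ∀ χ, χ ∉ ⋃ n, K n → ENNReal.ofReal (‖ft μ f χ‖ ^ 2) = 0 := by
      intro χ hχ
      have h3 : ‖ft μ f χ‖ = 0 := by
        by_contra hne
        have hpos : 0 < ‖ft μ f χ‖ := lt_of_le_of_ne (norm_nonneg _) (Ne.symm hne)
        obtain ⟨n, hn⟩ := exists_nat_one_div_lt hpos
        exact hχ (Set.mem_iUnion.2 ⟨n, hn.le⟩)
      rw [h3]; simp
    have h4 : ∫⁻ χ, ENNReal.ofReal (‖ft μ f χ‖ ^ 2) ∂ν
        = ∫⁻ χ in ⋃ n, K n, ENNReal.ofReal (‖ft μ f χ‖ ^ 2) ∂ν := by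
      rw [← lintegral_indicator (MeasurableSet.iUnion fun n => (hKc n).isClosed.measurableSet)]
      refine lintegral_congr fun χ => ?_
      by_cases hχ : χ ∈ ⋃ n, K n
      · rw [Set.indicator_of_mem hχ]
      · rw [Set.indicator_of_notMem hχ, hsupp χ hχ]
    rw [h4]
    have h5 : Tendsto (fun n => ∫⁻ χ in K n, ENNReal.ofReal (‖ft μ f χ‖ ^ 2) ∂ν) atTop
        (𝓝 (∫⁻ χ in ⋃ n, K n, ENNReal.ofReal (‖ft μ f χ‖ ^ 2) ∂ν)) := by
      have h6 := tendsto_measure_iUnion_atTop (μ := ν.withDensity fun χ => ENNReal.ofReal (‖ft μ f χ‖ ^ 2))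
        hKmono
      rw [withDensity_apply _ (MeasurableSet.iUnion fun n => (hKc n).isClosed.measurableSet)] at h6
      refine h6.congr fun n => ?_
      exact withDensity_apply _ (hKc n).isClosed.measurableSet
    exact le_of_tendsto' h5 hbound
  · -- lower bound
    refine ENNReal.le_of_forall_pos_le_add ?_
    intro ε hε _
    have hε' : (0 : ℝ) < ε / c := div_pos (by exact_mod_cast hε) hc
    obtain ⟨ψ, hψ, hψ0, hψ1, hψ2⟩ := exists_qf_ge (vec hf : HH μ) hε'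
    have h1 := hkey f hf ψ hψ
    rw [integral_spm _ hψ] at h1
    have hint : Integrable (fun χ => ψ χ * ‖ft μ f χ‖ ^ 2) ν :=
      (hψ.1.mul hcont).integrable_of_hasCompactSupport hψ.2.mul_right
    have h2 : ENNReal.ofReal (∫ χ, ψ χ * ‖ft μ f χ‖ ^ 2 ∂ν)
        ≤ ∫⁻ χ, ENNReal.ofReal (‖ft μ f χ‖ ^ 2) ∂ν := by
      rw [ofReal_integral_eq_lintegral_ofReal hint
        (Eventually.of_forall fun χ => mul_nonneg (hψ0 χ) (sq_nonneg _))]
      refine lintegral_mono fun χ => ENNReal.ofReal_le_ofReal ?_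
      exact mul_le_of_le_one_left (sq_nonneg _) (hψ1 χ)
    have h3 : c * ‖(vec hf : HH μ)‖ ^ 2 ≤ (∫ χ, ψ χ * ‖ft μ f χ‖ ^ 2 ∂ν) + ε := by
      rw [h1]
      have h4 : c * (‖(vec hf : HH μ)‖ ^ 2 - ε / c) ≤ c * qf (vec hf : HH μ) (PP μ hψ) :=
        mul_le_mul_of_nonneg_left hψ2 hc.le
      have h5 : c * (‖(vec hf : HH μ)‖ ^ 2 - ε / c) = c * ‖(vec hf : HH μ)‖ ^ 2 - ε := by
        field_simp
      linarith
    calc ENNReal.ofReal (c * ‖(vec hf : HH μ)‖ ^ 2)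
        ≤ ENNReal.ofReal ((∫ χ, ψ χ * ‖ft μ f χ‖ ^ 2 ∂ν) + ε) := ENNReal.ofReal_le_ofReal h3
      _ ≤ ENNReal.ofReal (∫ χ, ψ χ * ‖ft μ f χ‖ ^ 2 ∂ν) + ENNReal.ofReal ε :=
          ENNReal.ofReal_add_le
      _ ≤ _ := by
          rw [ENNReal.ofReal_coe_nnreal]
          gcongr

end Pool.Agent.H48.LCA
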