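import Mathlib

/-!
# The regular representation of a locally compact abelian group
-/

set_option autoImplicit false
set_option linter.unusedSectionVars false
set_option linter.unusedVariables false
set_option linter.deprecated false

open MeasureTheory Filter Topology
open scoped ENNReal ComplexConjugate Pointwise

namespace Pool.Agent.H48.LCA

variable {G : Type} [CommGroup G] [TopologicalSpace G] [IsTopologicalGroup G]
  [LocallyCompactSpace G] [T2Space G] [MeasurableSpace G] [BorelSpace G]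
variable (μ : Measure G) [μ.IsHaarMeasure] [μ.Regular]

instance fact_two_ne_top : Fact ((2 : ℝ≥0∞) ≠ ⊤) := ⟨by norm_num⟩

/-- the Hilbert space `L²(G)` -/
abbrev HH : Type := Lp ℂ 2 μ

omit [T2Space G] in
lemma norm_mk_smul (x : G) (ξ : HH μ) : ‖(DomMulAct.mk x) • ξ‖ = ‖ξ‖ := DomMulAct.norm_smul_Lp _ _

/-- translations -/
noncomputable def tauI (x : G) : HH μ →ₗᵢ[ℂ] HH μ where
  toFun := fun ξ => (DomMulAct.mk x⁻¹) • ξ
  map_add' := fun ξ η => DomMulAct.smul_Lp_add _ ξ η
  map_smul' := fun c ξ => smul_comm _ _ _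
  norm_map' := fun ξ => norm_mk_smul μ _ _

/-- translations as bounded operators -/
noncomputable def tau (x : G) : HH μ →L[ℂ] HH μ := (tauI μ x).toContinuousLinearMap

lemma tau_apply (x : G) (ξ : HH μ) : tau μ x ξ = (DomMulAct.mk x⁻¹) • ξ := rfl

lemma tau_norm (x : G) (ξ : HH μ) : ‖tau μ x ξ‖ = ‖ξ‖ := (tauI μ x).norm_map ξ

lemma tau_one : tau μ (1 : G) = 1 := by
  ext1 ξ
  rw [tau_apply, inv_one]
  exact one_smul _ ξ

lemma tau_mul (x y : G) : tau μ (x * y) = tau μ x * tau μ y := by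
  ext1 ξ
  change (DomMulAct.mk (x * y)⁻¹) • ξ = (DomMulAct.mk x⁻¹) • ((DomMulAct.mk y⁻¹) • ξ)
  rw [smul_smul, ← DomMulAct.mk_mul, mul_inv]
  congr 2
  rw [mul_comm]

lemma tau_comm (x y : G) : tau μ x * tau μ y = tau μ y * tau μ x := by
  rw [← tau_mul, ← tau_mul, mul_comm]

lemma tau_inner (x : G) (ξ η : HH μ) : inner ℂ (tau μ x ξ) (tau μ x η) = inner ℂ ξ η :=
  (tauI μ x).inner_map_map ξ η

lemma tau_star (x : G) : star (tau μ x) = tau μ x⁻¹ := by
  rw [ContinuousLinearMap.star_eq_adjoint, eq_comm, ContinuousLinearMap.eq_adjoint_iff]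
  intro ξ η
  rw [← tau_inner μ x (tau μ x⁻¹ ξ) η]
  have : tau μ x (tau μ x⁻¹ ξ) = ξ := by
    have h := congrArg (fun T => T ξ) (tau_mul μ x x⁻¹)
    simp only [mul_inv_cancel, tau_one] at h
    exact h.symm
  rw [this]

lemma continuous_tau (ξ : HH μ) : Continuous fun x : G => tau μ x ξ := by
  have h : Continuous fun x : G => (DomMulAct.mk x⁻¹) • ξ := by
    have h1 : Continuous fun x : G => (DomMulAct.mk x⁻¹ : Gᵈᵐᵃ) :=
      DomMulAct.continuous_mk.comp continuous_inv
    exact h1.smul continuous_const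
  exact h

/-- continuous with compact support -/
def IsCC (f : G → ℂ) : Prop := Continuous f ∧ HasCompactSupport f

variable {μ}

lemma IsCC.integrand {f : G → ℂ} (hf : IsCC f) (ξ : HH μ) :
    Integrable (fun x => f x • tau μ x ξ) μ :=
  (hf.1.smul (continuous_tau μ ξ)).integrable_of_hasCompactSupport hf.2.smul_right

lemma IsCC.integrable {f : G → ℂ} (hf : IsCC f) : Integrable f μ :=
  hf.1.integrable_of_hasCompactSupport hf.2

lemma IsCC.add {f g : G → ℂ} (hf : IsCC f) (hg : IsCC g) : IsCC (fun x => f x + g x) :=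
  ⟨hf.1.add hg.1, hf.2.add hg.2⟩

lemma IsCC.sub {f g : G → ℂ} (hf : IsCC f) (hg : IsCC g) : IsCC (fun x => f x - g x) :=
  ⟨hf.1.sub hg.1, hf.2.sub hg.2⟩

lemma IsCC.mul_left {f g : G → ℂ} (hf : IsCC f) (hg : Continuous g) : IsCC (fun x => g x * f x) :=
  ⟨hg.mul hf.1, hf.2.mul_left⟩

lemma IsCC.translate {f : G → ℂ} (hf : IsCC f) (x : G) : IsCC (fun y => f (x⁻¹ * y)) :=
  ⟨hf.1.comp (continuous_const.mul continuous_id), hf.2.comp_homeomorph (Homeomorph.mulLeft x⁻¹)⟩

lemma IsCC.conj {f : G → ℂ} (hf : IsCC f) : IsCC (fun x => conj (f x)) :=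
  ⟨Complex.continuous_conj.comp hf.1, hf.2.comp_left (map_zero _)⟩

lemma IsCC.inv {f : G → ℂ} (hf : IsCC f) : IsCC (fun x => f x⁻¹) :=
  ⟨hf.1.comp continuous_inv, hf.2.comp_homeomorph (Homeomorph.inv G)⟩

/-- the operator of convolution by `f` -/
noncomputable def Lop {f : G → ℂ} (hf : IsCC f) : HH μ →L[ℂ] HH μ :=
  LinearMap.mkContinuous
    { toFun := fun ξ => ∫ x, f x • tau μ x ξ ∂μ
      map_add' := fun ξ η => by
        rw [← integral_add (hf.integrand ξ) (hf.integrand η)]
        simp only [map_add, smul_add]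
      map_smul' := fun c ξ => by
        rw [RingHom.id_apply, ← integral_smul]
        refine integral_congr_ae (Eventually.of_forall fun x => ?_)
        simp only [map_smul]
        rw [smul_comm] } (∫ x, ‖f x‖ ∂μ) (fun ξ => by
        change ‖∫ x, f x • tau μ x ξ ∂μ‖ ≤ _
        refine (norm_integral_le_integral_norm _).trans (le_of_eq ?_)
        rw [← integral_mul_const]
        refine integral_congr_ae (Eventually.of_forall fun x => ?_)
        simp only [norm_smul, tau_norm])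

lemma Lop_apply {f : G → ℂ} (hf : IsCC f) (ξ : HH μ) : Lop hf ξ = ∫ x, f x • tau μ x ξ ∂μ := rfl

lemma Lop_norm_le {f : G → ℂ} (hf : IsCC f) : ‖(Lop hf : HH μ →L[ℂ] HH μ)‖ ≤ ∫ x, ‖f x‖ ∂μ :=
  LinearMap.mkContinuous_norm_le _ (integral_nonneg fun _ => norm_nonneg _) _

lemma Lop_sub {f g : G → ℂ} (hf : IsCC f) (hg : IsCC g) :
    (Lop hf - Lop hg : HH μ →L[ℂ] HH μ) = Lop (hf.sub hg) := by
  ext1 ξ
  rw [ContinuousLinearMap.sub_apply, Lop_apply, Lop_apply, Lop_apply,
    ← integral_sub (hf.integrand ξ) (hg.integrand ξ)]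
  simp only [sub_smul]

lemma tau_mul_Lop {f : G → ℂ} (hf : IsCC f) (x : G) :
    tau μ x * Lop hf = Lop (hf.translate x) := by
  ext1 ξ
  rw [ContinuousLinearMap.mul_apply, Lop_apply, Lop_apply,
    ← ContinuousLinearMap.integral_comp_comm _ (hf.integrand ξ),
    ← integral_mul_left_eq_self (fun y => f (x⁻¹ * y) • tau μ y ξ) x]
  refine integral_congr_ae (Eventually.of_forall fun y => ?_)
  simp only [map_smul, inv_mul_cancel_left, tau_mul]
  rfl

lemma commute_Lop_of_commute_tau {f : G → ℂ} (hf : IsCC f) {T : HH μ →L[ℂ] HH μ}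
    (hT : ∀ x, T * tau μ x = tau μ x * T) : T * Lop hf = Lop hf * T := by
  ext1 ξ
  rw [ContinuousLinearMap.mul_apply, Lop_apply, ContinuousLinearMap.mul_apply, Lop_apply,
    ← ContinuousLinearMap.integral_comp_comm _ (hf.integrand ξ)]
  refine integral_congr_ae (Eventually.of_forall fun y => ?_)
  simp only [map_smul]
  have := congrArg (fun T => T ξ) (hT y)
  simp only [ContinuousLinearMap.mul_apply] at this
  rw [this]

lemma star_Lop {f : G → ℂ} (hf : IsCC f) :
    star (Lop hf : HH μ →L[ℂ] HH μ) = Lop hf.conj.inv := by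
  rw [ContinuousLinearMap.star_eq_adjoint, eq_comm, ContinuousLinearMap.eq_adjoint_iff]
  intro ξ η
  rw [Lop_apply, Lop_apply]
  rw [← inner_conj_symm, ← integral_inner (hf.conj.inv.integrand ξ), ← integral_conj,
    ← integral_inner (hf.integrand η)]
  rw [← integral_inv_eq_self (fun x => inner ℂ ξ (f x • tau μ x η))]
  refine integral_congr_ae (Eventually.of_forall fun x => ?_)
  simp only [inner_smul_right, map_mul, inner_conj_symm, Complex.conj_conj]
  congr 1
  rw [← tau_star, ContinuousLinearMap.star_eq_adjoint, ContinuousLinearMap.adjoint_inner_right]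

lemma continuous_tau_mul_Lop {f : G → ℂ} (hf : IsCC f) :
    Continuous fun x : G => (tau μ x * Lop hf : HH μ →L[ℂ] HH μ) := by
  rw [continuous_iff_continuousAt]
  intro x0
  obtain ⟨V, hV, hVx⟩ := exists_compact_mem_nhds x0
  have hx0 : x0 ∈ V := mem_of_mem_nhds hVx
  set F : G → ℝ := fun x => ∫ y, ‖f (x⁻¹ * y) - f (x0⁻¹ * y)‖ ∂μ with hF
  have hFc : ContinuousOn F V := by
    refine continuousOn_integral_of_compact_support (k := V * tsupport f)
      (hV.mul hf.2) ?_ ?_
    · refine Continuous.continuousOn ?_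
      have h1 : Continuous fun p : G × G => f (p.1⁻¹ * p.2) :=
        hf.1.comp (continuous_fst.inv.mul continuous_snd)
      have h2 : Continuous fun p : G × G => f (x0⁻¹ * p.2) :=
        hf.1.comp (continuous_const.mul continuous_snd)
      exact (h1.sub h2).norm
    · intro x y hx hy
      have h3 : ∀ z ∈ V, f (z⁻¹ * y) = 0 := by
        intro z hz
        apply image_eq_zero_of_notMem_tsupport
        intro hmem
        exact hy ⟨z, hz, z⁻¹ * y, hmem, by simp⟩
      rw [h3 x hx, h3 x0 hx0]; simp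
  have hF0 : F x0 = 0 := by simp [hF]
  have hFt : Tendsto F (𝓝 x0) (𝓝 0) := by
    rw [← hF0]
    exact hFc.continuousAt hVx
  refine tendsto_iff_norm_sub_tendsto_zero.2 (squeeze_zero (fun _ => norm_nonneg _) (fun x => ?_) hFt)
  change ‖(tau μ x * Lop hf : HH μ →L[ℂ] HH μ) - tau μ x0 * Lop hf‖ ≤ F x
  rw [tau_mul_Lop, tau_mul_Lop, Lop_sub]
  exact Lop_norm_le _

lemma Lop_mul_Lop {f g : G → ℂ} (hf : IsCC f) (hg : IsCC g) :
    (Lop hf * Lop hg : HH μ →L[ℂ] HH μ) = ∫ y, f y • (tau μ y * Lop hg) ∂μ := by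
  have hint : Integrable (fun y => f y • (tau μ y * Lop hg : HH μ →L[ℂ] HH μ)) μ :=
    (hf.1.smul (continuous_tau_mul_Lop hg)).integrable_of_hasCompactSupport hf.2.smul_right
  ext1 ξ
  rw [ContinuousLinearMap.integral_apply hint, ContinuousLinearMap.mul_apply, Lop_apply]
  rfl

/-! ## Vectors coming from functions -/

lemma IsCC.memLp {f : G → ℂ} (hf : IsCC f) : MemLp f 2 μ :=
  hf.1.memLp_of_hasCompactSupport hf.2

/-- the vector of a function -/
noncomputable def vec {f : G → ℂ} (hf : IsCC f) : HH μ := hf.memLp.toLp f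

lemma vec_congr {f g : G → ℂ} (hf : IsCC f) (hg : IsCC g) (h : f = g) :
    (vec hf : HH μ) = vec hg := by subst h; rfl

lemma tau_vec {f : G → ℂ} (hf : IsCC f) (x : G) :
    tau μ x (vec hf) = vec (hf.translate x) := rfl

lemma inner_vec {f g : G → ℂ} (hf : IsCC f) (hg : IsCC g) :
    inner ℂ (vec hf : HH μ) (vec hg) = ∫ x, conj (f x) * g x ∂μ := by
  rw [L2.inner_def]
  refine integral_congr_ae ?_
  filter_upwards [hf.memLp.coeFn_toLp, hg.memLp.coeFn_toLp] with x h1 h2
  unfold vec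
  rw [h1, h2]
  simp only [RCLike.inner_apply]
  rw [mul_comm]

/-- convolution -/
noncomputable def cv (μ : Measure G) (f g : G → ℂ) : G → ℂ := fun y => ∫ x, f x * g (x⁻¹ * y) ∂μ

lemma cv_comm (f g : G → ℂ) : cv μ f g = cv μ g f := by
  funext y
  unfold cv
  rw [← integral_inv_eq_self (fun x => f x * g (x⁻¹ * y)),
    ← integral_mul_left_eq_self (fun x => f x⁻¹ * g (x⁻¹⁻¹ * y)) y⁻¹]
  refine integral_congr_ae (Eventually.of_forall fun x => ?_)
  simp only [mul_inv_rev, inv_inv]
  rw [mul_comm (f _)]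
  congr 2
  · rw [mul_comm y⁻¹ x]; simp

lemma IsCC.conv {f g : G → ℂ} (hf : IsCC f) (hg : IsCC g) : IsCC (LCA.cv μ f g) := by
  have hsup : ∀ y, y ∉ tsupport f * tsupport g → cv μ f g y = 0 := by
    intro y hy
    unfold LCA.cv
    refine integral_eq_zero_of_ae (Eventually.of_forall fun x => ?_)
    simp only [Pi.zero_apply, mul_eq_zero]
    by_contra hcon
    push Not at hcon
    apply hy
    exact ⟨x, subset_tsupport _ hcon.1, x⁻¹ * y, subset_tsupport _ hcon.2, by simp⟩
  constructor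
  · have h1 : ContinuousOn (LCA.cv μ f g) Set.univ := by
      refine continuousOn_integral_of_compact_support (k := tsupport f) hf.2 ?_ ?_
      · refine Continuous.continuousOn ?_
        exact (hf.1.comp continuous_snd).mul
          (hg.1.comp (continuous_snd.inv.mul continuous_fst))
      · intro y x _ hx
        rw [image_eq_zero_of_notMem_tsupport hx, zero_mul]
    rwa [continuousOn_univ] at h1
  · refine HasCompactSupport.intro (hf.2.isCompact.mul hg.2.isCompact) fun y hy => hsup y hy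

lemma hasCompactSupport_prod {X Y : Type} [TopologicalSpace X] [TopologicalSpace Y] [T2Space X]
    [T2Space Y] {F : X × Y → ℂ} {K : Set X} {L : Set Y} (hK : IsCompact K) (hL : IsCompact L)
    (h : ∀ p, p.1 ∉ K ∨ p.2 ∉ L → F p = 0) : HasCompactSupport F := by
  refine HasCompactSupport.intro (hK.prod hL) fun p hp => h p ?_
  by_contra hcon
  push Not at hcon
  exact hp ⟨hcon.1, hcon.2⟩

lemma inner_vec_Lop_vec {f g h : G → ℂ} (hf : IsCC f) (hg : IsCC g) (hh : IsCC h) :
    inner ℂ (vec hh : HH μ) (Lop hf (vec hg)) = inner ℂ (vec hh : HH μ) (vec (hf.conv (μ := μ) hg)) := by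
  rw [Lop_apply, ← integral_inner (hf.integrand _), inner_vec]
  have h1 : ∀ x, (inner ℂ (vec hh : HH μ) (f x • tau μ x (vec hg)) : ℂ)
      = ∫ y, conj (h y) * (f x * g (x⁻¹ * y)) ∂μ := by
    intro x
    rw [inner_smul_right, tau_vec, inner_vec, ← integral_const_mul]
    refine integral_congr_ae (Eventually.of_forall fun y => ?_)
    simp only
    ring
  simp only [h1]
  rw [integral_integral_swap_of_hasCompactSupport]
  · refine integral_congr_ae (Eventually.of_forall fun y => ?_)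
    simp only
    rw [integral_const_mul]
    rfl
  · change Continuous fun p : G × G => conj (h p.2) * (f p.1 * g (p.1⁻¹ * p.2))
    exact (Complex.continuous_conj.comp (hh.1.comp continuous_snd)).mul
      ((hf.1.comp continuous_fst).mul (hg.1.comp (continuous_fst.inv.mul continuous_snd)))
  · refine hasCompactSupport_prod hf.2 hh.2 fun p hp => ?_
    change conj (h p.2) * (f p.1 * g (p.1⁻¹ * p.2)) = 0
    rcases hp with hp | hp
    · rw [image_eq_zero_of_notMem_tsupport hp]; simp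
    · rw [image_eq_zero_of_notMem_tsupport hp]; simp

lemma Lop_vec {f g : G → ℂ} (hf : IsCC f) (hg : IsCC g) :
    Lop hf (vec hg) = (vec (hf.conv (μ := μ) hg) : HH μ) := by
  set a : HH μ := Lop hf (vec hg) with ha
  set b : HH μ := vec (hf.conv (μ := μ) hg) with hb
  rw [← sub_eq_zero]
  have h1 : ∀ {h : G → ℂ} (hh : IsCC h), inner ℂ (vec hh : HH μ) (a - b) = 0 := by
    intro h hh
    rw [inner_sub_right, ha, hb, inner_vec_Lop_vec, sub_self]
  have h2 : inner ℂ b (a - b) = 0 := h1 _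
  have h3 : inner ℂ a (a - b) = 0 := by
    generalize a - b = w at h1 ⊢
    rw [← inner_conj_symm, ha, Lop_apply, ← integral_inner (hf.integrand _)]
    have h4 : ∀ x, (inner ℂ w (f x • tau μ x (vec hg)) : ℂ) = 0 := by
      intro x
      rw [inner_smul_right, tau_vec, ← inner_conj_symm, h1]; simp
    simp only [h4]
    simp
  rw [← inner_self_eq_zero (𝕜 := ℂ), inner_sub_left, h2, h3, sub_zero]

/-! ## Modulations -/

lemma memLp_mod (t : PontryaginDual G) {ξ : G → ℂ} (hξ : MemLp ξ 2 μ) :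
    MemLp (fun x => ((t x : Circle) : ℂ) * ξ x) 2 μ := by
  refine hξ.of_le ?_ (Eventually.of_forall fun x => ?_)
  · refine AEStronglyMeasurable.mul ?_ hξ.aestronglyMeasurable
    exact (continuous_subtype_val.comp (map_continuous t)).aestronglyMeasurable
  · rw [norm_mul, Circle.norm_coe, one_mul]

/-- multiplication by a character -/
noncomputable def modI (μ : Measure G) [μ.IsHaarMeasure] [μ.Regular] (t : PontryaginDual G) :
    HH μ →ₗᵢ[ℂ] HH μ where
  toFun := fun ξ => MemLp.toLp (fun x => ((t x : Circle) : ℂ) * ξ x) (memLp_mod t (Lp.memLp ξ))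
  map_add' := fun ξ η => by
    rw [← MemLp.toLp_add]
    refine MemLp.toLp_congr _ _ ?_
    filter_upwards [Lp.coeFn_add ξ η] with x hx
    rw [hx]
    simp only [Pi.add_apply]
    ring
  map_smul' := fun c ξ => by
    rw [RingHom.id_apply, ← MemLp.toLp_const_smul]
    refine MemLp.toLp_congr _ _ ?_
    filter_upwards [Lp.coeFn_smul c ξ] with x hx
    rw [hx]
    simp only [Pi.smul_apply, smul_eq_mul]
    ring
  norm_map' := fun ξ => by
    refine (Lp.norm_toLp _ (memLp_mod t (Lp.memLp ξ))).trans ?_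
    rw [Lp.norm_def]
    congr 1
    refine eLpNorm_congr_norm_ae (Eventually.of_forall fun x => ?_)
    rw [norm_mul, Circle.norm_coe, one_mul]

/-- multiplication by a character, as a bounded operator -/
noncomputable def mdl (μ : Measure G) [μ.IsHaarMeasure] [μ.Regular] (t : PontryaginDual G) :
    HH μ →L[ℂ] HH μ := (modI μ t).toContinuousLinearMap

lemma mdl_coeFn (t : PontryaginDual G) (ξ : HH μ) :
    mdl μ t ξ =ᵐ[μ] fun x => ((t x : Circle) : ℂ) * ξ x :=
  MemLp.coeFn_toLp (memLp_mod t (Lp.memLp ξ))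

lemma mdl_inner (t : PontryaginDual G) (ξ η : HH μ) :
    inner ℂ (mdl μ t ξ) (mdl μ t η) = inner ℂ ξ η := (modI μ t).inner_map_map ξ η

lemma mdl_mul (s t : PontryaginDual G) : mdl μ (s * t) = mdl μ s * mdl μ t := by
  ext1 ξ
  apply Lp.ext
  filter_upwards [mdl_coeFn (μ := μ) (s * t) ξ, mdl_coeFn (μ := μ) s (mdl μ t ξ),
    mdl_coeFn (μ := μ) t ξ] with x h1 h2 h3
  change (mdl μ (s * t) ξ) x = (mdl μ s (mdl μ t ξ)) x
  rw [h1, h2, h3]
  change ((s x * t x : Circle) : ℂ) * _ = _
  rw [Circle.coe_mul, mul_assoc]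

lemma mdl_one : mdl μ (1 : PontryaginDual G) = 1 := by
  ext1 ξ
  apply Lp.ext
  filter_upwards [mdl_coeFn (μ := μ) 1 ξ] with x h1
  rw [h1]
  change ((1 : Circle) : ℂ) * _ = _
  simp

lemma mdl_star (t : PontryaginDual G) : star (mdl μ t) = mdl μ t⁻¹ := by
  rw [ContinuousLinearMap.star_eq_adjoint, eq_comm, ContinuousLinearMap.eq_adjoint_iff]
  intro ξ η
  rw [← mdl_inner t (mdl μ t⁻¹ ξ) η]
  have : mdl μ t (mdl μ t⁻¹ ξ) = ξ := by
    have h := congrArg (fun T => T ξ) (mdl_mul (μ := μ) t t⁻¹)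
    simp only [mul_inv_cancel, mdl_one] at h
    exact h.symm
  rw [this]

lemma mdl_vec {f : G → ℂ} (hf : IsCC f) (t : PontryaginDual G) :
    mdl μ t (vec hf) = vec (hf.mul_left (continuous_subtype_val.comp (map_continuous t))) := by
  apply Lp.ext
  filter_upwards [mdl_coeFn (μ := μ) t (vec hf), hf.memLp.coeFn_toLp,
    (hf.mul_left (g := fun x => ((t x : Circle) : ℂ))
      (continuous_subtype_val.comp (map_continuous t))).memLp.coeFn_toLp] with x h1 h2 h3
  rw [h1]
  unfold vec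
  rw [h2]
  exact h3.symm

lemma mdl_tau (t : PontryaginDual G) (x : G) :
    mdl μ t * tau μ x = ((t x : Circle) : ℂ) • (tau μ x * mdl μ t) := by
  ext1 ξ
  apply Lp.ext
  have h0 : tau μ x (mdl μ t ξ) =ᵐ[μ] fun y => (mdl μ t ξ) (x⁻¹ * y) :=
    DomMulAct.smul_Lp_ae_eq _ _
  have h1 : tau μ x ξ =ᵐ[μ] fun y => ξ (x⁻¹ * y) := DomMulAct.smul_Lp_ae_eq _ _
  have h2 : ∀ᵐ y ∂μ, (mdl μ t ξ) (x⁻¹ * y) = ((t (x⁻¹ * y) : Circle) : ℂ) * ξ (x⁻¹ * y) :=
    (measurePreserving_mul_left μ x⁻¹).quasiMeasurePreserving.ae (mdl_coeFn (μ := μ) t ξ)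
  filter_upwards [mdl_coeFn (μ := μ) t (tau μ x ξ), h0, h1, h2,
    Lp.coeFn_smul ((t x : Circle) : ℂ) (tau μ x (mdl μ t ξ))] with y e1 e2 e3 e4 e5
  change (mdl μ t (tau μ x ξ)) y = (((t x : Circle) : ℂ) • (tau μ x (mdl μ t ξ))) y
  rw [e1, e5, Pi.smul_apply, e2, e3, e4, smul_eq_mul, ← mul_assoc, ← Circle.coe_mul, ← map_mul]
  simp

lemma mdl_Lop {f : G → ℂ} (hf : IsCC f) (t : PontryaginDual G) :
    mdl μ t * Lop hf
      = Lop (hf.mul_left (continuous_subtype_val.comp (map_continuous t))) * mdl μ t := by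
  ext1 ξ
  rw [ContinuousLinearMap.mul_apply, Lop_apply, ContinuousLinearMap.mul_apply, Lop_apply,
    ← ContinuousLinearMap.integral_comp_comm _ (hf.integrand ξ)]
  refine integral_congr_ae (Eventually.of_forall fun y => ?_)
  simp only [map_smul]
  have := congrArg (fun T => T ξ) (mdl_tau (μ := μ) t y)
  simp only [ContinuousLinearMap.mul_apply, ContinuousLinearMap.smul_apply] at this
  rw [this, smul_smul]
  simp only [Function.comp_apply]
  rw [mul_comm]

end Pool.Agent.H48.LCA
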