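import Pool.Agent.H48.LCA.Ineq
import Pool.Agent.H48.LCA.Cover

/-!
# A large sieve inequality and separation by compactly supported functions
-/

set_option autoImplicit false
set_option linter.unusedSectionVars false
set_option linter.unusedVariables false
set_option linter.deprecated false

open MeasureTheory Filter Topology
open scoped ENNReal ComplexConjugate Pointwise

namespace Pool.Agent.H48.LCA

variable {G : Type} [CommGroup G] [TopologicalSpace G] [IsTopologicalGroup G]
  [LocallyCompactSpace G] [T2Space G] [MeasurableSpace G] [BorelSpace G]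
variable {μ : Measure G} [μ.IsHaarMeasure] [μ.Regular]
variable [MeasurableSpace (PontryaginDual G)] [BorelSpace (PontryaginDual G)]

omit [MeasurableSpace G] [BorelSpace G] [MeasurableSpace (PontryaginDual G)]
  [BorelSpace (PontryaginDual G)] in
lemma exists_compact_det' {W : Set (G →ₜ* Circle)} (hW : W ∈ 𝓝 (1 : G →ₜ* Circle)) :
    ∃ C : Set G, IsCompact C ∧ ∀ χ : G →ₜ* Circle, (∀ x ∈ C, χ x = 1) → χ ∈ W := by
  have h1 : IsInducing (ContinuousMonoidHom.toContinuousMap : (G →ₜ* Circle) → C(G, Circle)) :=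
    ContinuousMonoidHom.isInducing_toContinuousMap G Circle
  rw [h1.nhds_eq_comap, mem_comap] at hW
  obtain ⟨V, hV, hVW⟩ := hW
  obtain ⟨⟨C, E⟩, ⟨hC, hE⟩, hCE⟩ := (nhds_basis_uniformity'
    (ContinuousMap.hasBasis_compactConvergenceUniformity (α := G) (β := Circle))).mem_iff.1 hV
  refine ⟨C, hC, fun χ hχ => hVW ?_⟩
  refine hCE ?_
  intro x hx
  have h3 : χ x = 1 := hχ x hx
  have h4 : ((1 : G →ₜ* Circle).toContinuousMap x, (ContinuousMonoidHom.toContinuousMap χ) x)
      = ((1 : Circle), (1 : Circle)) := by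
    refine Prod.ext rfl ?_
    exact h3
  change ((1 : G →ₜ* Circle).toContinuousMap x, (ContinuousMonoidHom.toContinuousMap χ) x) ∈ E
  rw [h4]
  exact refl_mem_uniformity hE

omit [MeasurableSpace G] [BorelSpace G] [MeasurableSpace (PontryaginDual G)]
  [BorelSpace (PontryaginDual G)] in
/-- Neighbourhoods of the trivial character are detected on compact sets -/
lemma exists_compact_det {W : Set (PontryaginDual G)} (hW : W ∈ 𝓝 (1 : PontryaginDual G)) :
    ∃ C : Set G, IsCompact C ∧ ∀ χ : PontryaginDual G, (∀ x ∈ C, χ x = 1) → χ ∈ W :=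
  exists_compact_det' (G := G) (W := W) hW

/-- separation -/
lemma exists_sep (μ : Measure G) [μ.IsHaarMeasure] [μ.Regular] {W : Set (PontryaginDual G)}
    (hW : W ∈ 𝓝 (1 : PontryaginDual G)) :
    ∃ g : G → ℝ, IsC g ∧ (∀ x, 0 ≤ g x) ∧ ∫ x, g x ∂μ = 1 ∧
      ∀ χ, ‖fr μ g χ‖ = 1 → χ ∈ W := by
  obtain ⟨C, hC, hCW⟩ := exists_compact_det hW
  obtain ⟨f, hf1, hf2, hf3, hf4⟩ := exists_continuousMap_one_of_isCompact_subset_isOpen
    (hC.union (isCompact_singleton (x := (1 : G)))) isOpen_univ (Set.subset_univ _)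
  have hpos : 0 < ∫ x, f x ∂μ := by
    refine f.continuous.integral_pos_of_hasCompactSupport_nonneg_nonzero hf2
      (fun x => (hf4 x).1) (x := 1) ?_
    rw [hf1 (Or.inr rfl)]; simp
  set g : G → ℝ := fun x => (∫ y, f y ∂μ)⁻¹ * f x with hg
  have hgC : IsC g := ⟨continuous_const.mul f.continuous, HasCompactSupport.mul_left hf2⟩
  have hg0 : ∀ x, 0 ≤ g x := fun x => mul_nonneg (inv_nonneg.2 hpos.le) (hf4 x).1
  have hg1 : ∫ x, g x ∂μ = 1 := by
    simp only [hg]
    rw [integral_const_mul, inv_mul_cancel₀ hpos.ne']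
  have hgpos : ∀ x ∈ C ∪ {1}, 0 < g x := by
    intro x hx
    have : f x = 1 := hf1 hx
    simp only [hg, this, mul_one]
    exact inv_pos.2 hpos
  refine ⟨g, hgC, hg0, hg1, fun χ hχ => hCW χ fun x hx => ?_⟩
  set u : ℂ := fr μ g χ with hu
  have hu1 : ‖u‖ = 1 := hχ
  -- ∫ g (1 - Re (conj u * χ)) = 0
  have hcχ : Continuous fun x : G => ((χ x : Circle) : ℂ) :=
    continuous_subtype_val.comp (map_continuous χ)
  have hnn : ∀ x, 0 ≤ g x * (1 - (conj u * ((χ x : Circle) : ℂ)).re) := by
    intro x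
    refine mul_nonneg (hg0 x) ?_
    have h1 : (conj u * ((χ x : Circle) : ℂ)).re ≤ ‖conj u * ((χ x : Circle) : ℂ)‖ :=
      Complex.re_le_norm _
    rw [norm_mul, RCLike.norm_conj, hu1, Circle.norm_coe, one_mul] at h1
    linarith
  have hcont : Continuous fun x => g x * (1 - (conj u * ((χ x : Circle) : ℂ)).re) :=
    hgC.1.mul (continuous_const.sub (Complex.continuous_re.comp (continuous_const.mul hcχ)))
  have hint : ∫ x, g x * (1 - (conj u * ((χ x : Circle) : ℂ)).re) ∂μ = 0 := by
    have e1 : ∀ x, g x * (1 - (conj u * ((χ x : Circle) : ℂ)).re)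
        = g x - (conj u * ((g x : ℂ) * ((χ x : Circle) : ℂ))).re := by
      intro x
      have : conj u * ((g x : ℂ) * ((χ x : Circle) : ℂ)) = (g x : ℂ) * (conj u * ((χ x : Circle) : ℂ)) := by
        ring
      rw [this, Complex.re_ofReal_mul]
      ring
    simp only [e1]
    have i1 : Integrable (fun x => (g x : ℂ) * ((χ x : Circle) : ℂ)) μ :=
      (Complex.continuous_ofReal.comp hgC.1 |>.mul hcχ).integrable_of_hasCompactSupport
        (hgC.cc.2.mul_right)
    have i2 : Integrable (fun x => conj u * ((g x : ℂ) * ((χ x : Circle) : ℂ))) μ := i1.const_mul _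
    have i3 : Integrable (fun x => (conj u * ((g x : ℂ) * ((χ x : Circle) : ℂ))).re) μ := i2.re
    rw [integral_sub hgC.integrable i3, hg1]
    have h2 : ∫ x, (conj u * ((g x : ℂ) * ((χ x : Circle) : ℂ))).re ∂μ
        = (∫ x, conj u * ((g x : ℂ) * ((χ x : Circle) : ℂ)) ∂μ).re := by
      have := integral_re i2
      exact this
    rw [h2, integral_const_mul]
    have h3 : ∫ x, (g x : ℂ) * ((χ x : Circle) : ℂ) ∂μ = u := rfl
    rw [h3, ← Complex.normSq_eq_conj_mul_self, Complex.ofReal_re, Complex.normSq_eq_norm_sq, hu1]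
    norm_num
  have hzero : ∀ x, g x * (1 - (conj u * ((χ x : Circle) : ℂ)).re) = 0 := by
    intro x
    by_contra hne
    have h1 := hcont.integral_pos_of_hasCompactSupport_nonneg_nonzero (μ := μ)
      (hgC.2.mul_right) hnn hne
    linarith
  have hval : ∀ x ∈ C ∪ {1}, ((χ x : Circle) : ℂ) = u := by
    intro x hx
    have h1 := hzero x
    have h2 := hgpos x hx
    have h3 : (conj u * ((χ x : Circle) : ℂ)).re = 1 := by
      rcases mul_eq_zero.1 h1 with h | h
      · linarith
      · linarith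
    have h4 : ‖conj u * ((χ x : Circle) : ℂ)‖ = 1 := by
      rw [norm_mul, RCLike.norm_conj, hu1, Circle.norm_coe, one_mul]
    have h5 : conj u * ((χ x : Circle) : ℂ) = 1 := by
      set z := conj u * ((χ x : Circle) : ℂ) with hz
      have h6 : z.re ^ 2 + z.im ^ 2 = 1 := by
        have := Complex.normSq_apply z
        rw [Complex.normSq_eq_norm_sq, h4] at this
        nlinarith
      have h7 : z.im = 0 := by
        rw [h3] at h6
        nlinarith
      exact Complex.ext (by simpa using h3) (by simpa using h7)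
    have h6 : u * (conj u * ((χ x : Circle) : ℂ)) = u := by rw [h5, mul_one]
    rw [← mul_assoc, Complex.mul_conj, Complex.normSq_eq_norm_sq, hu1] at h6
    simpa using h6
  have hone : ((χ 1 : Circle) : ℂ) = 1 := by
    rw [_root_.map_one]; rfl
  have h8 : u = 1 := by rw [← hval 1 (Or.inr rfl), hone]
  have h9 := hval x (Or.inl hx)
  rw [h8] at h9
  exact Subtype.ext h9

/-- the large sieve inequality -/
lemma large_sieve (ν : Measure (PontryaginDual G)) [ν.IsHaarMeasure] [ν.Regular]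
    {g : G → ℂ} (hg : IsCC g) :
    ∃ (W' : Set (PontryaginDual G)) (A : ℝ≥0∞) (g₁ : G → ℂ), IsCC g₁ ∧ IsCompact W' ∧ A ≠ ⊤ ∧
      ∀ t, ENNReal.ofReal (‖ft μ g t‖ ^ 2) ≤ A * ∫⁻ w,
        Set.indicator W' (fun _ => (1 : ℝ≥0∞)) (t⁻¹ * w) * ENNReal.ofReal (‖ft μ g₁ w‖ ^ 2) ∂ν := by
  have hO : ∀ᶠ w : PontryaginDual G in 𝓝 1, ∀ x ∈ tsupport g, ‖((w x : Circle) : ℂ) - 1‖ < 1 / 2 := by
    refine IsCompact.eventually_forall_of_forall_eventually hg.2 fun x hx => ?_
    have h1 : Continuous fun p : PontryaginDual G × G => ‖((p.1 p.2 : Circle) : ℂ) - 1‖ :=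
      (continuous_pd_eval.sub continuous_const).norm
    have h2 := h1.tendsto ((1 : PontryaginDual G), x)
    have h3 : ‖(((1 : PontryaginDual G) x : Circle) : ℂ) - 1‖ = 0 := by
      have : (1 : PontryaginDual G) x = 1 := rfl
      rw [this, Circle.coe_one, sub_self, norm_zero]
    refine h2.eventually (gt_mem_nhds ?_)
    change ‖(((1 : PontryaginDual G) x : Circle) : ℂ) - 1‖ < 1 / 2
    rw [h3]; norm_num
  obtain ⟨b, hb1, hb2, hb3, hb4, hb5⟩ := exists_bump ν hO
  set θ : G → ℂ := fun x => ∫ w, (b w : ℂ) * ((w x : Circle) : ℂ) ∂ν with hθ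
  have hbi : Integrable b ν := hb1.integrable_of_hasCompactSupport hb2
  have hθc : Continuous θ := by
    rw [← continuousOn_univ]
    refine continuousOn_integral_of_compact_support (k := tsupport b) hb2 ?_ ?_
    · refine Continuous.continuousOn ?_
      have h1 : Continuous fun p : G × PontryaginDual G => ((p.2 p.1 : Circle) : ℂ) :=
        continuous_pd_eval.comp continuous_swap
      exact (Complex.continuous_ofReal.comp (hb1.comp continuous_snd)).mul h1
    · intro y x _ hx
      rw [image_eq_zero_of_notMem_tsupport hx]; simp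
  have hcw : ∀ x : G, Continuous fun w : PontryaginDual G => ((w x : Circle) : ℂ) := fun x =>
    continuous_pd_eval.comp (continuous_id.prodMk continuous_const)
  have hθi : ∀ x, Integrable (fun w : PontryaginDual G => (b w : ℂ) * ((w x : Circle) : ℂ)) ν := by
    intro x
    refine ((Complex.continuous_ofReal.comp hb1).mul (hcw x)).integrable_of_hasCompactSupport ?_
    exact HasCompactSupport.mul_right (hb2.comp_left (g := ((↑) : ℝ → ℂ)) Complex.ofReal_zero)
  have hbi' : Integrable (fun w => (b w : ℂ)) ν := hbi.ofReal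
  have hθ1 : ∀ x ∈ tsupport g, 1 / 2 ≤ ‖θ x‖ := by
    intro x hx
    have h1 : θ x - 1 = ∫ w, (b w : ℂ) * (((w x : Circle) : ℂ) - 1) ∂ν := by
      have e1 : ∀ w : PontryaginDual G, (b w : ℂ) * (((w x : Circle) : ℂ) - 1)
          = (b w : ℂ) * ((w x : Circle) : ℂ) - (b w : ℂ) := fun w => by ring
      simp only [e1]
      rw [integral_sub (hθi x) hbi']
      have e2 : ∫ w, (b w : ℂ) ∂ν = 1 := by
        have h3 := integral_ofReal (μ := ν) (f := b) (𝕜 := ℂ)
        refine Eq.trans h3 ?_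
        rw [hb5]; simp
      rw [e2]
    have h2 : ‖θ x - 1‖ ≤ ∫ w, b w * (1 / 2) ∂ν := by
      rw [h1]
      refine norm_integral_le_of_norm_le (hbi.mul_const _) (Eventually.of_forall fun w => ?_)
      rw [norm_mul, Complex.norm_real, Real.norm_eq_abs, abs_of_nonneg (hb3 w)]
      by_cases hw : w ∈ tsupport b
      · exact mul_le_mul_of_nonneg_left (hb4 hw x hx).le (hb3 w)
      · rw [image_eq_zero_of_notMem_tsupport hw]; simp
    rw [integral_mul_const, hb5] at h2
    have h3 : ‖(1 : ℂ)‖ ≤ ‖θ x‖ + ‖θ x - 1‖ := by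
      have : (1 : ℂ) = θ x - (θ x - 1) := by ring
      calc ‖(1 : ℂ)‖ = ‖θ x - (θ x - 1)‖ := by rw [← this]
        _ ≤ _ := norm_sub_le _ _
    rw [norm_one] at h3
    linarith
  set g₁ : G → ℂ := fun x => (conj (θ x) / ((max (‖θ x‖ ^ 2) (1 / 4) : ℝ) : ℂ)) * g x with hg₁
  have hg₁c : IsCC g₁ := by
    refine hg.mul_left (g := fun x => conj (θ x) / ((max (‖θ x‖ ^ 2) (1 / 4) : ℝ) : ℂ)) ?_
    refine (Complex.continuous_conj.comp hθc).div
      (Complex.continuous_ofReal.comp ((hθc.norm.pow 2).max continuous_const)) fun x => ?_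
    have : (0 : ℝ) < max (‖θ x‖ ^ 2) (1 / 4) := lt_max_of_lt_right (by norm_num)
    exact_mod_cast this.ne'
  have hgg : ∀ x, g x = g₁ x * θ x := by
    intro x
    by_cases hx : x ∈ tsupport g
    · have h1 := hθ1 x hx
      have h2 : max (‖θ x‖ ^ 2) (1 / 4) = ‖θ x‖ ^ 2 := by
        refine max_eq_left ?_
        nlinarith
      simp only [hg₁, h2]
      have h3 : (θ x) * conj (θ x) = ((‖θ x‖ ^ 2 : ℝ) : ℂ) := by
        rw [Complex.mul_conj, Complex.normSq_eq_norm_sq]
      have h4 : ((‖θ x‖ ^ 2 : ℝ) : ℂ) ≠ 0 := by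
        have : (0 : ℝ) < ‖θ x‖ ^ 2 := by nlinarith
        exact_mod_cast this.ne'
      calc g x = (((‖θ x‖ ^ 2 : ℝ) : ℂ) / ((‖θ x‖ ^ 2 : ℝ) : ℂ)) * g x := by
            rw [div_self h4, one_mul]
        _ = _ := by
          conv_lhs => rw [← h3]
          rw [h3]
          have : (θ x * conj (θ x)) / ((‖θ x‖ ^ 2 : ℝ) : ℂ) = conj (θ x) / ((‖θ x‖ ^ 2 : ℝ) : ℂ) * θ x := by
            ring
          rw [← h3] at this ⊢
          rw [this]
          ring
    · simp only [hg₁]
      rw [image_eq_zero_of_notMem_tsupport hx]; simp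
  have hrep : ∀ t, ft μ g t = ∫ w, (b w : ℂ) * ft μ g₁ (t * w) ∂ν := by
    intro t
    unfold ft
    have e1 : ∀ x, g x * ((t x : Circle) : ℂ)
        = ∫ w, (b w : ℂ) * (g₁ x * (((t * w) x : Circle) : ℂ)) ∂ν := by
      intro x
      have e2 : ∀ w : PontryaginDual G, (b w : ℂ) * (g₁ x * (((t * w) x : Circle) : ℂ))
          = (g₁ x * ((t x : Circle) : ℂ)) * ((b w : ℂ) * ((w x : Circle) : ℂ)) := by
        intro w
        change (b w : ℂ) * (g₁ x * ((t x * w x : Circle) : ℂ)) = _
        rw [Circle.coe_mul]; ring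
      simp only [e2]
      rw [integral_const_mul, hgg x]
      ring
    simp only [e1]
    rw [integral_integral_swap_of_hasCompactSupport]
    · refine integral_congr_ae (Eventually.of_forall fun w => ?_)
      simp only
      rw [integral_const_mul]
    · change Continuous fun p : G × PontryaginDual G =>
        (b p.2 : ℂ) * (g₁ p.1 * (((t * p.2) p.1 : Circle) : ℂ))
      refine (Complex.continuous_ofReal.comp (hb1.comp continuous_snd)).mul
        ((hg₁c.1.comp continuous_fst).mul ?_)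
      exact continuous_pd_eval.comp ((continuous_const.mul continuous_snd).prodMk continuous_fst)
    · refine hasCompactSupport_prod (K := tsupport g₁) (L := tsupport b) hg₁c.2 hb2 fun p hp => ?_
      change (b p.2 : ℂ) * (g₁ p.1 * (((t * p.2) p.1 : Circle) : ℂ)) = 0
      rcases hp with hp | hp
      · rw [image_eq_zero_of_notMem_tsupport hp]; simp
      · rw [image_eq_zero_of_notMem_tsupport hp]; simp
  obtain ⟨S, hS⟩ : ∃ S : ℝ, ∀ w, b w ≤ S := by
    obtain ⟨S, hS⟩ := hb2.exists_bound_of_continuous hb1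
    exact ⟨S, fun w => (Real.le_norm_self _).trans (hS w)⟩
  refine ⟨tsupport b, ENNReal.ofReal S, g₁, hg₁c, hb2, ENNReal.ofReal_ne_top, fun t => ?_⟩
  set f : PontryaginDual G → ℝ := fun w => ‖ft μ g₁ (t * w)‖ with hf
  have hfc : Continuous f := ((continuous_ft hg₁c).comp (continuous_const.mul continuous_id)).norm
  have hbf : Integrable (fun w => b w * f w) ν :=
    (hb1.mul hfc).integrable_of_hasCompactSupport hb2.mul_right
  have hbf2 : Integrable (fun w => b w * f w ^ 2) ν :=
    (hb1.mul (hfc.pow 2)).integrable_of_hasCompactSupport hb2.mul_right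
  set m : ℝ := ∫ w, b w * f w ∂ν with hm
  have hm1 : ‖ft μ g t‖ ≤ m := by
    rw [hrep t]
    refine norm_integral_le_of_norm_le hbf (Eventually.of_forall fun w => ?_)
    rw [norm_mul, Complex.norm_real, Real.norm_eq_abs, abs_of_nonneg (hb3 w)]
  have hm2 : m ^ 2 ≤ ∫ w, b w * f w ^ 2 ∂ν := by
    have h1 : 0 ≤ ∫ w, b w * (f w - m) ^ 2 ∂ν :=
      integral_nonneg fun w => mul_nonneg (hb3 w) (sq_nonneg _)
    have e1 : ∀ w, b w * (f w - m) ^ 2 = b w * f w ^ 2 - 2 * m * (b w * f w) + m ^ 2 * b w :=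
      fun w => by ring
    simp only [e1] at h1
    have i1 : Integrable (fun w => 2 * m * (b w * f w)) ν := hbf.const_mul _
    have i2 : Integrable (fun w => b w * f w ^ 2 - 2 * m * (b w * f w)) ν := hbf2.sub i1
    have i3 : Integrable (fun w => m ^ 2 * b w) ν := hbi.const_mul _
    rw [integral_add i2 i3, integral_sub hbf2 i1, integral_const_mul, integral_const_mul, hb5,
      ← hm] at h1
    nlinarith
  have hm3 : ‖ft μ g t‖ ^ 2 ≤ ∫ w, b w * f w ^ 2 ∂ν :=
    (pow_le_pow_left₀ (norm_nonneg _) hm1 2).trans hm2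
  calc ENNReal.ofReal (‖ft μ g t‖ ^ 2) ≤ ENNReal.ofReal (∫ w, b w * f w ^ 2 ∂ν) :=
        ENNReal.ofReal_le_ofReal hm3
    _ = ∫⁻ w, ENNReal.ofReal (b w * f w ^ 2) ∂ν :=
        ofReal_integral_eq_lintegral_ofReal hbf2
          (Eventually.of_forall fun w => mul_nonneg (hb3 w) (sq_nonneg _))
    _ ≤ ∫⁻ w, ENNReal.ofReal S * (Set.indicator (tsupport b) (fun _ => (1 : ℝ≥0∞)) w
          * ENNReal.ofReal (‖ft μ g₁ (t * w)‖ ^ 2)) ∂ν := by
        refine lintegral_mono fun w => ?_
        by_cases hw : w ∈ tsupport b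
        · rw [Set.indicator_of_mem hw, one_mul, ← ENNReal.ofReal_mul ((hb3 w).trans (hS w))]
          exact ENNReal.ofReal_le_ofReal (mul_le_mul_of_nonneg_right (hS w) (sq_nonneg _))
        · rw [image_eq_zero_of_notMem_tsupport hw, zero_mul, ENNReal.ofReal_zero]
          exact bot_le
    _ = ENNReal.ofReal S * ∫⁻ w, Set.indicator (tsupport b) (fun _ => (1 : ℝ≥0∞)) w
          * ENNReal.ofReal (‖ft μ g₁ (t * w)‖ ^ 2) ∂ν := by
        rw [lintegral_const_mul' _ _ ENNReal.ofReal_ne_top]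
    _ = _ := by
        congr 1
        rw [← lintegral_mul_left_eq_self (fun w => Set.indicator (tsupport b)
          (fun _ => (1 : ℝ≥0∞)) (t⁻¹ * w) * ENNReal.ofReal (‖ft μ g₁ w‖ ^ 2)) t]
        simp only [inv_mul_cancel_left]

end Pool.Agent.H48.LCA
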