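import Pool.Agent.H48.LCA.FC

/-!
# Spectral measures
-/

set_option autoImplicit false
set_option linter.unusedSectionVars false
set_option linter.unusedVariables false
set_option linter.deprecated false

open MeasureTheory Filter Topology WeakDual
open scoped ENNReal ComplexConjugate Pointwise

namespace Pool.Agent.H48.LCA

variable {G : Type} [CommGroup G] [TopologicalSpace G] [IsTopologicalGroup G]
  [LocallyCompactSpace G] [T2Space G] [MeasurableSpace G] [BorelSpace G]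
variable {μ : Measure G} [μ.IsHaarMeasure] [μ.Regular]

lemma IsCR.add {ψ φ : PontryaginDual G → ℝ} (hψ : IsCR ψ) (hφ : IsCR φ) :
    IsCR (fun χ => ψ χ + φ χ) := ⟨hψ.1.add hφ.1, hψ.2.add hφ.2⟩

lemma IsCR.const_mul {ψ : PontryaginDual G → ℝ} (hψ : IsCR ψ) (c : ℝ) :
    IsCR (fun χ => c * ψ χ) := ⟨continuous_const.mul hψ.1, hψ.2.mul_left⟩

lemma IsCR.mul_right {ψ φ : PontryaginDual G → ℝ} (hψ : IsCR ψ) (hφ : Continuous φ) :
    IsCR (fun χ => ψ χ * φ χ) := ⟨hψ.1.mul hφ, hψ.2.mul_right⟩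

lemma IsCR.translate {ψ : PontryaginDual G → ℝ} (hψ : IsCR ψ) (t : PontryaginDual G) :
    IsCR (fun χ => ψ (t * χ)) :=
  ⟨hψ.1.comp (continuous_const.mul continuous_id), hψ.2.comp_homeomorph (Homeomorph.mulLeft t)⟩

lemma IsCR.sqrt {ψ : PontryaginDual G → ℝ} (hψ : IsCR ψ) :
    IsCR (fun χ => Real.sqrt (ψ χ)) :=
  ⟨Real.continuous_sqrt.comp hψ.1, hψ.2.comp_left Real.sqrt_zero⟩

lemma PP_add {ψ φ : PontryaginDual G → ℝ} (hψ : IsCR ψ) (hφ : IsCR φ) :
    PP μ (hψ.add hφ) = PP μ hψ + PP μ hφ := by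
  apply SA_ext
  intro κ
  rw [map_add, char_PP, char_PP, char_PP]
  by_cases h : NT κ
  · rw [til_NT h, til_NT h, til_NT h]; push_cast; rfl
  · rw [til_not_NT h, til_not_NT h, til_not_NT h]; simp

lemma PP_const_mul {ψ : PontryaginDual G → ℝ} (hψ : IsCR ψ) (c : ℝ) :
    PP μ (hψ.const_mul c) = (c : ℂ) • PP μ hψ := by
  apply SA_ext
  intro κ
  rw [map_smul, char_PP, char_PP, smul_eq_mul]
  by_cases h : NT κ
  · rw [til_NT h, til_NT h]; push_cast; rfl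
  · rw [til_not_NT h, til_not_NT h]; simp

lemma PP_ft {ψ : PontryaginDual G → ℝ} (hψ : IsCR ψ) {f : G → ℂ} (hf : IsCC f) :
    PP μ (hψ.mul_right (φ := fun χ => ‖ft μ f χ‖ ^ 2) ((continuous_ft hf).norm.pow 2))
      = star (lA hf) * (PP μ hψ * lA hf) := by
  apply SA_ext
  intro κ
  rw [map_mul, map_mul, map_star, char_PP, char_PP]
  by_cases h : NT κ
  · rw [til_NT h, til_NT h, char_lA h]
    push_cast
    have h1 : ((‖ft μ f (jj κ h)‖ : ℝ) : ℂ) ^ 2 = star (ft μ f (jj κ h)) * ft μ f (jj κ h) := by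
      rw [Complex.star_def, mul_comm, Complex.mul_conj, Complex.normSq_eq_norm_sq]
      push_cast; rfl
    rw [h1]; ring
  · rw [til_not_NT h, til_not_NT h]; simp

lemma PP_eq_star_mul {ψ : PontryaginDual G → ℝ} (hψ : IsCR ψ) (h0 : ∀ χ, 0 ≤ ψ χ) :
    PP μ hψ = star (PP μ hψ.sqrt) * PP μ hψ.sqrt := by
  apply SA_ext
  intro κ
  rw [map_mul, map_star, char_PP, char_PP]
  by_cases h : NT κ
  · rw [til_NT h, til_NT h, Complex.star_def, Complex.conj_ofReal, ← Complex.ofReal_mul,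
      Real.mul_self_sqrt (h0 _)]
  · rw [til_not_NT h, til_not_NT h]; simp

/-- the quadratic form -/
noncomputable def qf (ξ : HH μ) (a : SA μ) : ℝ := (inner ℂ ξ ((a : HH μ →L[ℂ] HH μ) ξ) : ℂ).re

lemma qf_add (ξ : HH μ) (a b : SA μ) : qf ξ (a + b) = qf ξ a + qf ξ b := by
  unfold qf
  rw [← Complex.add_re, ← inner_add_right]
  rfl

lemma qf_smul (ξ : HH μ) (c : ℝ) (a : SA μ) : qf ξ ((c : ℂ) • a) = c * qf ξ a := by
  unfold qf
  have : (((c : ℂ) • a : SA μ) : HH μ →L[ℂ] HH μ) ξ = (c : ℂ) • ((a : HH μ →L[ℂ] HH μ) ξ) := rfl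
  rw [this, inner_smul_right, Complex.re_ofReal_mul]

lemma qf_star_mul_mul (ξ : HH μ) (a b : SA μ) :
    qf ξ (star a * (b * a)) = qf ((a : HH μ →L[ℂ] HH μ) ξ) b := by
  unfold qf
  congr 1
  change inner ℂ ξ ((star (a : HH μ →L[ℂ] HH μ)) ((b : HH μ →L[ℂ] HH μ) ((a : HH μ →L[ℂ] HH μ) ξ))) = _
  rw [ContinuousLinearMap.star_eq_adjoint, ContinuousLinearMap.adjoint_inner_right]

lemma qf_nonneg {ψ : PontryaginDual G → ℝ} (hψ : IsCR ψ) (h0 : ∀ χ, 0 ≤ ψ χ) (ξ : HH μ) :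
    0 ≤ qf ξ (PP μ hψ) := by
  rw [PP_eq_star_mul hψ h0]
  have h1 : star (PP μ hψ.sqrt) * PP μ hψ.sqrt = star (PP μ hψ.sqrt) * (1 * PP μ hψ.sqrt) := by
    rw [one_mul]
  rw [h1, qf_star_mul_mul]
  unfold qf
  change 0 ≤ (inner ℂ _ ((1 : HH μ →L[ℂ] HH μ) _) : ℂ).re
  rw [ContinuousLinearMap.one_apply]
  exact inner_self_nonneg (𝕜 := ℂ)

variable [MeasurableSpace (PontryaginDual G)] [BorelSpace (PontryaginDual G)]

open CompactlySupported

omit [MeasurableSpace (PontryaginDual G)] [BorelSpace (PontryaginDual G)] in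
lemma isCR_coe (ψ : C_c(PontryaginDual G, ℝ)) : IsCR (ψ : PontryaginDual G → ℝ) :=
  ⟨ψ.continuous, ψ.hasCompactSupport⟩

/-- the positive functional -/
noncomputable def Lam (ξ : HH μ) : C_c(PontryaginDual G, ℝ) →ₚ[ℝ] ℝ :=
  PositiveLinearMap.mk₀
    { toFun := fun ψ => qf ξ (PP μ (isCR_coe ψ))
      map_add' := fun ψ φ =>
        (congrArg (qf ξ) (PP_add (μ := μ) (isCR_coe ψ) (isCR_coe φ))).trans (qf_add _ _ _)
      map_smul' := fun c ψ =>
        (congrArg (qf ξ) (PP_const_mul (μ := μ) (isCR_coe ψ) c)).trans (qf_smul _ _ _) }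
    (fun ψ h0 => qf_nonneg (isCR_coe ψ) (fun χ => h0 χ) ξ)

/-- the spectral measure -/
noncomputable def spm (ξ : HH μ) : Measure (PontryaginDual G) := RealRMK.rieszMeasure (Lam ξ)

instance (ξ : HH μ) : (spm ξ).Regular := RealRMK.regular_rieszMeasure _

lemma integral_spm (ξ : HH μ) {ψ : PontryaginDual G → ℝ} (hψ : IsCR ψ) :
    ∫ χ, ψ χ ∂(spm ξ) = qf ξ (PP μ hψ) :=
  RealRMK.integral_rieszMeasure (Lam ξ) ⟨⟨ψ, hψ.1⟩, hψ.2⟩

section modulation

omit [MeasurableSpace (PontryaginDual G)] [BorelSpace (PontryaginDual G)]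

lemma mdl_mul_inv (t : PontryaginDual G) : mdl μ t * mdl μ t⁻¹ = 1 := by
  rw [← mdl_mul, mul_inv_cancel, mdl_one]

lemma mdl_inv_mul (t : PontryaginDual G) : mdl μ t⁻¹ * mdl μ t = 1 := by
  rw [← mdl_mul, inv_mul_cancel, mdl_one]

/-- conjugation by a modulation as a star algebra homomorphism -/
noncomputable def alph (μ : Measure G) [μ.IsHaarMeasure] [μ.Regular] (t : PontryaginDual G) :
    SA μ →⋆ₐ[ℂ] SA μ where
  toFun := fun a => ⟨mdl μ t * a * mdl μ t⁻¹, mdl_conj_mem t a.2⟩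
  map_one' := Subtype.ext (by
    change mdl μ t * 1 * mdl μ t⁻¹ = 1
    rw [mul_one, mdl_mul_inv])
  map_mul' := fun a b => Subtype.ext (by
    change mdl μ t * (a.1 * b.1) * mdl μ t⁻¹ = (mdl μ t * a.1 * mdl μ t⁻¹) * (mdl μ t * b.1 * mdl μ t⁻¹)
    have : (mdl μ t * a.1 * mdl μ t⁻¹) * (mdl μ t * b.1 * mdl μ t⁻¹)
        = mdl μ t * a.1 * (mdl μ t⁻¹ * mdl μ t) * b.1 * mdl μ t⁻¹ := by simp only [mul_assoc]
    rw [this, mdl_inv_mul, mul_one]; simp only [mul_assoc])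
  map_zero' := Subtype.ext (by
    change mdl μ t * 0 * mdl μ t⁻¹ = 0
    rw [mul_zero, zero_mul])
  map_add' := fun a b => Subtype.ext (by
    change mdl μ t * (a.1 + b.1) * mdl μ t⁻¹ = mdl μ t * a.1 * mdl μ t⁻¹ + mdl μ t * b.1 * mdl μ t⁻¹
    rw [mul_add, add_mul])
  commutes' := fun c => Subtype.ext (by
    change mdl μ t * (algebraMap ℂ (HH μ →L[ℂ] HH μ) c) * mdl μ t⁻¹ = algebraMap ℂ (HH μ →L[ℂ] HH μ) c
    rw [← Algebra.commutes, mul_assoc, mdl_mul_inv, mul_one])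
  map_star' := fun a => Subtype.ext (by
    change mdl μ t * star a.1 * mdl μ t⁻¹ = star (mdl μ t * a.1 * mdl μ t⁻¹)
    rw [star_mul, star_mul, mdl_star, mdl_star, inv_inv, mul_assoc])

lemma alph_tA (t : PontryaginDual G) (x : G) :
    alph μ t (tA μ x) = ((t x : Circle) : ℂ) • tA μ x := by
  apply Subtype.ext
  change mdl μ t * tau μ x * mdl μ t⁻¹ = ((t x : Circle) : ℂ) • tau μ x
  rw [mdl_tau, smul_mul_assoc, mul_assoc, mdl_mul_inv, mul_one]

lemma alph_lA (t : PontryaginDual G) {f : G → ℂ} (hf : IsCC f) :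
    alph μ t (lA hf) = lA (hf.mul_left (continuous_subtype_val.comp (map_continuous t))) := by
  apply Subtype.ext
  change mdl μ t * Lop hf * mdl μ t⁻¹ = _
  rw [mdl_Lop, mul_assoc, mdl_mul_inv, mul_one]
  rfl

/-- the action on the spectrum -/
noncomputable def act (t : PontryaginDual G) (κ : CH μ) : CH μ :=
  CharacterSpace.compContinuousMap (alph μ t) κ

lemma act_apply (t : PontryaginDual G) (κ : CH μ) (a : SA μ) : act t κ a = κ (alph μ t a) := rfl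

lemma NT_act (t : PontryaginDual G) {κ : CH μ} : NT (act t κ) ↔ NT κ := by
  constructor
  · rintro ⟨f, hf, h⟩
    rw [act_apply, alph_lA] at h
    exact ⟨_, _, h⟩
  · rintro ⟨f, hf, h⟩
    refine ⟨_, hf.mul_left (g := fun x => ((t⁻¹ x : Circle) : ℂ))
      (continuous_subtype_val.comp (map_continuous t⁻¹)), ?_⟩
    rw [act_apply, alph_lA]
    have h1 : (fun x => ((Subtype.val ∘ t) x : ℂ) * (((t⁻¹ x : Circle) : ℂ) * f x)) = f := by
      funext x
      have h3 : ((t x : Circle) : ℂ) * ((t⁻¹ x : Circle) : ℂ) = 1 := by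
        rw [← Circle.coe_mul]
        have : t x * t⁻¹ x = 1 := by
          change t x * (t x)⁻¹ = 1
          exact mul_inv_cancel _
        rw [this]; rfl
      change ((t x : Circle) : ℂ) * (((t⁻¹ x : Circle) : ℂ) * f x) = f x
      rw [← mul_assoc, h3, one_mul]
    have h2 : ∀ {g : G → ℂ} (hg : IsCC g), g = f → κ (lA hg) = κ (lA hf) := by
      intro g hg hgf; subst hgf; rfl
    rw [h2 _ h1]
    exact h

lemma jj_act (t : PontryaginDual G) {κ : CH μ} (h : NT κ) :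
    jj (act t κ) ((NT_act t).2 h) = t * jj κ h := by
  apply PontryaginDual.ext
  intro x
  apply Circle.ext
  rw [jj_apply, act_apply, alph_tA, map_smul, smul_eq_mul, ← jj_apply κ h]
  rfl

lemma til_act (t : PontryaginDual G) (ψ : PontryaginDual G → ℝ) (κ : CH μ) :
    til ψ (act t κ) = til (fun χ => ψ (t * χ)) κ := by
  by_cases h : NT κ
  · rw [til_NT ((NT_act t).2 h), til_NT h, jj_act]
  · rw [til_not_NT (fun h' => h ((NT_act t).1 h')), til_not_NT h]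

lemma alph_PP (t : PontryaginDual G) {ψ : PontryaginDual G → ℝ} (hψ : IsCR ψ) :
    alph μ t (PP μ hψ) = PP μ (hψ.translate t) := by
  refine SA_ext fun κ => ?_
  refine (act_apply t κ (PP μ hψ)).symm.trans ((char_PP hψ (act t κ)).trans ?_)
  rw [til_act]
  exact (char_PP (hψ.translate t) κ).symm

lemma alph_coe (t : PontryaginDual G) (a : SA μ) :
    (alph μ t a : HH μ →L[ℂ] HH μ) = mdl μ t * (a : HH μ →L[ℂ] HH μ) * mdl μ t⁻¹ := rfl

lemma inner_mdl_left (t : PontryaginDual G) (ξ η : HH μ) :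
    (inner ℂ (mdl μ t ξ) η : ℂ) = inner ℂ ξ (mdl μ t⁻¹ η) := by
  rw [← mdl_star, ContinuousLinearMap.star_eq_adjoint, ContinuousLinearMap.adjoint_inner_right]

lemma qf_mdl' (t : PontryaginDual G) (ξ : HH μ) (a : SA μ) :
    qf (mdl μ t ξ) a = qf ξ (alph μ t⁻¹ a) := by
  unfold qf
  rw [inner_mdl_left, alph_coe, inv_inv]
  rfl

lemma qf_mdl (t : PontryaginDual G) (ξ : HH μ) {ψ : PontryaginDual G → ℝ} (hψ : IsCR ψ) :
    qf (mdl μ t ξ) (PP μ hψ) = qf ξ (PP μ (hψ.translate t⁻¹)) := by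
  rw [qf_mdl', alph_PP]

end modulation

lemma integral_spm_mdl (t : PontryaginDual G) (ξ : HH μ) {ψ : PontryaginDual G → ℝ} (hψ : IsCR ψ) :
    ∫ χ, ψ χ ∂(spm (mdl μ t ξ)) = ∫ χ, ψ (t⁻¹ * χ) ∂(spm ξ) := by
  rw [integral_spm _ hψ, qf_mdl, integral_spm]

/-- the basic symmetry -/
lemma spm_symm {f g : G → ℂ} (hf : IsCC f) (hg : IsCC g) {ψ : PontryaginDual G → ℝ}
    (hψ : IsCR ψ) :
    ∫ χ, ψ χ * ‖ft μ f χ‖ ^ 2 ∂(spm (vec hg : HH μ))
      = ∫ χ, ψ χ * ‖ft μ g χ‖ ^ 2 ∂(spm (vec hf : HH μ)) := by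
  have e1 := integral_spm (vec hg : HH μ)
    (hψ.mul_right (φ := fun χ => ‖ft μ f χ‖ ^ 2) ((continuous_ft hf).norm.pow 2))
  have e2 := integral_spm (vec hf : HH μ)
    (hψ.mul_right (φ := fun χ => ‖ft μ g χ‖ ^ 2) ((continuous_ft hg).norm.pow 2))
  rw [PP_ft hψ hf, qf_star_mul_mul] at e1
  rw [PP_ft hψ hg, qf_star_mul_mul] at e2
  rw [e1, e2]
  congr 1
  change Lop hf (vec hg) = Lop hg (vec hf)
  rw [Lop_vec, Lop_vec]
  exact vec_congr _ _ (cv_comm f g)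

end Pool.Agent.H48.LCA
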